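import Pool.Agent.EWH.Stmts

/-!
# Squad EWH: module ALB (Albert: symbols with trivial corestriction)
-/

set_option autoImplicit false

namespace Pool.Agent.EWH

open scoped BigOperators
open Pool.Agent.EWG (Split SN osum ud OB VV vm iu QD sB iu_coe ud_apply)

namespace ALB_

variable {F K : Type} [Field F] [Field K] [Algebra F K]

theorem tr_br (hSTR : Stmt_STR) (hF : Two F) (E : QD F K) (u : Kˣ) :
    ∃ p q : Fˣ, tr E (br u) = br p + br q := by
  obtain ⟨h1, h2⟩ := hSTR F K hF E u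
  by_cases hs : E.s u = 0
  · exact ⟨1, -1, by rw [h2 hs, br_neg, add_neg_cancel]⟩
  · refine ⟨Units.mk0 _ hs, -(Units.mk0 _ hs * E.nm u), ?_⟩
    rw [h1 (Units.mk0 _ hs) rfl, br_neg, br_mul]
    unfold pf1
    ring

end ALB_

theorem alb_proof (hREL : Stmt_REL) (hPUR : Stmt_PUR) (hPFI : Stmt_PFI) (hMAP : Stmt_MAP)
    (hSTR : Stmt_STR) (hSIS : Stmt_SIS) (hPRJ : Stmt_PRJ) (hRTQ : Stmt_RTQ) (hNPR : Stmt_NPR)
    (hD6F : Stmt_D6F) : Stmt_ALB := by
  intro F K _ _ _ hF E w y h
  have hK : Two K := Two.map (algebraMap F K) hF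
  obtain ⟨g, hg, hgr⟩ := hMAP F K (algebraMap F K)
  have hrs : ∀ c, rs F K c = g c := fun c => hgr c
  have htr1 : tr E (1 : W K) = 0 := by
    have h1 := (hRTQ F K hF E).2.1 1
    rwa [hrs, map_one] at h1
  have sq : ∀ b : Fˣ, br b * br b = 1 := by
    intro b
    have h1 := (hREL F hF).2.2.1 1 b
    rw [one_mul, pow_two, br_mul, br_one] at h1
    exact h1
  have hpf : br w + br y + br (-(w * y)) = 1 - pf w y := by
    unfold pf pf1
    rw [br_neg, br_mul]
    ring
  have hphi : tr E (br w + br y + br (-(w * y))) = -tr E (pf w y) := by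
    rw [hpf, map_sub, htr1, zero_sub]
  have hphi0 : tr E (br w + br y + br (-(w * y))) = 0 := by
    obtain ⟨p1, q1, e1⟩ := ALB_.tr_br hSTR hF E w
    obtain ⟨p2, q2, e2⟩ := ALB_.tr_br hSTR hF E y
    obtain ⟨p3, q3, e3⟩ := ALB_.tr_br hSTR hF E (-(w * y))
    have hs : ∑ i, br ((![p1, q1, p2, q2, p3, q3] : Fin 6 → Fˣ) i) =
        tr E (br w + br y + br (-(w * y))) := by
      rw [Fin.sum_univ_six, map_add, map_add, e1, e2, e3]
      show br p1 + br q1 + br p2 + br q2 + br p3 + br q3 = _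
      ring
    rw [← hs]
    apply hD6F F hF
    rw [hs, hphi]
    exact ((I F) ^ 3).neg_mem h
  have htr0 : tr E (pf w y) = 0 := by
    rw [hphi] at hphi0
    exact neg_eq_zero.1 hphi0
  obtain ⟨z, e, hz, hze⟩ := hSIS F K hF E 2 ![w, y, -(w * y)] (by
    rw [Fin.sum_univ_three]
    exact hphi0)
  have hze' : (w : K) * z 0 ^ 2 + y * z 1 ^ 2 - w * y * z 2 ^ 2 = algebraMap F K e := by
    rw [← hze, Fin.sum_univ_three]
    show _ = (w : K) * z 0 * z 0 + (y : K) * z 1 * z 1 + ((-(w * y) : Kˣ) : K) * z 2 * z 2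
    push_cast
    ring
  by_cases he : e = 0
  · refine ⟨1, 1, ?_⟩
    have h1 : pf w y = 0 := by
      refine ((hPFI K hK w y 1).2.1).2 ⟨z, hz, ?_⟩
      rw [ud_apply, hze, he, map_zero]
    rw [h1]
    unfold pf pf1
    have : (iu F (1 : Fˣ) : Kˣ) = 1 := by unfold iu; rw [map_one]
    rw [this, br_one, sub_self, zero_mul]
  · let e' : Fˣ := Units.mk0 e he
    obtain ⟨v, hv⟩ := (hPUR K hK w y (iu F e')).2 ⟨z 0, z 1, z 2, by
      rw [iu_coe, hze']; rfl⟩
    by_cases hs : E.s v = 0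
    · have hv0 : algebraMap F K (E.t v) = v := by
        have := E.dec v
        rw [hs, map_zero, zero_mul, add_zero] at this
        exact this.symm
      have ht : E.t v ≠ 0 := by
        intro h0
        rw [h0, map_zero] at hv0
        exact v.ne_zero hv0.symm
      refine ⟨e', Units.mk0 _ ht, ?_⟩
      rw [hv]
      congr 1
      apply Units.ext
      rw [iu_coe]
      exact hv0.symm
    · have h1 : rs F K (pf1 e') * pf1 v = pf (iu F e') v := by
        rw [hrs]
        unfold pf pf1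
        rw [map_sub, map_one, hg]
        rfl
      have h2 : tr E (pf (iu F e') v) = 0 := by rw [← hv, htr0]
      rw [← h1, hPRJ F K hF E] at h2
      have h3 : tr E (pf1 v) = -(br (Units.mk0 _ hs) * pf1 (E.nm v)) := by
        unfold pf1
        rw [map_sub, htr1, (hSTR F K hF E v).1 (Units.mk0 _ hs) rfl]
        unfold pf1
        ring
      rw [h3] at h2
      have h4 : pf e' (E.nm v) = 0 := by
        unfold pf
        linear_combination (-br (Units.mk0 _ hs)) * h2 - (pf1 e' * pf1 (E.nm v)) *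
          sq (Units.mk0 _ hs)
      obtain ⟨f, hf⟩ := hNPR F K hF E e' v h4
      exact ⟨e', f, by rw [hv, hf]⟩

end Pool.Agent.EWH
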