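import Pool.Agent.EWH.Stmts

/-!
Squad EWH, module ANL: anisotropic forms stay anisotropic over `k(t)`.
-/

set_option autoImplicit false

namespace Pool.Agent.EWH

open scoped BigOperators
open Pool.Agent.EWG (Split SN osum ud OB VV vm iu QD sB ud_apply)
open Polynomial

namespace ANL_

variable {k : Type} [Field k] {n : ℕ}

/-- anisotropic forms stay anisotropic over `k[X]` -/
theorem aniso (a : Fin n → kˣ) (ha : ∀ v, ud a v v = 0 → v = 0) (p : Fin n → k[X])
    (hp : ∑ i, C (a i : k) * p i ^ 2 = 0) : p = 0 := by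
  classical
  by_contra hne
  have h1 : (Finset.univ.filter fun i => p i ≠ 0).Nonempty := by
    obtain ⟨i, hi⟩ := Function.ne_iff.1 hne
    exact ⟨i, by simpa using hi⟩
  obtain ⟨j, hj, hmax⟩ := Finset.exists_max_image _ (fun i => (p i).natDegree) h1
  have hj0 : p j ≠ 0 := by simpa using hj
  have hle : ∀ i, (p i).natDegree ≤ (p j).natDegree := by
    intro i
    by_cases hi : p i = 0
    · rw [hi, natDegree_zero]
      exact Nat.zero_le _
    · exact hmax i (by simpa using hi)
  have h2 := ha (fun i => (p i).coeff (p j).natDegree) (by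
    rw [ud_apply]
    have h3 := congrArg (fun q => q.coeff ((p j).natDegree + (p j).natDegree)) hp
    simp only [finsetSum_coeff, coeff_zero] at h3
    rw [← h3]
    refine Finset.sum_congr rfl fun i _ => ?_
    rw [coeff_C_mul, pow_two, coeff_mul_add_eq_of_natDegree_le (hle i) (hle i), mul_assoc])
  have h3 := congrFun h2 j
  exact hj0 (leadingCoeff_eq_zero.1 h3)

end ANL_

open ANL_ in
theorem anl_proof : Stmt_ANL := by
  intro k _ n a ha r hr
  obtain ⟨⟨b, hb⟩, hint⟩ := IsLocalization.exist_integer_multiples_of_finite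
    (nonZeroDivisors k[X]) (S := RatFunc k) r
  have hb0 : b ≠ 0 := nonZeroDivisors.ne_zero hb
  choose p hp using hint
  have hp' : ∀ i, algebraMap k[X] (RatFunc k) (p i) = algebraMap k[X] (RatFunc k) b * r i := by
    intro i
    rw [hp i]
    exact Algebra.smul_def _ _
  have hinj : Function.Injective (algebraMap k[X] (RatFunc k)) :=
    IsFractionRing.injective k[X] (RatFunc k)
  have h1 : ∑ i, C (a i : k) * p i ^ 2 = 0 := by
    apply hinj
    rw [map_zero, map_sum]
    have h2 : ∑ i, algebraMap k[X] (RatFunc k) (C (a i : k) * p i ^ 2) =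
        algebraMap k[X] (RatFunc k) b ^ 2 * ud (fun i => rc (a i)) r r := by
      rw [ud_apply, Finset.mul_sum]
      refine Finset.sum_congr rfl fun i _ => ?_
      rw [map_mul, map_pow, hp' i, RatFunc.algebraMap_C]
      show RatFunc.C (a i : k) * (algebraMap k[X] (RatFunc k) b * r i) ^ 2 =
        algebraMap k[X] (RatFunc k) b ^ 2 * (RatFunc.C (a i : k) * r i * r i)
      ring
    rw [h2, hr, mul_zero]
  have h2 := aniso a ha p h1
  funext i
  have h3 := hp' i
  rw [congrFun h2 i, Pi.zero_apply, map_zero] at h3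
  have h4 : algebraMap k[X] (RatFunc k) b ≠ 0 := by
    intro h
    exact hb0 (hinj (by rw [h, map_zero]))
  rcases mul_eq_zero.1 h3.symm with h | h
  · exact absurd h h4
  · exact h

end Pool.Agent.EWH
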