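import Pool.Agent.EWH.Stmts

/-!
Squad EWH, module AUG: the augmentation `W(K) → F_2`; its kernel is the fundamental ideal.
-/

set_option autoImplicit false

namespace Pool.Agent.EWH

open scoped BigOperators
open Pool.Agent.EWG (Split SN osum ud OB VV vm iu QD sB)

namespace AUG_

/-- the augmentation of the group algebra -/
noncomputable def ag (K : Type) [Field K] : MonoidAlgebra ℤ Kˣ →ₐ[ℤ] ZMod 2 :=
  MonoidAlgebra.lift ℤ (ZMod 2) Kˣ 1

theorem ag_of (K : Type) [Field K] (a : Kˣ) :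
    ag K (MonoidAlgebra.of ℤ Kˣ a) = 1 := by
  unfold ag
  rw [MonoidAlgebra.lift_of]
  rfl

theorem rel_le (hSDD : Stmt_SDD) (K : Type) [Field K] (hK : Two K) :
    ∀ f ∈ rel K, (ag K : MonoidAlgebra ℤ Kˣ →+* ZMod 2) f = 0 := by
  have : rel K ≤ RingHom.ker (ag K : MonoidAlgebra ℤ Kˣ →+* ZMod 2) := by
    refine Ideal.span_le.2 ?_
    rintro f ⟨n, a, hs, rfl⟩
    have h1 : (ag K) (∑ i, MonoidAlgebra.of ℤ Kˣ (a i)) = (n : ZMod 2) := by
      rw [map_sum]
      simp only [ag_of]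
      simp
    show (ag K) (∑ i, MonoidAlgebra.of ℤ Kˣ (a i)) = 0
    rw [h1]
    obtain ⟨m, rfl, _⟩ := hSDD K hK n a hs
    exact (ZMod.natCast_eq_zero_iff_even).2 ⟨m, by ring⟩
  intro f hf
  exact this hf

end AUG_

open AUG_ in
theorem aug_proof (hSDD : Stmt_SDD) (hSUR : Stmt_SUR) : Stmt_AUG := by
  intro K _ hK
  let e : W K →+* ZMod 2 := Ideal.Quotient.lift (rel K)
    (ag K : MonoidAlgebra ℤ Kˣ →+* ZMod 2) (rel_le hSDD K hK)
  have he : ∀ a : Kˣ, e (br a) = 1 := by
    intro a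
    show (ag K) (MonoidAlgebra.of ℤ Kˣ a) = 1
    exact ag_of K a
  refine ⟨e, he, ?_⟩
  intro c
  constructor
  · intro hc
    obtain ⟨n, a, rfl⟩ := hSUR K c
    have hn : e (∑ i, br (a i)) = (n : ZMod 2) := by
      rw [map_sum]
      simp only [he]
      simp
    rw [hn] at hc
    obtain ⟨m, hm⟩ := (ZMod.natCast_eq_zero_iff_even).1 hc
    have h2 : ∑ i, br (a i) = (m : W K) * pf1 (-1) - ∑ i, pf1 (a i) := by
      have h3 : ∑ i, pf1 (a i) = (n : W K) - ∑ i, br (a i) := by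
        unfold pf1
        rw [Finset.sum_sub_distrib]
        simp
      have h4 : (n : W K) = (m : W K) + m := by
        rw [← Nat.cast_add]
        exact congrArg Nat.cast hm
      rw [h3, ← two_eq, h4]
      ring
    rw [h2]
    exact Ideal.sub_mem _ (Ideal.mul_mem_left _ _ (pf1_mem _))
      (Ideal.sum_mem _ fun i _ => pf1_mem _)
  · intro hc
    have h4 : I K ≤ RingHom.ker e := by
      refine Ideal.span_le.2 ?_
      rintro _ ⟨a, rfl⟩
      show e (pf1 a) = 0
      unfold pf1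
      rw [map_sub, map_one, he, sub_self]
    exact h4 hc

end Pool.Agent.EWH
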