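import Pool.Agent.EWH.Stmts

/-!
Squad EWH, module BIL: symbols modulo `I³`.
-/

set_option autoImplicit false

namespace Pool.Agent.EWH

open scoped BigOperators
open Pool.Agent.EWG (Split SN osum ud OB VV vm iu QD sB)

namespace BIL_

variable {K : Type} [Field K]

theorem br_sq (a : Kˣ) : br a * br a = (1 : W K) := by
  have h : br (a * a) + br (-1) = (0 : W K) := by
    have h1 : MonoidAlgebra.of ℤ Kˣ (a * a) + MonoidAlgebra.of ℤ Kˣ (-1) ∈ rel K := by
      apply Ideal.subset_span
      refine ⟨2, ![a * a, -1], ⟨Submodule.span K {![1, (a : K)]}, ?_, ?_⟩,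
        by simp [Fin.sum_univ_two]⟩
      · intro x hx y hy
        rw [Submodule.mem_span_singleton] at hx hy
        obtain ⟨c, rfl⟩ := hx
        obtain ⟨d, rfl⟩ := hy
        simp [Fin.sum_univ_two]
        ring
      · rw [finrank_span_singleton (by intro h; simpa using congrFun h 0)]
        simp
    have h2 := (Ideal.Quotient.eq_zero_iff_mem (I := rel K)).2 h1
    rw [map_add] at h2
    exact h2
  rw [br_neg, br_one, br_mul] at h
  linear_combination h

end BIL_

open BIL_ in
theorem bil_proof : Stmt_BIL := by
  intro K _
  refine ⟨fun a b c => ?_, fun a b c => ?_, fun a n c hc => ?_, fun a => ?_, fun a => ?_,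
    fun a b c => ?_⟩
  · have h : pf a (b * c) - (pf a b + pf a c) = - pf3 a b c := by
      unfold pf pf3 pf1
      rw [br_mul]
      ring
    rw [h]
    exact Ideal.neg_mem_iff _ |>.2 (pf3_mem a b c)
  · have h : pf (a * b) c - (pf a c + pf b c) = - pf3 a b c := by
      unfold pf pf3 pf1
      rw [br_mul]
      ring
    rw [h]
    exact Ideal.neg_mem_iff _ |>.2 (pf3_mem a b c)
  · have h : br a * c - c = - (c * pf1 a) := by
      unfold pf1
      ring
    rw [h]
    refine Ideal.neg_mem_iff _ |>.2 ?_
    rw [pow_succ]
    exact Ideal.mul_mem_mul hc (pf1_mem a)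
  · unfold pf pf1
    rw [br_neg]
    linear_combination (-1 : W K) * br_sq a
  · unfold pf pf1
    rw [br_neg, br_one]
    linear_combination br_sq a
  · have h : pf a b - pf a c = - (br b * pf a (b * c)) := by
      unfold pf pf1
      rw [br_mul]
      linear_combination (- (1 - br a) * br c) * br_sq b
    constructor
    · intro h1
      rw [h1, sub_self] at h
      have h2 : br b * pf a (b * c) = 0 := by linear_combination h
      calc pf a (b * c) = br b * (br b * pf a (b * c)) := by
            rw [← mul_assoc, br_sq, one_mul]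
        _ = 0 := by rw [h2, mul_zero]
    · intro h1
      rw [h1, mul_zero, neg_zero, sub_eq_zero] at h
      exact h

end Pool.Agent.EWH
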