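import Pool.Agent.EWH.Stmts

/-!
Squad EWH, module CA2: the polynomial `x + y t²`.
-/

set_option autoImplicit false

namespace Pool.Agent.EWH

open scoped BigOperators
open Pool.Agent.EWG (Split SN osum ud OB VV vm iu QD sB ud_apply)
open Polynomial

namespace CA2_

variable {k : Type} [Field k] {n : ℕ}

theorem deg_le (a : Fin n → kˣ) (ha : ∀ v, ud a v v = 0 → v = 0) (p : Fin n → k[X]) (i : Fin n) :
    2 * (p i).natDegree ≤ (∑ i, C (a i : k) * p i ^ 2).natDegree := by
  classical
  by_cases hi : p i = 0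
  · rw [hi, natDegree_zero]
    exact Nat.zero_le _
  have h1 : (Finset.univ.filter fun i => p i ≠ 0).Nonempty := ⟨i, by simpa using hi⟩
  obtain ⟨j, hj, hmax⟩ := Finset.exists_max_image _ (fun i => (p i).natDegree) h1
  have hj0 : p j ≠ 0 := by simpa using hj
  have hle : ∀ i, (p i).natDegree ≤ (p j).natDegree := by
    intro i
    by_cases hi : p i = 0
    · rw [hi, natDegree_zero]
      exact Nat.zero_le _
    · exact hmax i (by simpa using hi)
  have h2 : (∑ i, C (a i : k) * p i ^ 2).coeff ((p j).natDegree + (p j).natDegree) ≠ 0 := by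
    intro h
    have h2 := ha (fun i => (p i).coeff (p j).natDegree) (by
      rw [ud_apply]
      rw [finsetSum_coeff] at h
      rw [← h]
      refine Finset.sum_congr rfl fun i _ => ?_
      rw [coeff_C_mul, pow_two, coeff_mul_add_eq_of_natDegree_le (hle i) (hle i), mul_assoc])
    have h3 := congrFun h2 j
    exact hj0 (leadingCoeff_eq_zero.1 h3)
  have h3 := le_natDegree_of_ne_zero h2
  have h4 := hle i
  omega

theorem coefs {x y A B D : k} (h : C x + C y * X ^ 2 = C A + C B * X + C D * X ^ 2) :
    A = x ∧ D = y ∧ B = 0 := by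
  refine ⟨?_, ?_, ?_⟩
  · have := congrArg (fun q => q.coeff 0) h
    simp at this
    exact this.symm
  · have := congrArg (fun q => q.coeff 2) h
    simp [coeff_X, coeff_C] at this
    exact this.symm
  · have := congrArg (fun q => q.coeff 1) h
    simp [coeff_X_pow, coeff_C] at this
    exact this.symm

end CA2_

open CA2_ in
theorem ca2_proof (hCAS : Stmt_CAS) : Stmt_CA2 := by
  intro k _ h2k n a x y ha r hr
  obtain ⟨⟨b, hb⟩, hint⟩ := IsLocalization.exist_integer_multiples_of_finite
    (nonZeroDivisors k[X]) (S := RatFunc k) r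
  have hb0 : b ≠ 0 := nonZeroDivisors.ne_zero hb
  choose p hp using hint
  have hp' : ∀ i, algebraMap k[X] (RatFunc k) (p i) = algebraMap k[X] (RatFunc k) b * r i := by
    intro i
    rw [hp i]
    exact Algebra.smul_def _ _
  have hinj : Function.Injective (algebraMap k[X] (RatFunc k)) :=
    IsFractionRing.injective k[X] (RatFunc k)
  have h1 : (C (x : k) + C (y : k) * X ^ 2) * b ^ 2 = ∑ i, C (a i : k) * p i ^ 2 := by
    apply hinj
    rw [map_sum]
    have h2 : ∑ i, algebraMap k[X] (RatFunc k) (C (a i : k) * p i ^ 2) =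
        algebraMap k[X] (RatFunc k) b ^ 2 * ud (fun i => rc (a i)) r r := by
      rw [ud_apply, Finset.mul_sum]
      refine Finset.sum_congr rfl fun i _ => ?_
      rw [map_mul, map_pow, hp' i, RatFunc.algebraMap_C]
      show RatFunc.C (a i : k) * (algebraMap k[X] (RatFunc k) b * r i) ^ 2 =
        algebraMap k[X] (RatFunc k) b ^ 2 * (RatFunc.C (a i : k) * r i * r i)
      ring
    rw [h2, hr, map_mul, map_add, map_mul, map_pow, map_pow, RatFunc.algebraMap_C,
      RatFunc.algebraMap_C, RatFunc.algebraMap_X]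
    ring
  obtain ⟨g, hg⟩ := hCAS k h2k n a ha _ b p hb0 h1
  have hdeg : ∀ i, (g i).natDegree ≤ 1 := by
    intro i
    have h3 := deg_le a ha g i
    rw [← hg] at h3
    have h4 : (C (x : k) + C (y : k) * X ^ 2).natDegree ≤ 2 := by
      compute_degree
    omega
  have hgi : ∀ i, g i = C ((g i).coeff 1) * X + C ((g i).coeff 0) :=
    fun i => eq_X_add_C_of_natDegree_le_one (hdeg i)
  have key : C (x : k) + C (y : k) * X ^ 2 =
      C (∑ i, (a i : k) * (g i).coeff 0 * (g i).coeff 0) +
      C (2 * ∑ i, (a i : k) * (g i).coeff 0 * (g i).coeff 1) * X +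
      C (∑ i, (a i : k) * (g i).coeff 1 * (g i).coeff 1) * X ^ 2 := by
    rw [hg]
    simp only [map_sum, map_mul, Finset.sum_mul, Finset.mul_sum]
    rw [← Finset.sum_add_distrib, ← Finset.sum_add_distrib]
    refine Finset.sum_congr rfl fun i _ => ?_
    conv_lhs => rw [hgi i]
    rw [show (C (2 : k)) = 2 from rfl]
    ring
  obtain ⟨c1, c2, c3⟩ := coefs key
  refine ⟨fun i => (g i).coeff 0, fun i => (g i).coeff 1, c1, c2, ?_⟩
  rw [ud_apply]
  rcases mul_eq_zero.1 c3 with h | h
  · exact absurd h h2k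
  · exact h

end Pool.Agent.EWH
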