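import Pool.Agent.EWH.Stmts

/-!
Squad EWH, module CAS: the theorem of Cassels.
-/

set_option autoImplicit false

namespace Pool.Agent.EWH

open scoped BigOperators
open Pool.Agent.EWG (Split SN osum ud OB VV vm iu QD sB ud_apply)
open Polynomial

namespace CAS_

variable {k : Type} [Field k] {n : ℕ}

/-- anisotropic forms stay anisotropic over `k[X]` -/
theorem aniso (a : Fin n → kˣ) (ha : ∀ v, ud a v v = 0 → v = 0) (p : Fin n → k[X])
    (hp : ∑ i, C (a i : k) * p i ^ 2 = 0) : p = 0 := by
  classical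
  by_contra hne
  have h1 : (Finset.univ.filter fun i => p i ≠ 0).Nonempty := by
    obtain ⟨i, hi⟩ := Function.ne_iff.1 hne
    exact ⟨i, by simpa using hi⟩
  obtain ⟨j, hj, hmax⟩ := Finset.exists_max_image _ (fun i => (p i).natDegree) h1
  have hj0 : p j ≠ 0 := by simpa using hj
  have hle : ∀ i, (p i).natDegree ≤ (p j).natDegree := by
    intro i
    by_cases hi : p i = 0
    · rw [hi, natDegree_zero]
      exact Nat.zero_le _
    · exact hmax i (by simpa using hi)
  have h2 := ha (fun i => (p i).coeff (p j).natDegree) (by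
    rw [ud_apply]
    have h3 := congrArg (fun q => q.coeff ((p j).natDegree + (p j).natDegree)) hp
    simp only [finsetSum_coeff, coeff_zero] at h3
    rw [← h3]
    refine Finset.sum_congr rfl fun i _ => ?_
    rw [coeff_C_mul, pow_two, coeff_mul_add_eq_of_natDegree_le (hle i) (hle i), mul_assoc])
  have h3 := congrFun h2 j
  exact hj0 (leadingCoeff_eq_zero.1 h3)

theorem deg_le (a : Fin n → kˣ) (r : Fin n → k[X]) (d : ℕ) (hr : ∀ i, (r i).natDegree ≤ d) :
    (∑ i, C (a i : k) * r i ^ 2).natDegree ≤ 2 * d := by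
  refine natDegree_sum_le_of_forall_le _ _ fun i _ => ?_
  refine (natDegree_C_mul_le _ _).trans ?_
  refine natDegree_pow_le.trans ?_
  exact Nat.mul_le_mul_left 2 (hr i)

theorem main (a : Fin n → kˣ) (ha : ∀ v, ud a v v = 0 → v = 0) (f : k[X]) : ∀ (N : ℕ)
    (p0 : k[X]) (p : Fin n → k[X]), p0.natDegree ≤ N → p0 ≠ 0 →
    f * p0 ^ 2 = ∑ i, C (a i : k) * p i ^ 2 →
    ∃ g : Fin n → k[X], f = ∑ i, C (a i : k) * g i ^ 2 := by
  intro N
  induction N with
  | zero =>
    intro p0 p hN h0 hf
    obtain ⟨c, rfl⟩ : ∃ c, p0 = C c := ⟨_, eq_C_of_natDegree_le_zero hN⟩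
    have hc : c ≠ 0 := fun h => h0 (by rw [h, C_0])
    refine ⟨fun i => C c⁻¹ * p i, ?_⟩
    have h1 : ∑ i, C (a i : k) * (C c⁻¹ * p i) ^ 2 =
        C (c⁻¹) ^ 2 * ∑ i, C (a i : k) * p i ^ 2 := by
      rw [Finset.mul_sum]
      exact Finset.sum_congr rfl fun i _ => by ring
    rw [h1, ← hf]
    have h2 : C c⁻¹ * C c = 1 := by rw [← C_mul, inv_mul_cancel₀ hc, C_1]
    calc f = f * (C c⁻¹ * C c) ^ 2 := by rw [h2]; ring
      _ = _ := by ring
  | succ N ih =>
    intro p0 p hN h0 hf
    by_cases hd : p0.natDegree ≤ N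
    · exact ih p0 p hd h0 hf
    have hd0 : p0.natDegree ≠ 0 := by omega
    set g : Fin n → k[X] := fun i => p i / p0 with hg
    set r : Fin n → k[X] := fun i => p i % p0 with hr
    have hpr : ∀ i, p i = p0 * g i + r i := fun i => (EuclideanDomain.div_add_mod (p i) p0).symm
    by_cases hr0 : r = 0
    · refine ⟨g, ?_⟩
      have h1 : ∑ i, C (a i : k) * p i ^ 2 = (∑ i, C (a i : k) * g i ^ 2) * p0 ^ 2 := by
        rw [Finset.sum_mul]
        refine Finset.sum_congr rfl fun i _ => ?_
        rw [hpr i, congrFun hr0 i]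
        simp only [Pi.zero_apply, add_zero]
        ring
      rw [h1] at hf
      exact mul_right_cancel₀ (pow_ne_zero 2 h0) hf
    · set Pp := ∑ i, C (a i : k) * p i ^ 2 with hPp
      set Pg := ∑ i, C (a i : k) * g i ^ 2 with hPg
      set Bpg := ∑ i, C (a i : k) * p i * g i with hBpg
      set A := Pg - f with hA
      set Bq := 2 * (f * p0 - Bpg) with hBq
      have h1 : ∑ i, C (a i : k) * (A * p i + Bq * g i) ^ 2 =
          A ^ 2 * Pp + 2 * A * Bq * Bpg + Bq ^ 2 * Pg := by
        rw [hPp, hPg, hBpg, Finset.mul_sum, Finset.mul_sum, Finset.mul_sum,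
          ← Finset.sum_add_distrib, ← Finset.sum_add_distrib]
        exact Finset.sum_congr rfl fun i _ => by ring
      have h2 : f * (A * p0 + Bq) ^ 2 = ∑ i, C (a i : k) * (A * p i + Bq * g i) ^ 2 := by
        rw [h1, ← hf, hBq, hA]
        ring
      have h3 : p0 * (A * p0 + Bq) = ∑ i, C (a i : k) * r i ^ 2 := by
        have h4 : ∑ i, C (a i : k) * r i ^ 2 = Pp - 2 * p0 * Bpg + p0 ^ 2 * Pg := by
          rw [hPp, hPg, hBpg, Finset.mul_sum, Finset.mul_sum,
            ← Finset.sum_sub_distrib, ← Finset.sum_add_distrib]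
          refine Finset.sum_congr rfl fun i _ => ?_
          have : r i = p i - p0 * g i := by rw [hpr i]; ring
          rw [this]
          ring
        rw [h4, ← hf, hBq, hA]
        ring
      have h5 : ∑ i, C (a i : k) * r i ^ 2 ≠ 0 := fun h => hr0 (aniso a ha r h)
      have h6 : A * p0 + Bq ≠ 0 := by
        intro h
        rw [h, mul_zero] at h3
        exact h5 h3.symm
      have h7 : (∑ i, C (a i : k) * r i ^ 2).natDegree ≤ 2 * (p0.natDegree - 1) := by
        refine deg_le a r _ fun i => ?_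
        have := natDegree_mod_lt (p i) hd0
        show (p i % p0).natDegree ≤ _
        omega
      have h8 : p0.natDegree + (A * p0 + Bq).natDegree ≤ 2 * (p0.natDegree - 1) := by
        rw [← natDegree_mul h0 h6, h3]
        exact h7
      exact ih (A * p0 + Bq) (fun i => A * p i + Bq * g i) (by omega) h6 h2

end CAS_

open CAS_ in
theorem cas_proof : Stmt_CAS := by
  intro k _ _ n a ha f p0 p h0 hf
  exact main a ha f _ p0 p le_rfl h0 hf

end Pool.Agent.EWH
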