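import Pool.Agent.EWH.Stmts

/-!
Squad EWH, module CLQ: the class of a form does not depend on the orthogonal basis.
-/

set_option autoImplicit false

namespace Pool.Agent.EWH

open scoped BigOperators
open Pool.Agent.EWG (Split SN osum ud OB VV vm iu QD sB osum_apply ud_apply)

theorem clq_proof (hSPI : EWG.Stmt_SPI) (hNEG : Stmt_NEG) (hOBI : EWG.Stmt_OBI)
    (hWZ : Stmt_WZ) : Stmt_CLQ := by
  intro K V _ _ _ hK ι ι' _ _ B v a v' a' hv hv'
  obtain ⟨e₁, he₁⟩ := hOBI K V ι B v a hv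
  obtain ⟨e₂, he₂⟩ := hOBI K V ι' B v' a' hv'
  have hs : Split K (osum (ud a) (-(ud a))) := hNEG K (ι → K) (ud a)
  set e : (ι → K) ≃ₗ[K] (ι' → K) := e₁.symm.trans e₂ with he
  have hee : ∀ x y, ud a' (e x) (e y) = ud a x y := by
    intro x y
    have h1 := he₂ (e₁.symm x) (e₁.symm y)
    have h2 := he₁ (e₁.symm x) (e₁.symm y)
    rw [LinearEquiv.apply_symm_apply, LinearEquiv.apply_symm_apply] at h2
    rw [he]
    exact h1.trans h2.symm
  set f : ((ι → K) × (ι → K)) ≃ₗ[K] (ι ⊕ ι' → K) :=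
    ((LinearEquiv.refl K (ι → K)).prodCongr e).trans
      (LinearEquiv.sumArrowLequivProdArrow ι ι' K K).symm with hf
  have hfl : ∀ x i, f x (Sum.inl i) = x.1 i := fun x i => rfl
  have hfr : ∀ x i, f x (Sum.inr i) = e x.2 i := fun x i => rfl
  have hiso : ∀ x y, ud (Sum.elim a (fun i => -a' i)) (f x) (f y) =
      osum (ud a) (-(ud a)) x y := by
    intro x y
    rw [osum_apply, LinearMap.neg_apply, LinearMap.neg_apply, ← hee x.2 y.2, ud_apply, ud_apply,
      ud_apply, Fintype.sum_sum_type]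
    simp only [hfl, hfr, Sum.elim_inl, Sum.elim_inr, Units.val_neg, neg_mul,
      Finset.sum_neg_distrib]
  have h0 := (hWZ K hK (ι ⊕ ι') (Sum.elim a (fun i => -a' i))).2 (hSPI K _ _ f _ _ hiso hs)
  rw [Fintype.sum_sum_type] at h0
  simp only [Sum.elim_inl, Sum.elim_inr, br_neg, Finset.sum_neg_distrib] at h0
  exact sub_eq_zero.1 (by rw [sub_eq_add_neg]; exact h0)

end Pool.Agent.EWH
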