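import Pool.Agent.EWH.Stmts

/-!
Module CMP of the squad EWH (MP_d26ff6_al): comparison with EWG if `-1` is a square.
-/

set_option autoImplicit false

namespace Pool.Agent.EWH

theorem cmp_proof (hPFZ' : EWG.Stmt_PFZ) (hISO' : EWG.Stmt_ISO) (hPFZ : Stmt_PFZ)
    (hISO : Stmt_ISO) : Stmt_CMP := by
  intro K _ hG a b c d
  refine ⟨(hISO' K hG a b c d).trans (hISO K hG.two a b c d).symm, ?_⟩
  rw [hPFZ' K hG a b, hPFZ K hG.two a b]
  obtain ⟨i, hi⟩ := hG.neg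
  constructor
  · rintro ⟨s, t, h⟩
    exact ⟨s, i * t, by rw [h, mul_pow, hi]; ring⟩
  · rintro ⟨s, t, h⟩
    exact ⟨s, i * t, by rw [h, mul_pow, hi]; ring⟩

end Pool.Agent.EWH
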