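import Pool.Agent.EWH.Stmts

/-!
# Squad EWH: module D6F (six-dimensional forms in `I³`)
-/

set_option autoImplicit false

namespace Pool.Agent.EWH

open scoped BigOperators

theorem d6f_proof (hREL : Stmt_REL) (hEVI : Stmt_EVI) (hDI2 : Stmt_DI2) (hEQB : Stmt_EQB) :
    Stmt_D6F := by
  intro K _ hK a h
  obtain ⟨r1, -, r3, -⟩ := hREL K hK
  have sq : ∀ b : Kˣ, br b * br b = 1 := by
    intro b
    have h1 := r3 1 b
    rw [one_mul, pow_two, br_mul, br_one] at h1
    exact h1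
  have hle : (I K) ^ 3 ≤ (I K) ^ 2 := Ideal.pow_le_pow_right (by norm_num)
  have h1 : ∑ i : Fin 6, br (a i) - pf1 ((-1) ^ 3 * ∏ i : Fin 6, a i) ∈ (I K) ^ 2 :=
    hEVI K 3 a
  have h2 : pf1 ((-1) ^ 3 * ∏ i : Fin 6, a i) ∈ (I K) ^ 2 := by
    have := Ideal.sub_mem _ (hle h) h1
    rwa [sub_sub_cancel] at this
  have h3 := hDI2 K hK _ h2
  have h4 : br ((-1) ^ 3 * ∏ i : Fin 6, a i) = 1 := by
    rw [← br_one, r1, mul_one]
    exact h3
  have h5 : br (a 0) * br (a 1) * br (a 2) * br (a 3) * br (a 4) * br (a 5) = -1 := by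
    have e : ((-1 : Kˣ) ^ 3 * ∏ i : Fin 6, a i) =
        -(a 0 * a 1 * a 2 * a 3 * a 4 * a 5) := by
      rw [Fin.prod_univ_six]
      apply Units.ext
      push_cast
      ring
    rw [e, br_neg] at h4
    simp only [br_mul] at h4
    linear_combination -h4
  have hs : ∑ i : Fin 6, br (a i) =
      br (a 0) + br (a 1) + br (a 2) + br (a 3) + br (a 4) + br (a 5) := Fin.sum_univ_six _
  have s0 := sq (a 0)
  have s1 := sq (a 1)
  have s2 := sq (a 2)
  have s3 := sq (a 3)
  have s4 := sq (a 4)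
  have s5 := sq (a 5)
  have hcc : br (a 3) * br (a 4) * br (a 5) = -(br (a 0) * br (a 1) * br (a 2)) := by
    linear_combination (br (a 0) * br (a 1) * br (a 2)) * h5 -
      br (a 3) * br (a 4) * br (a 5) * (br (a 1) * br (a 1) * br (a 2) * br (a 2) * s0 +
        br (a 2) * br (a 2) * s1 + s2)
  have p1 : pf (-(a 1 * a 2)) (-(a 0 * a 2)) = 1 + br (a 1) * br (a 2) + br (a 0) * br (a 2) +
      br (a 0) * br (a 1) := by
    unfold pf pf1
    rw [br_neg, br_neg, br_mul, br_mul]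
    linear_combination (br (a 0) * br (a 1)) * s2
  have p2 : pf (-(a 4 * a 5)) (-(a 3 * a 5)) = 1 + br (a 4) * br (a 5) + br (a 3) * br (a 5) +
      br (a 3) * br (a 4) := by
    unfold pf pf1
    rw [br_neg, br_neg, br_mul, br_mul]
    linear_combination (br (a 3) * br (a 4)) * s5
  have key : br (a 0) * br (a 1) * br (a 2) * ∑ i : Fin 6, br (a i) =
      pf (-(a 1 * a 2)) (-(a 0 * a 2)) - pf (-(a 4 * a 5)) (-(a 3 * a 5)) := by
    rw [p1, p2, hs]
    have e1 : br (a 0) * br (a 1) * br (a 2) * (br (a 3) + br (a 4) + br (a 5)) =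
        -(br (a 4) * br (a 5) + br (a 3) * br (a 5) + br (a 3) * br (a 4)) := by
      have : br (a 0) * br (a 1) * br (a 2) = -(br (a 3) * br (a 4) * br (a 5)) := by
        rw [hcc, neg_neg]
      rw [this]
      linear_combination -(br (a 4) * br (a 5)) * s3 - (br (a 3) * br (a 5)) * s4 -
        (br (a 3) * br (a 4)) * s5
    linear_combination e1 + (br (a 1) * br (a 2)) * s0 + (br (a 0) * br (a 2)) * s1 +
      (br (a 0) * br (a 1)) * s2
  have h6 : pf (-(a 1 * a 2)) (-(a 0 * a 2)) - pf (-(a 4 * a 5)) (-(a 3 * a 5)) ∈ (I K) ^ 3 := by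
    rw [← key]
    exact Ideal.mul_mem_left _ _ h
  rw [hEQB K hK _ _ _ _ h6, sub_self] at key
  have h7 : (br (a 0) * br (a 1) * br (a 2)) * (br (a 0) * br (a 1) * br (a 2)) = 1 := by
    linear_combination br (a 1) * br (a 1) * br (a 2) * br (a 2) * s0 +
        br (a 2) * br (a 2) * s1 + s2
  linear_combination (br (a 0) * br (a 1) * br (a 2)) * key - (∑ i : Fin 6, br (a i)) * h7

end Pool.Agent.EWH
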