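import Pool.Agent.EWH.Stmts

/-!
EWH, module DI2: `⟨⟨a⟩⟩ ∈ I²` only if `a` is a square.
-/

set_option autoImplicit false

namespace Pool.Agent.EWH

open scoped BigOperators
open Pool.Agent.EWG (Split SN osum ud OB VV vm iu QD sB)

namespace DI2_

variable {K : Type} [Field K]

/-- classes of forms of even dimension and trivial signed discriminant -/
def J (c : W K) : Prop := ∃ (n m : ℕ) (a : Fin n → Kˣ), n = 2 * m ∧ c = ∑ i, br (a i) ∧
  IsSquare ((-1) ^ m * ∏ i, a i)

theorem J_zero : J (0 : W K) := ⟨0, 0, Fin.elim0, rfl, by simp, by simp⟩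

theorem J_add {c d : W K} (hc : J c) (hd : J d) : J (c + d) := by
  obtain ⟨n, m, a, h1, h2, h3⟩ := hc
  obtain ⟨n', m', a', h1', h2', h3'⟩ := hd
  refine ⟨n + n', m + m', Fin.append a a', by omega, ?_, ?_⟩
  · rw [Fin.sum_univ_add, h2, h2']
    simp
  · rw [Fin.prod_univ_add, pow_add]
    simp only [Fin.append_left, Fin.append_right]
    rw [mul_mul_mul_comm]
    exact h3.mul h3'

theorem J_sum {n : ℕ} (f : Fin n → W K) (h : ∀ i, J (f i)) : J (∑ i, f i) := by
  induction n with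
  | zero => simpa using J_zero
  | succ n ih =>
    rw [Fin.sum_univ_castSucc]
    exact J_add (ih _ fun i => h _) (h _)

theorem J_br {c : W K} (u : Kˣ) (hc : J c) : J (br u * c) := by
  obtain ⟨n, m, a, h1, h2, h3⟩ := hc
  refine ⟨n, m, fun i => u * a i, h1, ?_, ?_⟩
  · rw [h2, Finset.mul_sum]
    exact Finset.sum_congr rfl fun i _ => (br_mul u (a i)).symm
  · subst h1
    rw [Finset.prod_mul_distrib, Finset.prod_const, Finset.card_univ, Fintype.card_fin]
    have h4 : IsSquare (u ^ (2 * m)) := ⟨u ^ m, by rw [← pow_add, two_mul]⟩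
    rw [mul_left_comm]
    exact h4.mul h3

theorem J_pf (a b : Kˣ) : J (pf a b) := by
  refine ⟨4, 2, ![1, -a, -b, a * b], rfl, ?_, ?_⟩
  · simp only [Fin.sum_univ_four, pf, pf1, br_neg, br_mul, br_one, Matrix.cons_val_zero,
      Matrix.cons_val_one, Matrix.cons_val]
    ring
  · refine ⟨a * b, ?_⟩
    simp only [Fin.prod_univ_four, Matrix.cons_val_zero, Matrix.cons_val_one, Matrix.cons_val]
    apply Units.ext
    push_cast
    ring

theorem J_of_mem (hSUR : Stmt_SUR) {c : W K} (hc : c ∈ (I K) ^ 2) : J c := by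
  rw [pow_two, I, Ideal.span_mul_span'] at hc
  induction hc using Submodule.span_induction with
  | mem x hx =>
    obtain ⟨_, ⟨a, rfl⟩, _, ⟨b, rfl⟩, rfl⟩ := hx
    exact J_pf a b
  | zero => exact J_zero
  | add x y _ _ hx hy => exact J_add hx hy
  | smul r x _ hx =>
    obtain ⟨n, u, rfl⟩ := hSUR K r
    rw [smul_eq_mul, Finset.sum_mul]
    exact J_sum _ fun i => J_br (u i) hx

end DI2_

open DI2_

theorem di2_proof (hSDD : Stmt_SDD) (hWZ : Stmt_WZ) (hSUR : Stmt_SUR) : Stmt_DI2 := by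
  intro K _ h2 a ha
  obtain ⟨n, m, b, h1, h3, h4⟩ := J_of_mem hSUR ha
  have h5 : ∑ i, br (Fin.append b ![-1, a] i) = 0 := by
    rw [Fin.sum_univ_add]
    simp only [Fin.append_left, Fin.append_right, Fin.sum_univ_two, Matrix.cons_val_zero,
      Matrix.cons_val_one]
    rw [← h3, pf1, br_neg, br_one]
    ring
  obtain ⟨m', h6, h7⟩ := hSDD K h2 (n + 2) _ ((hWZ K h2 _ _).1 h5)
  obtain rfl : m' = m + 1 := by omega
  rw [Fin.prod_univ_add] at h7
  simp only [Fin.append_left, Fin.append_right, Fin.prod_univ_two, Matrix.cons_val_zero,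
      Matrix.cons_val_one] at h7
  have h8 : (-1) ^ (m + 1) * ((∏ i, b i) * (-1 * a)) = ((-1) ^ m * ∏ i, b i) * a := by
    apply Units.ext
    push_cast
    ring
  rw [h8] at h7
  obtain ⟨x, hx⟩ := h4
  obtain ⟨y, hy⟩ := h7
  refine ⟨x⁻¹ * y, ?_⟩
  rw [hx] at hy
  rw [mul_mul_mul_comm, ← hy, ← mul_assoc, mul_mul_mul_comm]
  simp

end Pool.Agent.EWH
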