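import Pool.Agent.EWH.Stmts

/-!
# Squad EWH: module EQB (equality of symbols in `I²/I³`)
-/

set_option autoImplicit false

namespace Pool.Agent.EWH

open scoped BigOperators
open Pool.Agent.EWG (Split SN osum ud OB VV vm iu QD sB iu_coe)

theorem eqb_proof (hREL : Stmt_REL) (hBIL : Stmt_BIL) (hMAP : Stmt_MAP) (hQXE : Stmt_QXE)
    (hTRN : Stmt_TRN) (hKRS : Stmt_KRS) (hT2F : Stmt_T2F) : Stmt_EQB := by
  intro K _ hK a b c d h
  by_cases ha : IsSquare a
  · have h1 : pf1 a = 0 := ((hREL K hK).2.2.2 a).2 ha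
    have h2 : pf a b = 0 := by unfold pf; rw [h1, zero_mul]
    rw [h2, zero_sub] at h
    have h3 : pf c d ∈ (I K) ^ 3 := by
      have := ((I K) ^ 3).neg_mem h
      rwa [neg_neg] at this
    rw [h2, hT2F K hK c d h3]
  · obtain ⟨K', i1, i2, E, hE⟩ := hQXE K hK a ha
    obtain ⟨g, hg, hgr⟩ := hMAP K K' (algebraMap K K')
    have hK' : Two K' := Two.map (algebraMap K K') hK
    have hpf : ∀ u v : Kˣ, g (pf u v) = pf (iu K u : K'ˣ) (iu K v) := by
      intro u v
      unfold pf pf1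
      rw [map_mul, map_sub, map_sub, map_one, hg, hg]
      rfl
    have hsq : IsSquare (iu K a : K'ˣ) := by
      refine ⟨E.θ, Units.ext ?_⟩
      rw [← hE, iu_coe, ← E.sq, Units.val_mul, pow_two]
    have h1 : rs K K' (pf a b - pf c d) ∈ (I K') ^ 3 := (hTRN K K' hK E 3).2.1 _ h
    have h2 : rs K K' (pf a b - pf c d) = -pf (iu K c : K'ˣ) (iu K d) := by
      unfold rs
      rw [hgr, map_sub, hpf, hpf]
      have : pf (iu K a : K'ˣ) (iu K b) = 0 := by
        unfold pf
        rw [((hREL K' hK').2.2.2 _).2 hsq, zero_mul]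
      rw [this, zero_sub]
    rw [h2] at h1
    have h3 : pf (iu K c : K'ˣ) (iu K d) ∈ (I K') ^ 3 := by
      have := ((I K') ^ 3).neg_mem h1
      rwa [neg_neg] at this
    obtain ⟨v, hv⟩ := (hKRS K K' hK E c d).1 (hT2F K' hK' _ _ h3)
    rw [hE] at hv
    rw [hv] at h ⊢
    obtain ⟨b1, -, -, -, -, b6⟩ := hBIL K
    apply (b6 a b v).2
    apply hT2F K hK
    have e1 := b1 a b v
    have e2 := two_mul_mem 2 (pf a v) (pf_mem a v)
    have e3 := Ideal.add_mem _ (Ideal.add_mem _ e1 h) e2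
    have e4 : pf a (b * v) - (pf a b + pf a v) + (pf a b - pf a v) + (pf a v + pf a v) =
        pf a (b * v) := by ring
    rwa [e4] at e3

end Pool.Agent.EWH
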