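import Pool.Agent.EWH.Stmts

/-!
# Squad EWH: module EVI (even forms modulo `I²`)
-/

set_option autoImplicit false

namespace Pool.Agent.EWH

open scoped BigOperators

namespace EVI_

variable {K : Type} [Field K]

theorem pf1_mul (a b : Kˣ) : pf1 (a * b) = pf1 a + pf1 b - pf a b := by
  unfold pf pf1
  rw [br_mul]
  ring

theorem key (n : ℕ) (a : Fin n → Kˣ) : ∑ i, pf1 (a i) - pf1 (∏ i, a i) ∈ (I K) ^ 2 := by
  induction n with
  | zero =>
    have : (pf1 (1 : Kˣ) : W K) = 0 := by unfold pf1; rw [br_one, sub_self]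
    simp [this]
  | succ n ih =>
    rw [Fin.sum_univ_succ, Fin.prod_univ_succ, pf1_mul]
    have h1 := ih fun i => a i.succ
    have h2 := pf_mem (a 0) (∏ i : Fin n, a i.succ)
    have : pf1 (a 0) + ∑ i : Fin n, pf1 (a i.succ) -
        (pf1 (a 0) + pf1 (∏ i : Fin n, a i.succ) - pf (a 0) (∏ i : Fin n, a i.succ)) =
        (∑ i : Fin n, pf1 (a i.succ) - pf1 (∏ i : Fin n, a i.succ)) +
        pf (a 0) (∏ i : Fin n, a i.succ) := by ring
    rw [this]
    exact Ideal.add_mem _ h1 h2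

end EVI_

theorem evi_proof : Stmt_EVI := by
  intro K _ m a
  have h := EVI_.key (2 * m) a
  have h1 := EVI_.key m (fun _ => (-1 : Kˣ))
  rw [Finset.sum_const, Finset.prod_const, Finset.card_univ, Fintype.card_fin,
    nsmul_eq_mul] at h1
  have h2 : ∑ i, pf1 (a i) = 2 * (m : W K) - ∑ i, br (a i) := by
    unfold pf1
    rw [Finset.sum_sub_distrib, Finset.sum_const, Finset.card_univ, Fintype.card_fin,
      nsmul_eq_mul, mul_one]
    push_cast
    ring
  rw [h2] at h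
  have h3 : pf1 ((-1) ^ m * ∏ i, a i) = pf1 ((-1) ^ m) + pf1 (∏ i, a i) -
      pf ((-1) ^ m) (∏ i, a i) := EVI_.pf1_mul _ _
  have h4 := pf_mem ((-1 : Kˣ) ^ m) (∏ i, a i)
  have h5 : pf1 (∏ i, a i) + pf1 (∏ i, a i) ∈ (I K) ^ 2 := by
    have h6 := two_mul_mem 1 (pf1 (∏ i, a i)) (by rw [pow_one]; exact pf1_mem _)
    exact h6
  have e : ∑ i, br (a i) - pf1 ((-1) ^ m * ∏ i, a i) =
      -(2 * (m : W K) - ∑ i, br (a i) - pf1 (∏ i, a i)) + ((m : W K) * pf1 (-1) - pf1 ((-1) ^ m)) +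
      pf ((-1) ^ m) (∏ i, a i) - (pf1 (∏ i, a i) + pf1 (∏ i, a i)) := by
    rw [h3, ← two_eq]
    ring
  rw [e]
  exact Ideal.sub_mem _ (Ideal.add_mem _ (Ideal.add_mem _ (Ideal.neg_mem_iff _ |>.2 h) h1) h4) h5

end Pool.Agent.EWH
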