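import Pool.Agent.EWH.Stmts

/-!
Squad EWH, module FIN: finiteness of the square classes of a quadratic extension.
-/

set_option autoImplicit false

namespace Pool.Agent.EWH

open scoped BigOperators
open Pool.Agent.EWG (Split SN osum ud OB VV vm iu QD sB vm_surj vm_mul vm_eq_iff)

namespace FIN_

variable {K : Type} [Field K]

/-- a representative of a square class -/
noncomputable def rep (u : VV K) : Kˣ := (vm_surj u).choose

theorem vm_rep (u : VV K) : vm (rep u) = u := (vm_surj u).choose_spec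

variable {F : Type} [Field F] [Algebra F K]

theorem vm_iu {f g : Fˣ} (h : vm f = vm g) : vm (iu F f : Kˣ) = vm (iu F g) := by
  rw [vm_eq_iff] at h ⊢
  obtain ⟨z, hz⟩ := h
  refine ⟨iu F z, ?_⟩
  unfold iu
  rw [← map_mul, ← map_mul, hz]

open Classical in
/-- an element of given norm class -/
noncomputable def wv (E : QD F K) (v : VV F) : Kˣ :=
  if h : ∃ w : Kˣ, vm (E.nm w) = v then h.choose else 1

theorem wv_spec (E : QD F K) (w : Kˣ) : vm (E.nm (wv E (vm (E.nm w)))) = vm (E.nm w) := by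
  have h : ∃ w' : Kˣ, vm (E.nm w') = vm (E.nm w) := ⟨w, rfl⟩
  unfold wv
  rw [dif_pos h]
  exact h.choose_spec

theorem fin_vv (hVKR : Stmt_VKR) (h : Two F) (hf : Finite (VV F)) (E : QD F K) :
    Finite (VV K) := by
  obtain ⟨hker, -, -⟩ := hVKR F K h E
  refine Finite.of_surjective
    (fun p : VV F × VV F => vm (wv E p.1) + vm (iu F (rep p.2) : Kˣ)) ?_
  intro x
  obtain ⟨w, rfl⟩ := vm_surj x
  have h1 : IsSquare (E.nm (wv E (vm (E.nm w)) * w)) := by
    rw [map_mul, ← vm_eq_iff]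
    exact wv_spec E w
  obtain ⟨f, hfs⟩ := (hker _).1 h1
  refine ⟨(vm (E.nm w), vm f), ?_⟩
  show vm (wv E (vm (E.nm w))) + vm (iu F (rep (vm f)) : Kˣ) = vm w
  rw [vm_iu (K := K) (vm_rep (vm f)), ← vm_mul, vm_eq_iff]
  have h2 : wv E (vm (E.nm w)) * iu F f * w = wv E (vm (E.nm w)) * w * iu F f := by
    rw [mul_assoc, mul_comm (iu F f) w, ← mul_assoc]
  rw [h2]
  exact hfs

end FIN_

open FIN_

theorem fin_proof (hVKR : Stmt_VKR) : Stmt_FIN := by
  intro F _ h hf K _ _ E
  exact fin_vv hVKR h hf E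

end Pool.Agent.EWH

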