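import Pool.Agent.EWH.Stmts

/-!
# The linear data of one quadratic extension of fields (general `Iⁿ`, arbitrary `-1`)

`FX E`: for a quadratic extension `E : QD F K`, the symbols `q`, `Q` of `F` and `K` with values in
`I²/I³`, restriction, norm, conjugation and corestriction as `F_2`-linear maps, with all the
axioms used in the descent; `fx_proof`: it exists.
-/

set_option autoImplicit false

namespace Pool.Agent.EWH

open scoped BigOperators
open Pool.Agent.EWG (Split SN osum ud OB VV vm iu QD sB vm_surj vm_mul vm_eq_iff vm_eq_zero vm_one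
  vm_add_self iu_coe)

/-- the linear data of a quadratic extension of fields -/
structure FX {F K : Type} [Field F] [Field K] [Algebra F K] (E : QD F K) where
  q : VV F →ₗ[ZMod 2] VV F →ₗ[ZMod 2] BQ F
  Q : VV K →ₗ[ZMod 2] VV K →ₗ[ZMod 2] BQ K
  res : VV F →ₗ[ZMod 2] VV K
  N : VV K →ₗ[ZMod 2] VV F
  σ : VV K →ₗ[ZMod 2] VV K
  rb : BQ F →ₗ[ZMod 2] BQ K
  cor : BQ K →ₗ[ZMod 2] BQ F
  sC : BQ K →ₗ[ZMod 2] BQ K
  q_vm : ∀ a b : Fˣ, q (vm a) (vm b) = sy a b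
  Q_vm : ∀ a b : Kˣ, Q (vm a) (vm b) = sy a b
  q_zero : ∀ a b : Fˣ, q (vm a) (vm b) = 0 ↔ pf a b = 0
  Q_zero : ∀ a b : Kˣ, Q (vm a) (vm b) = 0 ↔ pf a b = 0
  res_vm : ∀ a : Fˣ, res (vm a) = vm (iu F a)
  N_vm : ∀ w : Kˣ, N (vm w) = vm (E.nm w)
  σ_vm : ∀ w : Kˣ, σ (vm w) = vm (Units.map (E.σ : K →+* K).toMonoidHom w)
  q_symm : ∀ v w, q v w = q w v
  q_self : ∀ v, q v v = q v (vm (-1))
  q_link : ∀ a b c d, q a b = q c d → ∃ y, q a y = q a b ∧ q c y = q a b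
  q_span : ∀ b : BQ F, ∃ (n : ℕ) (v w : Fin n → VV F), b = ∑ i, q (v i) (w i)
  Q_symm : ∀ v w, Q v w = Q w v
  Q_self : ∀ v, Q v v = Q v (vm (-1))
  Q_link : ∀ a b c d, Q a b = Q c d → ∃ y, Q a y = Q a b ∧ Q c y = Q a b
  Q_span : ∀ b : BQ K, ∃ (n : ℕ) (v w : Fin n → VV K), b = ∑ i, Q (v i) (w i)
  rb_q : ∀ v w, rb (q v w) = Q (res v) (res w)
  sC_Q : ∀ w y, sC (Q w y) = Q (σ w) (σ y)
  cor_Q : ∀ w v, cor (Q w (res v)) = q (N w) v
  cor_rb : ∀ b, cor (rb b) = 0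
  rb_cor : ∀ c, rb (cor c) = c + sC c
  cor_sC : ∀ c, cor (sC c) = cor c
  sC_sC : ∀ c, sC (sC c) = c
  res_N : ∀ w, res (N w) = w + σ w
  N_res : ∀ v, N (res v) = 0
  σ_σ : ∀ w, σ (σ w) = w
  N_σ : ∀ w, N (σ w) = N w
  σ_res : ∀ v, σ (res v) = res v
  ker_res : ∀ v, res v = 0 ↔ v = 0 ∨ v = vm E.x
  ker_N : ∀ w, N w = 0 ↔ ∃ v, res v = w
  im_N : ∀ v, q (vm E.x) v = 0 ↔ ∃ w, N w = v
  F3 : ∀ v u, Q (res v) (res u) = 0 ↔ ∃ z, q v u = q (vm E.x) z
  F4 : ∀ v z, q v (N z) = 0 → ∃ f, Q (res v) (z + res f) = 0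
  F5 : ∀ w y, ∃ b c, Q (w + res b) (y + res c) = 0
  F6 : ∀ u v y z w, Q (res u) (res v) = Q y z → Q w y = 0 →
    ∃ y' v', q u v = q y' v' ∧ q y' (N w) = 0
  alb : ∀ w y, cor (Q w y) = 0 → ∃ f g, Q w y = Q (res f) (res g)

namespace FX_

/-- the linear map on square classes of a homomorphism of unit groups -/
noncomputable def lin {A B : Type} [Field A] [Field B] (g : Aˣ →* Bˣ) : VV A →ₗ[ZMod 2] VV B :=
  AddMonoidHom.toZModLinearMap 2
    (MonoidHom.toAdditive (QuotientGroup.map (powMonoidHom 2 : Aˣ →* Aˣ).range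
      (powMonoidHom 2 : Bˣ →* Bˣ).range g (by
        rintro _ ⟨z, rfl⟩
        exact ⟨g z, by simp⟩)) : VV A →+ VV B)

theorem lin_vm {A B : Type} [Field A] [Field B] (g : Aˣ →* Bˣ) (a : Aˣ) :
    lin g (vm a) = vm (g a) := rfl

/-- a linear map between the spaces `I²/I³` -/
theorem linBQ {A B : Type} [Field A] [Field B] (g : W A →+ W B)
    (h2 : ∀ b ∈ (I A) ^ 2, g b ∈ (I B) ^ 2) (h3 : ∀ b ∈ (I A) ^ 3, g b ∈ (I B) ^ 3) :
    ∃ f : BQ A →ₗ[ZMod 2] BQ B, ∀ c : ↥((I A) ^ 2), f (cl c) = cl ⟨g c, h2 c c.2⟩ := by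
  choose r hr using fun b : BQ A => cl_surj b
  have key : ∀ c d : ↥((I A) ^ 2), cl c = cl d →
      (cl ⟨g c, h2 c c.2⟩ : BQ B) = cl ⟨g d, h2 d d.2⟩ := by
    intro c d h
    rw [cl_eq_iff] at h ⊢
    have := h3 _ h
    rwa [map_sub] at this
  let f : BQ A →+ BQ B := AddMonoidHom.mk' (fun b => cl ⟨g (r b), h2 _ (r b).2⟩) (by
    intro b b'
    show (cl ⟨g (r (b + b')), _⟩ : BQ B) = cl ⟨g (r b), _⟩ + cl ⟨g (r b'), _⟩
    rw [← cl_add]
    have e := key (r (b + b')) (r b + r b') (by rw [hr, cl_add, hr, hr])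
    rw [e]
    congr 1
    apply Subtype.ext
    show g ((r b + r b' : ↥((I A) ^ 2)) : W A) = g (r b) + g (r b')
    rw [Submodule.coe_add, map_add])
  exact ⟨f.toZModLinearMap 2, fun c => key _ _ (hr (cl c))⟩

theorem map_pf {A B : Type} [Field A] [Field B] (f : A →+* B) (g : W A →+* W B) (hg : IsMap f g)
    (a b : Aˣ) : g (pf a b) = pf (Units.map f.toMonoidHom a) (Units.map f.toMonoidHom b) := by
  unfold pf pf1
  rw [map_mul, map_sub, map_sub, map_one, hg a, hg b]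

theorem σσ {F K : Type} [Field F] [Field K] [Algebra F K] (E : QD F K) (w : K) :
    E.σ (E.σ w) = w := by
  have h1 : ∀ w : K, E.σ w = algebraMap F K (E.t w) + algebraMap F K (E.s w) * (-(E.θ : K)) := by
    intro w
    conv_lhs => rw [E.dec w]
    rw [map_add, map_mul, E.σθ, AlgEquiv.commutes, AlgEquiv.commutes]
  conv_lhs => rw [h1 w]
  rw [map_add, map_mul, map_neg, E.σθ, AlgEquiv.commutes, AlgEquiv.commutes, neg_neg]
  exact (E.dec w).symm

theorem cl_congr {A : Type} [Field A] {c d : W A} (hc : c ∈ (I A) ^ 2) (hd : d ∈ (I A) ^ 2)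
    (h : c = d) : (cl ⟨c, hc⟩ : BQ A) = cl ⟨d, hd⟩ := by subst h; rfl

end FX_

open FX_ in
/-- THE LINEAR DATA EXISTS -/
theorem fx_proof (_hREL : Stmt_REL) (hSLK : Stmt_SLK) (hBIL : Stmt_BIL) (hMAP : Stmt_MAP)
    (hRTQ : Stmt_RTQ) (hTRN : Stmt_TRN) (hTPF : Stmt_TPF) (hRTD : Stmt_RTD) (hNPR : Stmt_NPR)
    (hNP3 : Stmt_NP3) (hKRS : Stmt_KRS) (hVKR : Stmt_VKR) (hALB : Stmt_ALB) (hQBL : Stmt_QBL)
    (F K : Type) [Field F] [Field K] [Algebra F K] (gF : Two F) (E : QD F K) :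
    Nonempty (FX E) := by
  have gK : Two K := Two.map (algebraMap F K) gF
  obtain ⟨q, hq, hqs, hqe, hqi, hqz, hql, hqsp⟩ := hQBL F gF
  obtain ⟨Q, hQ, hQs, hQe, hQi, hQz, hQl, hQsp⟩ := hQBL K gK
  obtain ⟨gr, hgr, hrs⟩ := hMAP F K (algebraMap F K)
  obtain ⟨gs, hgs, hcj⟩ := hMAP K K (E.σ : K →+* K)
  have hrs' : ∀ c, gr c = rs F K c := fun c => (hrs c).symm
  have hcj' : ∀ c, gs c = cj E c := fun c => (hcj c).symm
  have hT := hTRN F K gF E
  obtain ⟨hR1, hR2, hR3, hR4⟩ := hRTQ F K gF E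
  obtain ⟨hV1, hV2, hV3⟩ := hVKR F K gF E
  let res : VV F →ₗ[ZMod 2] VV K := lin (Units.map (algebraMap F K).toMonoidHom)
  let N : VV K →ₗ[ZMod 2] VV F := lin E.nm
  let sg : VV K →ₗ[ZMod 2] VV K := lin (Units.map (E.σ : K →+* K).toMonoidHom)
  obtain ⟨rb, hrb⟩ := linBQ (gr : W F →+ W K)
    (fun b hb => by have := (hT 2).2.1 b hb; rw [← hrs'] at this; exact this)
    (fun b hb => by have := (hT 3).2.1 b hb; rw [← hrs'] at this; exact this)
  obtain ⟨cor, hcor⟩ := linBQ (tr E) (hT 2).1 (hT 3).1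
  obtain ⟨sC, hsC⟩ := linBQ (gs : W K →+ W K)
    (fun b hb => by have := (hT 2).2.2 b hb; rw [← hcj'] at this; exact this)
    (fun b hb => by have := (hT 3).2.2 b hb; rw [← hcj'] at this; exact this)
  have eres : ∀ a : Fˣ, res (vm a) = vm (iu F a) := fun a => rfl
  have eN : ∀ w : Kˣ, N (vm w) = vm (E.nm w) := fun w => rfl
  have esg : ∀ w : Kˣ, sg (vm w) = vm (Units.map (E.σ : K →+* K).toMonoidHom w) := fun w => rfl
  have hrpf : ∀ a b : Fˣ, gr (pf a b) = pf (iu F a) (iu F b) := by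
    intro a b
    rw [map_pf (algebraMap F K) gr hgr a b]
    rfl
  have hspf : ∀ a b : Kˣ, gs (pf a b) = pf (Units.map (E.σ : K →+* K).toMonoidHom a)
      (Units.map (E.σ : K →+* K).toMonoidHom b) := fun a b => map_pf (E.σ : K →+* K) gs hgs a b
  have hproj : ∀ w v, cor (Q w (res v)) = q (N w) v := by
    intro w v
    obtain ⟨a, rfl⟩ := vm_surj v
    obtain ⟨b, rfl⟩ := vm_surj w
    rw [hQs, eres, hQ, eN, hq]
    have h1 : cor (sy (iu F a) b) = cl ⟨tr E (pf (iu F a) b), (hT 2).1 _ (pf_mem _ _)⟩ :=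
      hcor ⟨pf (iu F a) b, pf_mem _ _⟩
    rw [h1]
    show _ = cl ⟨pf (E.nm b) a, pf_mem _ _⟩
    rw [cl_eq_iff]
    have := hTPF F K gF E a b
    rw [pf_comm a] at this
    exact this
  have hresN : ∀ w, res (N w) = w + sg w := by
    intro w
    obtain ⟨a, rfl⟩ := vm_surj w
    rw [eN, eres, esg, ← vm_mul]
    congr 1
    apply Units.ext
    rw [iu_coe, E.nmσ]
    rfl
  have hsgres : ∀ v, sg (res v) = res v := by
    intro v
    obtain ⟨a, rfl⟩ := vm_surj v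
    rw [eres, esg]
    congr 1
    apply Units.ext
    show E.σ (algebraMap F K a) = algebraMap F K a
    exact E.σ.commutes _
  have hsgsg : ∀ w, sg (sg w) = w := by
    intro v
    obtain ⟨a, rfl⟩ := vm_surj v
    rw [esg, esg]
    congr 1
    apply Units.ext
    exact FX_.σσ E a
  have hrbcor : ∀ c, rb (cor c) = c + sC c := by
    intro c
    obtain ⟨c, rfl⟩ := cl_surj c
    rw [hcor, hrb, hsC, ← cl_add]
    rw [cl_eq_iff]
    show gr (tr E c) - ((c : W K) + gs c) ∈ (I K) ^ 3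
    have h2θ : (2 * (E.θ : K)) ≠ 0 := mul_ne_zero gK E.θ.ne_zero
    have h := hR1 (Units.mk0 _ h2θ) c rfl
    rw [hrs', h, hcj']
    have hc := c.2
    have hc' := (hT 2).2.2 c hc
    have b3 := (hBIL K).2.2.1 (Units.mk0 _ h2θ) 2 (c - cj E c) (Ideal.sub_mem _ hc hc')
    have e : br (Units.mk0 _ h2θ) * ((c : W K) - cj E c) - ((c : W K) + cj E c) =
        (br (Units.mk0 _ h2θ) * ((c : W K) - cj E c) - ((c : W K) - cj E c)) -
          (cj E c + cj E c) := by ring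
    rw [e]
    exact Ideal.sub_mem _ b3 (two_mul_mem 2 _ hc')
  have hsCQ : ∀ w y, sC (Q w y) = Q (sg w) (sg y) := by
    intro w y
    obtain ⟨a, rfl⟩ := vm_surj w
    obtain ⟨b, rfl⟩ := vm_surj y
    rw [esg, esg, hQ, hQ]
    show sC (cl ⟨pf a b, pf_mem _ _⟩) = _
    rw [hsC]
    exact cl_congr _ _ (hspf a b)
  have hsCsC : ∀ c, sC (sC c) = c := by
    intro c
    obtain ⟨c, rfl⟩ := cl_surj c
    rw [hsC, hsC]
    refine cl_congr _ _ ?_
    show gs (gs c) = c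
    rw [hcj', hcj', hR4]
  have hrbq : ∀ v w, rb (q v w) = Q (res v) (res w) := by
    intro v w
    obtain ⟨a, rfl⟩ := vm_surj v
    obtain ⟨b, rfl⟩ := vm_surj w
    rw [eres, eres, hq, hQ]
    show rb (cl ⟨pf a b, pf_mem _ _⟩) = _
    rw [hrb]
    exact cl_congr _ _ (hrpf a b)
  have hcorrb : ∀ b, cor (rb b) = 0 := by
    intro b
    obtain ⟨b, rfl⟩ := cl_surj b
    rw [hrb, hcor, cl_eq_zero]
    show tr E (gr b) ∈ (I F) ^ 3
    rw [hrs', hR2]
    exact Ideal.zero_mem _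
  have hRT : ∀ w y, ∃ b c, Q (w + res b) (y + res c) = 0 := by
    intro w y
    obtain ⟨w, rfl⟩ := vm_surj w
    obtain ⟨y, rfl⟩ := vm_surj y
    obtain ⟨b, c, h⟩ := hRTD F K gF E w y
    refine ⟨vm b, vm c, ?_⟩
    rw [eres, eres, ← vm_mul, ← vm_mul, hQz, mul_comm w, mul_comm y]
    exact h
  have hNsg : ∀ w, N (sg w) = N w := by
    intro w
    have h1 : res (N (sg w)) = res (N w) := by
      rw [hresN, hresN, hsgsg, add_comm]
    obtain ⟨a, rfl⟩ := vm_surj w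
    rw [esg, eN, eN]
    congr 1
    apply Units.ext
    apply (algebraMap F K).injective
    rw [E.nmσ, E.nmσ]
    show E.σ a * E.σ (E.σ a) = a * E.σ a
    rw [FX_.σσ, mul_comm]
  have hNres : ∀ v, N (res v) = 0 := by
    intro v
    obtain ⟨a, rfl⟩ := vm_surj v
    rw [eres, eN, vm_eq_zero]
    refine ⟨a, Units.ext ?_⟩
    apply (algebraMap F K).injective
    rw [E.nmσ, iu_coe, E.σ.commutes, Units.val_mul, map_mul]
  -- corestriction of a symbol
  have hcorsym : ∀ w y, ∃ b c, cor (Q w y) = q (N w) c + q (N y) b ∧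
      Q w y = Q (res b) (res c) + Q w (res c) + Q y (res b) := by
    intro w y
    obtain ⟨b, c, h⟩ := hRT w y
    refine ⟨b, c, ?_⟩
    have h2 : Q w y = Q (res b) (res c) + Q w (res c) + Q y (res b) := by
      rw [map_add, map_add, LinearMap.add_apply, LinearMap.add_apply] at h
      have e1 : Q w y + (Q (res b) y + (Q w (res c) + Q (res b) (res c))) = 0 := by
        rw [← h]; abel
      have e2 := eq_neg_of_add_eq_zero_left e1
      have e3 : ∀ z : BQ K, -z = z := fun z => neg_eq_of_add_eq_zero_left (bq_add_self z)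
      rw [e2, e3, hQs (res b) y]
      abel
    refine ⟨?_, h2⟩
    rw [h2, map_add, map_add, ← hrbq, hcorrb, zero_add, hproj, hproj]
  refine ⟨{ q := q, Q := Q, res := res, N := N, σ := sg, rb := rb, cor := cor, sC := sC,
            q_vm := hq, Q_vm := hQ, q_zero := hqz, Q_zero := hQz, res_vm := eres, N_vm := eN,
            σ_vm := esg, q_symm := hqs, q_self := hqe, q_link := hql, q_span := hqsp,
            Q_symm := hQs, Q_self := hQe, Q_link := hQl, Q_span := hQsp, rb_q := hrbq,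
            sC_Q := hsCQ, cor_Q := hproj, cor_rb := hcorrb, rb_cor := hrbcor, cor_sC := ?_,
            sC_sC := hsCsC, res_N := hresN, N_res := hNres, σ_σ := hsgsg, N_σ := hNsg,
            σ_res := hsgres, ker_res := ?_, ker_N := ?_, im_N := ?_, F3 := ?_, F4 := ?_,
            F5 := hRT, F6 := ?_, alb := ?_ }⟩
  · intro c
    obtain ⟨n, v, w, rfl⟩ := hQsp c
    rw [map_sum, map_sum, map_sum]
    refine Finset.sum_congr rfl fun i _ => ?_
    rw [hsCQ]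
    obtain ⟨b, c, h1, h2⟩ := hcorsym (v i) (w i)
    rw [h1]
    have h3 : Q (sg (v i)) (sg (w i)) = Q (res b) (res c) + Q (sg (v i)) (res c) +
        Q (sg (w i)) (res b) := by
      rw [← hsCQ, h2, map_add, map_add, hsCQ, hsCQ, hsCQ, hsgres, hsgres]
    rw [h3, map_add, map_add, ← hrbq, hcorrb, zero_add, hproj, hproj, hNsg, hNsg]
  · intro v
    obtain ⟨a, rfl⟩ := vm_surj v
    rw [eres, vm_eq_zero, hV2, vm_eq_zero, vm_eq_iff]
  · intro w
    obtain ⟨w, rfl⟩ := vm_surj w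
    rw [eN, vm_eq_zero, hV1]
    constructor
    · rintro ⟨f, hf⟩
      refine ⟨vm f, ?_⟩
      rw [eres, vm_eq_iff, mul_comm]
      exact hf
    · rintro ⟨v, hv⟩
      obtain ⟨f, rfl⟩ := vm_surj v
      rw [eres, vm_eq_iff, mul_comm] at hv
      exact ⟨f, hv⟩
  · intro v
    obtain ⟨b, rfl⟩ := vm_surj v
    rw [hqz]
    constructor
    · intro h
      obtain ⟨w, hw⟩ := (hV3 b).1 h
      exact ⟨vm w, by rw [eN, hw]⟩
    · rintro ⟨w, hw⟩
      obtain ⟨w, rfl⟩ := vm_surj w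
      rw [eN] at hw
      rw [← hqz, ← hw, hqz]
      exact (hV3 (E.nm w)).2 ⟨w, rfl⟩
  · intro v u
    obtain ⟨a, rfl⟩ := vm_surj v
    obtain ⟨b, rfl⟩ := vm_surj u
    rw [eres, eres, hQz, hKRS F K gF E a b]
    constructor
    · rintro ⟨z, hz⟩
      exact ⟨vm z, (hqi _ _ _ _).2 hz⟩
    · rintro ⟨z, hz⟩
      obtain ⟨z, rfl⟩ := vm_surj z
      exact ⟨z, (hqi _ _ _ _).1 hz⟩
  · intro v z h
    obtain ⟨v, rfl⟩ := vm_surj v
    obtain ⟨z, rfl⟩ := vm_surj z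
    rw [eN, hqz] at h
    obtain ⟨f, hf⟩ := hNPR F K gF E v z h
    refine ⟨vm f, ?_⟩
    have h1 : Q (vm (iu F v)) (vm z) = Q (vm (iu F v)) (vm (iu F f)) := (hQi _ _ _ _).2 hf
    rw [map_add, eres, eres, h1, bq_add_self]
  · intro u v y z w h1 h2
    obtain ⟨u, rfl⟩ := vm_surj u
    obtain ⟨v, rfl⟩ := vm_surj v
    obtain ⟨y, rfl⟩ := vm_surj y
    obtain ⟨z, rfl⟩ := vm_surj z
    obtain ⟨w, rfl⟩ := vm_surj w
    rw [eres, eres, hQi] at h1
    rw [hQz] at h2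
    have h3 : pf3 (iu F u) (iu F v) w = 0 := by
      have e1 : pf3 (iu F u) (iu F v) w = pf (iu F u) (iu F v) * pf1 w := rfl
      rw [e1, h1]
      unfold pf at h2 ⊢
      linear_combination (pf1 z) * h2
    have h4 := hNP3 F K gF E u v w h3
    obtain ⟨a', b', h5, h6⟩ := hSLK F gF u v (E.nm w) h4
    refine ⟨vm a', vm b', (hqi _ _ _ _).2 h5, ?_⟩
    rw [eN, hqz, pf_comm]
    exact h6
  · intro w y h
    obtain ⟨w, rfl⟩ := vm_surj w
    obtain ⟨y, rfl⟩ := vm_surj y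
    rw [hQ] at h
    have h1 : cor (sy w y) = cl ⟨tr E (pf w y), (hT 2).1 _ (pf_mem _ _)⟩ :=
      hcor ⟨pf w y, pf_mem _ _⟩
    rw [h1, cl_eq_zero] at h
    obtain ⟨f, g, hfg⟩ := hALB F K gF E w y h
    refine ⟨vm f, vm g, ?_⟩
    rw [eres, eres]
    exact (hQi _ _ _ _).2 hfg

end Pool.Agent.EWH
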