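import Pool.Agent.EWH.Stmts

/-!
# Squad EWH: module IM2 (`I` modulo `I²`)
-/

set_option autoImplicit false

namespace Pool.Agent.EWH

theorem im2_proof (hSUR : Stmt_SUR) (hAUG : Stmt_AUG) (hEVI : Stmt_EVI) : Stmt_IM2 := by
  intro K _ hK c hc
  obtain ⟨n, a, rfl⟩ := hSUR K c
  obtain ⟨ε, h1, h2⟩ := hAUG K hK
  have := (h2 _).2 hc
  rw [map_sum, Finset.sum_congr rfl (fun i _ => h1 (a i)), Finset.sum_const, Finset.card_univ,
    Fintype.card_fin, nsmul_eq_mul, mul_one] at this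
  obtain ⟨m, rfl⟩ := even_iff_two_dvd.1 ((ZMod.natCast_eq_zero_iff_even).1 this)
  exact ⟨_, hEVI K m a⟩

end Pool.Agent.EWH
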