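import Pool.Agent.EWH.Stmts

set_option autoImplicit false

namespace Pool.Agent.EWH

namespace ISO_

open scoped BigOperators
open Pool.Agent.EWG (ud ud_apply OB)

variable {K : Type} [Field K]

def Eqv (f g : Fin 4 → Kˣ) : Prop :=
  ∃ e : (Fin 4 → K) ≃ₗ[K] (Fin 4 → K), ∀ x y, ud g (e x) (e y) = ud f x y

theorem Eqv.trans {f g h : Fin 4 → Kˣ} (h1 : Eqv f g) (h2 : Eqv g h) : Eqv f h := by
  obtain ⟨e, he⟩ := h1
  obtain ⟨e', he'⟩ := h2
  exact ⟨e.trans e', fun x y => by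
    rw [LinearEquiv.trans_apply, LinearEquiv.trans_apply, he', he]⟩

/-- exchange of the two slots -/
theorem swap (a b : Kˣ) : Eqv ![1, -a, -b, a * b] ![1, -b, -a, b * a] := by
  refine ⟨LinearEquiv.funCongrLeft K K (Equiv.swap (1 : Fin 4) 2), fun x y => ?_⟩
  have h0 : Equiv.swap (1 : Fin 4) 2 0 = 0 := by decide
  have h1 : Equiv.swap (1 : Fin 4) 2 1 = 2 := by decide
  have h2 : Equiv.swap (1 : Fin 4) 2 2 = 1 := by decide
  have h3 : Equiv.swap (1 : Fin 4) 2 3 = 3 := by decide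
  simp only [ud_apply, Fin.sum_univ_four, LinearEquiv.funCongrLeft_apply, LinearMap.funLeft_apply,
    h0, h1, h2, h3]
  simp
  ring

/-- the linear map of a multiplier -/
def mulMap (a p q : K) : (Fin 4 → K) →ₗ[K] (Fin 4 → K) where
  toFun x := ![x 0, x 1, p * x 2 + a * q * x 3, q * x 2 + p * x 3]
  map_add' x y := by
    ext i
    fin_cases i <;> simp <;> ring
  map_smul' r x := by
    ext i
    fin_cases i <;> simp <;> ring

theorem mul_inv (a p q m : K) (hm : m * (p ^ 2 - a * q ^ 2) = 1) (x : Fin 4 → K) :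
    mulMap a (m * p) (-(m * q)) (mulMap a p q x) = x := by
  ext i
  fin_cases i
  · simp [mulMap]
  · simp [mulMap]
  · simp [mulMap]
    linear_combination (x 2) * hm
  · simp [mulMap]
    linear_combination (x 3) * hm

theorem mul_inv' (a p q m : K) (hm : m * (p ^ 2 - a * q ^ 2) = 1) (x : Fin 4 → K) :
    mulMap a p q (mulMap a (m * p) (-(m * q)) x) = x := by
  ext i
  fin_cases i
  · simp [mulMap]
  · simp [mulMap]
  · simp [mulMap]
    linear_combination (x 2) * hm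
  · simp [mulMap]
    linear_combination (x 3) * hm

/-- change of one slot -/
theorem slot (a b x : Kˣ) (p q : K) (h : (b : K) = x * (p ^ 2 - a * q ^ 2)) :
    Eqv ![1, -a, -b, a * b] ![1, -a, -x, a * x] := by
  have hm : (x : K) * (b⁻¹ : Kˣ) * (p ^ 2 - a * q ^ 2) = 1 := by
    calc (x : K) * (b⁻¹ : Kˣ) * (p ^ 2 - a * q ^ 2) = (b⁻¹ : Kˣ) * (x * (p ^ 2 - a * q ^ 2)) := by ring
      _ = 1 := by rw [← h, Units.inv_mul]
  refine ⟨LinearEquiv.ofLinear (mulMap (a : K) p q)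
    (mulMap (a : K) ((x : K) * (b⁻¹ : Kˣ) * p) (-((x : K) * (b⁻¹ : Kˣ) * q)))
    (LinearMap.ext fun z => mul_inv' _ p q _ hm z) (LinearMap.ext fun z => mul_inv _ p q _ hm z),
    fun z w => ?_⟩
  rw [LinearEquiv.ofLinear_apply, LinearEquiv.ofLinear_apply]
  simp [ud_apply, Fin.sum_univ_four, mulMap]
  linear_combination (-(z 2 * w 2) + (a : K) * (z 3 * w 3)) * (-h)

theorem slot' (hK : Two K) (hREL : Stmt_REL) (hPFZ : Stmt_PFZ) (a b x : Kˣ)
    (h : pf a x = pf a b) : Eqv ![1, -a, -b, a * b] ![1, -a, -x, a * x] := by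
  obtain ⟨-, -, hsq, -⟩ := hREL K hK
  have hb : br b * br b = (1 : W K) := by
    have := hsq 1 b
    rw [one_mul, pow_two, br_mul, br_one] at this
    exact this
  have h0 : pf a (b * x) = 0 := by
    have e1 : pf a (b * x) = br b * (pf a x - pf a b) := by
      unfold pf pf1
      rw [br_mul]
      linear_combination (-(1 - br a)) * hb
    rw [e1, h, sub_self, mul_zero]
  obtain ⟨s, t, hst⟩ := (hPFZ K hK a (b * x)).1 h0
  have hx : (x : K) * (x⁻¹ : Kˣ) = 1 := Units.mul_inv x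
  rw [Units.val_mul] at hst
  refine slot a b x (s * (x⁻¹ : Kˣ)) (t * (x⁻¹ : Kˣ)) ?_
  calc (b : K) = (b * x) * (x⁻¹ : Kˣ) * (x * (x⁻¹ : Kˣ)) := by rw [hx]; linear_combination (-(b : K)) * hx
    _ = (s ^ 2 - a * t ^ 2) * (x⁻¹ : Kˣ) * (x * (x⁻¹ : Kˣ)) := by rw [hst]
    _ = x * ((s * (x⁻¹ : Kˣ)) ^ 2 - a * (t * (x⁻¹ : Kˣ)) ^ 2) := by ring

theorem sum_eq (a b : Kˣ) :
    ∑ i, br ((![1, -a, -b, a * b] : Fin 4 → Kˣ) i) = pf a b := by
  rw [Fin.sum_univ_four]
  simp only [Matrix.cons_val_zero, Matrix.cons_val_one, Matrix.cons_val]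
  rw [br_neg, br_neg, br_mul, br_one]
  unfold pf pf1
  ring

theorem ob_std (a : Fin 4 → Kˣ) : OB (ud a) (Pi.basisFun K (Fin 4)) a := by
  classical
  constructor
  · intro i j hij
    rw [ud_apply]
    refine Finset.sum_eq_zero fun k _ => ?_
    rw [Pi.basisFun_apply, Pi.basisFun_apply]
    by_cases hk : k = i
    · subst hk
      rw [Pi.single_eq_of_ne hij, mul_zero]
    · rw [Pi.single_eq_of_ne hk, mul_zero, zero_mul]
  · intro i
    rw [ud_apply, Finset.sum_eq_single i]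
    · rw [Pi.basisFun_apply, Pi.single_eq_same, mul_one, mul_one]
    · intro k _ hk
      rw [Pi.basisFun_apply, Pi.single_eq_of_ne hk, mul_zero]
    · intro h
      exact absurd (Finset.mem_univ i) h

end ISO_

open Pool.Agent.EWG (ud ud_apply OB) in
open ISO_ in
theorem iso_proof (hREL : Stmt_REL) (hCLQ : Stmt_CLQ) (hPFZ : Stmt_PFZ) (hLNK : Stmt_LNK) :
    Stmt_ISO := by
  intro K _ hK a b c d
  constructor
  · intro h
    obtain ⟨x, h1, h2⟩ := hLNK K hK a b c d h
    have e1 : Eqv ![1, -a, -b, a * b] ![1, -a, -x, a * x] := slot' hK hREL hPFZ a b x h1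
    have e2 : Eqv ![1, -a, -x, a * x] ![1, -x, -a, x * a] := swap a x
    have e3 : Eqv ![1, -x, -a, x * a] ![1, -x, -c, x * c] :=
      slot' hK hREL hPFZ x a c (by rw [pf_comm x c, pf_comm x a, h2, h1])
    have e4 : Eqv ![1, -x, -c, x * c] ![1, -c, -x, c * x] := swap x c
    have e5 : Eqv ![1, -c, -x, c * x] ![1, -c, -d, c * d] :=
      slot' hK hREL hPFZ c x d (by rw [h2, h])
    exact (((e1.trans e2).trans e3).trans e4).trans e5
  · rintro ⟨e, he⟩
    have h1 := ob_std (![1, -a, -b, a * b] : Fin 4 → Kˣ)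
    have h2 := ob_std (![1, -c, -d, c * d] : Fin 4 → Kˣ)
    have h3 : OB (ud ![1, -c, -d, c * d]) ((Pi.basisFun K (Fin 4)).map e) ![1, -a, -b, a * b] := by
      constructor
      · intro i j hij
        rw [Module.Basis.map_apply, Module.Basis.map_apply, he]
        exact h1.1 i j hij
      · intro i
        rw [Module.Basis.map_apply, he]
        exact h1.2 i
    have h4 := hCLQ K (Fin 4 → K) hK (Fin 4) (Fin 4) (ud ![1, -c, -d, c * d]) _ _ _ _ h3 h2
    rw [sum_eq, sum_eq] at h4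
    exact h4

end Pool.Agent.EWH
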