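import Pool.Agent.EWH.Stmts

/-!
Module KRS: kernel of the restriction on symbols.
-/

set_option autoImplicit false

namespace Pool.Agent.EWH

open scoped BigOperators
open Pool.Agent.EWG (Split SN osum ud OB VV vm iu QD sB ud_apply iu_coe)

namespace KRS_

theorem pf_one {K : Type} [Field K] (a : Kˣ) : pf a (1 : Kˣ) = 0 := by
  unfold pf pf1
  rw [br_one, sub_self, mul_zero]

end KRS_

open KRS_

theorem krs_proof (hSDD : Stmt_SDD) (hWZ : Stmt_WZ) (hSP2 : Stmt_SP2) (hREL : Stmt_REL)
    (hMAP : Stmt_MAP) (hPFI : Stmt_PFI) : Stmt_KRS := by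
  intro F K _ _ _ hF E a b
  have hK : Two K := Two.map (algebraMap F K) hF
  have hθ : (E.θ : K) ^ 2 = algebraMap F K E.x := E.sq
  constructor
  · intro h
    obtain ⟨z, hz0, hz⟩ := ((hPFI K hK (iu F a) (iu F b) 1).2.1).1 h
    obtain ⟨hr1, hr2, hr3, hr4⟩ := hREL F hF
    set u : Fin 3 → F := fun j => E.t (z j) with hu
    set v : Fin 3 → F := fun j => E.s (z j) with hv
    have hzd : ∀ j, z j = algebraMap F K (u j) + algebraMap F K (v j) * E.θ := fun j => E.dec (z j)
    set B := ud (K := F) ![a, b, -(a * b)] with hB
    have hBe : ∀ p r : Fin 3 → F, B p r = a * p 0 * r 0 + b * p 1 * r 1 + -(a * b) * p 2 * r 2 := by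
      intro p r
      rw [hB, ud_apply]
      refine (Fin.sum_univ_three _).trans ?_
      simp
    have hz' : algebraMap F K (a : F) * z 0 * z 0 + algebraMap F K (b : F) * z 1 * z 1
        + -(algebraMap F K (a : F) * algebraMap F K (b : F)) * z 2 * z 2 = 0 := by
      rw [ud_apply] at hz
      refine Eq.trans ?_ hz
      symm
      refine (Fin.sum_univ_three _).trans ?_
      simp
    have key : algebraMap F K (B u u + E.x * B v v) + algebraMap F K (2 * B u v) * E.θ = 0 := by
      rw [← hz', hBe, hBe, hBe, hzd 0, hzd 1, hzd 2]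
      simp only [map_add, map_mul, map_neg, map_ofNat]
      linear_combination (-(algebraMap F K (a : F) * algebraMap F K (v 0) * algebraMap F K (v 0)
        + algebraMap F K (b : F) * algebraMap F K (v 1) * algebraMap F K (v 1)
        + -(algebraMap F K (a : F) * algebraMap F K (b : F)) * algebraMap F K (v 2) * algebraMap F K (v 2))) * hθ
    have e1 : B u u = -(E.x * B v v) := by
      have := congrArg E.t key
      rw [map_add, E.t1, E.tθ, add_zero, map_zero] at this
      exact eq_neg_of_add_eq_zero_left this
    have e2 : B v u = 0 := by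
      have := congrArg E.s key
      rw [map_add, E.s1, E.sθ, zero_add, map_zero] at this
      rcases mul_eq_zero.1 this with h2 | h2
      · exact absurd h2 hF
      · rw [hBe] at h2 ⊢
        linear_combination h2
    by_cases hd : B v v = 0
    · -- isotropic over `F`
      have h0 : pf a b = 0 := by
        by_cases hv0 : v = 0
        · have hu0 : u ≠ 0 := by
            intro hu0
            apply hz0
            funext j
            rw [hzd j, hu0, hv0]
            simp
          refine ((hPFI F hF a b 1).2.1).2 ⟨u, hu0, ?_⟩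
          rw [hd, mul_zero, neg_zero] at e1
          exact e1
        · exact ((hPFI F hF a b 1).2.1).2 ⟨v, hv0, hd⟩
      exact ⟨1, by rw [h0, pf_one]⟩
    · set d : Fˣ := Units.mk0 _ hd with hdd
      obtain ⟨a', ha'⟩ := hSP2 F hF 1 ![a, b, -(a * b)] v u d (-(E.x * d)) rfl
        (by rw [← hB, e1]; rfl) e2
      set e : Fˣ := a' 0 with he
      have h6 : br a + br b - br a * br b = br d - br E.x * br d + br e := by
        have h7 : ∑ j, br ((![a, b, -(a * b)] : Fin 3 → Fˣ) j) = br a + br b - br a * br b := by
          rw [Fin.sum_univ_three]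
          simp only [Matrix.cons_val_zero, Matrix.cons_val_one, Matrix.cons_val, br_neg, br_mul]
          ring
        rw [← h7]
        refine ha'.trans ?_
        rw [br_neg, br_mul]
        simp [he]
        ring
      have hsq : IsSquare (e * E.x) := by
        have h8 : ∑ j, br ((![d, -(E.x * d), e, -a, -b, a * b] : Fin 6 → Fˣ) j) = (0 : W F) := by
          rw [Fin.sum_univ_six]
          simp only [Matrix.cons_val_zero, Matrix.cons_val_one, Matrix.cons_val, br_neg, br_mul]
          linear_combination -h6
        obtain ⟨m, hm, h9⟩ := hSDD F hF 6 _ ((hWZ F hF (Fin 6) _).1 h8)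
        obtain rfl : m = 3 := by omega
        rw [Fin.prod_univ_six] at h9
        simp only [Matrix.cons_val_zero, Matrix.cons_val_one, Matrix.cons_val] at h9
        obtain ⟨y, hy⟩ := h9
        refine ⟨y * (d * a * b)⁻¹, ?_⟩
        have h20 : ((-1 : Fˣ) ^ 3 * (d * -(E.x * d) * e * -a * -b * (a * b))) =
            (e * E.x) * ((d * a * b) * (d * a * b)) := by
          apply Units.ext
          push_cast
          ring
        rw [h20] at hy
        calc e * E.x = (e * E.x) * ((d * a * b) * (d * a * b)) * ((d * a * b)⁻¹ * (d * a * b)⁻¹) := by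
              rw [mul_assoc, mul_mul_mul_comm (d * a * b) (d * a * b), mul_inv_cancel, mul_one,
                mul_one]
          _ = y * (d * a * b)⁻¹ * (y * (d * a * b)⁻¹) := by rw [hy, mul_mul_mul_comm]
      have he' : br e = br E.x := (hr1 _ _).2 hsq
      refine ⟨d, ?_⟩
      unfold pf pf1
      linear_combination -h6 - he'
  · rintro ⟨v, hv⟩
    obtain ⟨g, hg, -⟩ := hMAP F K (algebraMap F K)
    have hg1 : ∀ c : Fˣ, g (pf1 c) = pf1 (iu F c) := by
      intro c
      unfold pf1
      rw [map_sub, map_one, hg c]
      rfl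
    have hx0 : pf1 (iu F E.x : Kˣ) = 0 := by
      refine ((hREL K hK).2.2.2 _).2 ⟨E.θ, ?_⟩
      apply Units.ext
      rw [iu_coe, ← hθ, pow_two]
      rfl
    have h1 : g (pf a b) = pf (iu F a) (iu F b) := by
      unfold pf; rw [map_mul, hg1, hg1]
    rw [← h1, hv]
    unfold pf
    rw [map_mul, hg1, hx0, zero_mul]

end Pool.Agent.EWH
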