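import Pool.Agent.EWH.Stmts

/-!
Squad EWH, module LNK: linkage of two-fold Pfister forms.
-/

set_option autoImplicit false

namespace Pool.Agent.EWH

namespace LNK_

variable {K : Type} [Field K]

theorem br_sq (hREL : ∀ a b : Kˣ, br (a * b ^ 2) = br a) (a : Kˣ) : br a * br a = 1 := by
  have := hREL 1 a
  rw [one_mul, pow_two, br_mul, br_one] at this
  exact this

/-- `⟨⟨a⟩⟩ = ⟨⟨a⟩⟩ ⟨y⟩` if `⟨⟨a, y⟩⟩ = 0` -/
theorem pf1_br (a y : Kˣ) (h : pf a y = 0) : pf1 a * br y = pf1 a := by
  unfold pf at h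
  have h1 : pf1 a * pf1 y = pf1 a - pf1 a * br y := by unfold pf1; ring
  rw [h1] at h
  exact (sub_eq_zero.1 h).symm

theorem pf_norm (a b g : Kˣ) (h : pf a g = 0) : pf a (b * g) = pf a b := by
  have h1 := pf1_br a g h
  have e1 : pf a (b * g) = pf1 a - pf1 a * br g * br b := by
    unfold pf
    rw [show pf1 (b * g) = 1 - br b * br g by rw [pf1, br_mul]]
    ring
  rw [e1, h1]
  unfold pf
  rw [show pf1 b = 1 - br b from rfl]
  ring

theorem pf_neg_mul (hREL : ∀ a b : Kˣ, br (a * b ^ 2) = br a) (a b : Kˣ) :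
    pf a (-(a * b)) = pf a b := by
  have h := br_sq hREL a
  unfold pf
  rw [show pf1 (-(a * b)) = 1 + br a * br b by rw [pf1, br_neg, br_mul]; ring]
  rw [show pf1 a = 1 - br a from rfl, show pf1 b = 1 - br b from rfl]
  linear_combination (-br b) * h

end LNK_

open LNK_ in
theorem lnk_proof (hREL : Stmt_REL) (hPFZ : Stmt_PFZ) (hPUR : Stmt_PUR) : Stmt_LNK := by
  intro K _ hK a b c d habcd
  obtain ⟨-, hR2, hR3, -⟩ := hREL K hK
  obtain ⟨s, t, u, hc⟩ := (hPUR K hK a b c).1 ⟨d, habcd⟩
  by_cases hg : t ^ 2 - (a : K) * u ^ 2 = 0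
  · -- c = a s²
    have hc2 : (c : K) = a * s ^ 2 := by
      rw [hc]; linear_combination (b : K) * hg
    have hs : s ≠ 0 := by
      rintro rfl
      apply c.ne_zero
      rw [hc2]; ring
    have hc3 : c = a * (Units.mk0 s hs) ^ 2 := by
      ext; simp [hc2]
    refine ⟨b, rfl, ?_⟩
    unfold pf pf1
    rw [hc3, hR3]
  · set g : Kˣ := Units.mk0 _ hg with hgdef
    have hgv : (g : K) = t ^ 2 - a * u ^ 2 := rfl
    have hag : pf a g = 0 := (hPFZ K hK a g).2 ⟨t, u, hgv⟩
    have hab : pf a (b * g) = pf a b := pf_norm a b g hag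
    by_cases hs : s = 0
    · have hc2 : c = b * g := by
        ext
        rw [hc, Units.val_mul, hgv, hs]; ring
      have hac : pf a c = pf a b := by rw [hc2, hab]
      refine ⟨-(a * c), ?_, ?_⟩
      · rw [pf_neg_mul hR3, hac]
      · rw [mul_comm a c, pf_neg_mul hR3, pf_comm, hac]
    · set s' : Kˣ := Units.mk0 s hs with hs'
      have hsum : (c : K) = ((a * s' ^ 2 : Kˣ) : K) + ((b * g : Kˣ) : K) := by
        rw [hc]
        push_cast
        rw [hgv, hs', Units.val_mk0]; ring
      have h2 := hR2 (a * s' ^ 2) (b * g) c hsum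
      have h3 : br (a * s' ^ 2 * (b * g) * c) = br (a * (b * g) * c) := by
        rw [← hR3 (a * (b * g) * c) s']
        congr 1
        ext
        push_cast
        ring
      rw [hR3, h3] at h2
      refine ⟨-(a * (b * g)), ?_, ?_⟩
      · rw [pf_neg_mul hR3, hab]
      · rw [← hab]
        have e1 : pf c (-(a * (b * g))) = 1 - br c + br (a * (b * g)) - br (a * (b * g) * c) := by
          unfold pf
          rw [show pf1 (-(a * (b * g))) = 1 + br (a * (b * g)) by rw [pf1, br_neg]; ring,
            show pf1 c = 1 - br c from rfl, br_mul (a * (b * g)) c]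
          ring
        have e2 : pf a (b * g) = 1 - br a - br (b * g) + br (a * (b * g)) := by
          unfold pf
          rw [show pf1 a = 1 - br a from rfl, show pf1 (b * g) = 1 - br (b * g) from rfl,
            br_mul a (b * g)]
          ring
        rw [e1, e2]
        linear_combination h2

end Pool.Agent.EWH
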