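import Pool.Agent.EWH.Stmts

set_option autoImplicit false

namespace Pool.Agent.EWH

open scoped BigOperators
open Pool.Agent.EWG (Split SN osum ud OB VV vm iu QD sB ud_apply osum_apply)

namespace MAP_

variable {K L : Type} [Field K] [Field L]

/-- linear independence is preserved by homomorphisms of fields -/
lemma li (f : K →+* L) {m n : ℕ} (w : Fin m → Fin n → K) (hw : LinearIndependent K w) :
    LinearIndependent L (fun j i => f (w j i)) := by
  obtain ⟨ψ, hψ⟩ := LinearMap.exists_leftInverse_of_injective (Fintype.linearCombination K w)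
    (LinearMap.ker_eq_bot.2 ((linearIndependent_iff_injective_fintypeLinearCombination).1 hw))
  have h1 : ∀ j, ψ (w j) = Pi.single j 1 := by
    intro j
    have h2 : Fintype.linearCombination K w (Pi.single j 1) = w j := by
      rw [Fintype.linearCombination_apply_single, one_smul]
    have h3 := congrArg (fun g : (Fin m → K) →ₗ[K] (Fin m → K) => g (Pi.single j 1)) hψ
    simpa [h2] using h3
  have h4 : ∀ j k, ∑ i, w j i * ψ (Pi.single i 1) k = (Pi.single j (1 : K) : Fin m → K) k := by
    intro j k
    have h5 : w j = ∑ i, w j i • (Pi.single i (1 : K) : Fin n → K) := by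
      ext i
      simp [Finset.sum_apply, Pi.single_apply]
    have h6 := h1 j
    rw [h5, map_sum] at h6
    have h7 := congrFun h6 k
    rw [Finset.sum_apply] at h7
    rw [← h7]
    refine Finset.sum_congr rfl fun i _ => ?_
    rw [map_smul]
    simp
  rw [Fintype.linearIndependent_iff]
  intro g hg k
  have h8 : ∑ i, (∑ j, g j * f (w j i)) * f (ψ (Pi.single i 1) k) = 0 := by
    refine Finset.sum_eq_zero fun i _ => ?_
    have h9 := congrFun hg i
    simp only [Finset.sum_apply, Pi.smul_apply, smul_eq_mul, Pi.zero_apply] at h9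
    rw [h9, zero_mul]
  have h10 : ∑ i, (∑ j, g j * f (w j i)) * f (ψ (Pi.single i 1) k) =
      ∑ j, g j * f (∑ i, w j i * ψ (Pi.single i 1) k) := by
    simp_rw [Finset.sum_mul, map_sum, Finset.mul_sum, map_mul]
    rw [Finset.sum_comm]
    exact Finset.sum_congr rfl fun j _ => Finset.sum_congr rfl fun i _ => by ring
  rw [h10] at h8
  simp_rw [h4] at h8
  have h11 : ∑ j, g j * f ((Pi.single j (1 : K) : Fin m → K) k) = g k := by
    rw [Finset.sum_eq_single k]
    · simp
    · intro j _ hj
      rw [Pi.single_apply, if_neg (Ne.symm hj), map_zero, mul_zero]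
    · simp
  rw [h11] at h8
  exact h8

/-- split forms stay split -/
lemma split (f : K →+* L) (n : ℕ) (a : Fin n → Kˣ) (h : Split K (ud a)) :
    Split L (ud (fun i => Units.map f.toMonoidHom (a i))) := by
  obtain ⟨N, hN, hd⟩ := h
  set b := Module.finBasis K N with hb
  set w : Fin (Module.finrank K N) → Fin n → K := fun j => (b j : Fin n → K) with hw
  have hli : LinearIndependent K w :=
    b.linearIndependent.map' N.subtype (Submodule.ker_subtype N)
  have hL := li f w hli
  refine ⟨Submodule.span L (Set.range (fun j i => f (w j i))), ?_, ?_⟩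
  · have hgen : ∀ j k, ud (fun i => Units.map f.toMonoidHom (a i)) (fun i => f (w j i))
        (fun i => f (w k i)) = 0 := by
      intro j k
      have h1 := hN (w j) (b j).2 (w k) (b k).2
      rw [ud_apply] at h1
      rw [ud_apply]
      have h2 := congrArg f h1
      rw [map_sum, map_zero] at h2
      rw [← h2]
      refine Finset.sum_congr rfl fun i _ => ?_
      rw [map_mul, map_mul]
      rfl
    intro x hx y hy
    refine Submodule.span_induction (p := fun x _ => ud (fun i => Units.map f.toMonoidHom (a i)) x y = 0)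
      ?_ ?_ ?_ ?_ hx
    · rintro _ ⟨j, rfl⟩
      refine Submodule.span_induction
        (p := fun y _ => ud (fun i => Units.map f.toMonoidHom (a i)) (fun i => f (w j i)) y = 0)
        ?_ ?_ ?_ ?_ hy
      · rintro _ ⟨k, rfl⟩
        exact hgen j k
      · exact map_zero _
      · intro u v _ _ hu hv
        rw [map_add, hu, hv, add_zero]
      · intro c u _ hu
        rw [map_smul, hu, smul_zero]
    · rw [map_zero]; rfl
    · intro u v _ _ hu hv
      rw [map_add, LinearMap.add_apply, hu, hv, add_zero]
    · intro c u _ hu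
      rw [map_smul, LinearMap.smul_apply, hu, smul_zero]
  · rw [finrank_span_eq_card hL]
    simp only [Fintype.card_fin, Module.finrank_fintype_fun_eq_card] at hd ⊢
    exact hd

/-- the map of the Witt rings -/
noncomputable def gm (f : K →+* L) : W K →+* W L :=
  Ideal.Quotient.lift (rel K)
    ((Ideal.Quotient.mk (rel L)).comp
      (MonoidAlgebra.mapDomainRingHom (ℤ) (Units.map f.toMonoidHom))) (by
    intro c hc
    have h1 : rel K ≤ RingHom.ker ((Ideal.Quotient.mk (rel L)).comp
      (MonoidAlgebra.mapDomainRingHom (ℤ) (Units.map f.toMonoidHom))) := by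
      unfold rel
      rw [Ideal.span_le]
      rintro _ ⟨n, a, ha, rfl⟩
      rw [SetLike.mem_coe, RingHom.mem_ker, RingHom.comp_apply, Ideal.Quotient.eq_zero_iff_mem]
      refine Ideal.subset_span ⟨n, fun i => Units.map f.toMonoidHom (a i), split f n a ha, ?_⟩
      rw [map_sum]
      refine Finset.sum_congr rfl fun i _ => ?_
      simp [MonoidAlgebra.of_apply]
    exact h1 hc)

lemma gm_br (f : K →+* L) : IsMap f (gm f) := by
  intro a
  have h1 : gm f (br a) = Ideal.Quotient.mk (rel L)
      (MonoidAlgebra.mapDomainRingHom (ℤ) (Units.map f.toMonoidHom)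
        (MonoidAlgebra.of (ℤ) Kˣ a)) := rfl
  rw [h1]
  unfold br
  congr 1
  simp [MonoidAlgebra.of_apply]

lemma uniq (hSUR : Stmt_SUR) (f : K →+* L) (g g' : W K →+* W L) (hg : IsMap f g) (hg' : IsMap f g')
    (c : W K) : g c = g' c := by
  obtain ⟨n, a, rfl⟩ := hSUR K c
  rw [map_sum, map_sum]
  exact Finset.sum_congr rfl fun i _ => by rw [hg, hg']

end MAP_

theorem map_proof (hSUR : Stmt_SUR) : Stmt_MAP := by
  intro K L _ _ f
  refine ⟨MAP_.gm f, MAP_.gm_br f, fun c => ?_⟩
  have h : ∃ g : W K →+* W L, IsMap f g := ⟨MAP_.gm f, MAP_.gm_br f⟩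
  unfold wmap
  rw [dif_pos h]
  exact MAP_.uniq hSUR f _ _ h.choose_spec (MAP_.gm_br f) c

end Pool.Agent.EWH
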