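import Pool.Agent.EWH.Stmts

/-!
# Squad EWH: module NEG (`B ⊥ (-B)` is split)
-/

set_option autoImplicit false

namespace Pool.Agent.EWH

open Pool.Agent.EWG (osum_apply)

theorem neg_proof : Stmt_NEG := by
  intro K V _ _ _ _ B
  let f : V →ₗ[K] V × V := LinearMap.prod LinearMap.id LinearMap.id
  refine ⟨LinearMap.range f, ?_, ?_⟩
  · rintro _ ⟨x, rfl⟩ _ ⟨y, rfl⟩
    rw [osum_apply]
    show B x y + (-B) x y = 0
    rw [LinearMap.neg_apply, LinearMap.neg_apply, add_neg_cancel]
  · rw [LinearMap.finrank_range_of_inj, Module.finrank_prod, two_mul]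
    intro x y h
    exact congrArg Prod.fst h

end Pool.Agent.EWH
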