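import Pool.Agent.EWH.Stmts

/-!
Squad EWH, module NPR: the norm principle.
-/

set_option autoImplicit false

namespace Pool.Agent.EWH

open scoped BigOperators
open Pool.Agent.EWG (Split SN osum ud OB VV vm iu QD sB iu_coe)

namespace NPR_

theorem mul_eq_of_pf {K : Type} [Field K] {a b : Kˣ} (h : pf a b = 0) :
    pf1 a * br b = pf1 a := by
  have h1 : pf a b = pf1 a - pf1 a * br b := by
    unfold pf
    conv_lhs => rw [show pf1 b = 1 - br b from rfl]
    ring
  rw [h1] at h
  exact (sub_eq_zero.1 h).symm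

end NPR_

open NPR_ in
theorem npr_proof (hREL : Stmt_REL) (hPFZ : Stmt_PFZ) (hMAP : Stmt_MAP) (hSTR : Stmt_STR)
    (hSIS : Stmt_SIS) (hPRJ : Stmt_PRJ) : Stmt_NPR := by
  intro F K _ _ _ hF E y w h
  have hK : Two K := hF.map (algebraMap F K)
  obtain ⟨g, hg, hg'⟩ := hMAP F K (algebraMap F K)
  have hrs1 : ∀ a : Fˣ, rs F K (pf1 a) = pf1 (iu F a) := fun a => by
    have h2 : rs F K (pf1 a) = 1 - g (br a) := by
      unfold rs pf1
      rw [hg', map_sub, map_one]
    rw [h2, hg a]
    rfl
  -- the transfer of `⟨w, -w y⟩` vanishes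
  have htr : tr E (rs F K (pf1 y) * br w) = 0 := by
    rw [hPRJ F K hF E]
    obtain ⟨h1, h2⟩ := hSTR F K hF E w
    by_cases hs : E.s w = 0
    · rw [h2 hs, mul_zero]
    · rw [h1 (Units.mk0 _ hs) rfl]
      unfold pf at h
      calc pf1 y * (br (Units.mk0 _ hs) * pf1 (E.nm w))
          = br (Units.mk0 _ hs) * (pf1 y * pf1 (E.nm w)) := by ring
        _ = 0 := by rw [h, mul_zero]
  have hsum : ∑ i, br ((![w, -(w * iu F y)] : Fin 2 → Kˣ) i) = rs F K (pf1 y) * br w := by
    rw [Fin.sum_univ_two, hrs1]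
    simp only [Matrix.cons_val_zero, Matrix.cons_val_one]
    rw [br_neg, br_mul]
    unfold pf1
    ring
  obtain ⟨z, e, hz, hze⟩ := hSIS F K hF E 1 ![w, -(w * iu F y)] (by rw [hsum, htr])
  rw [Fin.sum_univ_two] at hze
  simp only [Matrix.cons_val_zero, Matrix.cons_val_one, Units.val_mul, Units.val_neg,
    iu_coe] at hze
  set Y : Kˣ := iu F y with hY
  have hYc : (Y : K) = algebraMap F K y := rfl
  have hd : (w : K) * (z 0 ^ 2 - (Y : K) * z 1 ^ 2) = algebraMap F K e := by
    rw [← hze, hYc]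
    ring
  by_cases he : e = 0
  · -- `⟨1, -y⟩` is isotropic over `K`
    rw [he, map_zero] at hd
    have hd0 : z 0 ^ 2 - (Y : K) * z 1 ^ 2 = 0 := by
      rcases mul_eq_zero.1 hd with h' | h'
      · exact absurd h' w.ne_zero
      · exact h'
    have hz1 : z 1 ≠ 0 := by
      intro h1
      rw [h1] at hd0
      have h0 : z 0 = 0 := by
        have : z 0 ^ 2 = 0 := by simpa using hd0
        exact pow_eq_zero_iff (by norm_num) |>.1 this
      apply hz
      funext i
      fin_cases i
      · exact h0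
      · exact h1
    have hsq : IsSquare Y := by
      have h0 : z 0 ≠ 0 := by
        intro h0
        rw [h0] at hd0
        have : (Y : K) * z 1 ^ 2 = 0 := by
          have h3 := hd0
          rw [zero_pow (by norm_num), zero_sub, neg_eq_zero] at h3
          exact h3
        rcases mul_eq_zero.1 this with h' | h'
        · exact Y.ne_zero h'
        · exact hz1 (pow_eq_zero_iff (by norm_num) |>.1 h')
      refine ⟨Units.mk0 _ (div_ne_zero h0 hz1), ?_⟩
      ext
      simp only [Units.val_mul, Units.val_mk0]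
      field_simp
      linear_combination -hd0
    refine ⟨1, ?_⟩
    unfold pf
    rw [((hREL K hK).2.2.2 Y).2 hsq, zero_mul, zero_mul]
  · have hwd : (algebraMap F K e : K) ≠ 0 := by
      rwa [Ne, map_eq_zero]
    have hdn : z 0 ^ 2 - (Y : K) * z 1 ^ 2 ≠ 0 := by
      intro h0
      rw [h0, mul_zero] at hd
      exact hwd hd.symm
    set D : Kˣ := Units.mk0 _ hdn with hD
    have hpD : pf Y D = 0 := (hPFZ K hK Y D).2 ⟨z 0, z 1, rfl⟩
    have hwD : iu F (Units.mk0 e he) = w * D := by
      ext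
      rw [iu_coe, Units.val_mul, hD, Units.val_mk0, Units.val_mk0, hd]
    refine ⟨Units.mk0 e he, ?_⟩
    rw [hwD]
    have h1 : pf1 Y * br (w * D) = pf1 Y * br w := by
      rw [br_mul]
      calc pf1 Y * (br w * br D) = (pf1 Y * br D) * br w := by ring
        _ = pf1 Y * br w := by rw [mul_eq_of_pf hpD]
    have h2 : ∀ c : Kˣ, pf Y c = pf1 Y - pf1 Y * br c := fun c => by
      unfold pf
      conv_lhs => rw [show pf1 c = 1 - br c from rfl]
      ring
    rw [h2, h2, h1]

end Pool.Agent.EWH
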