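import Pool.Agent.EWH.Stmts

/-!
Module PFI: isotropic neighbours of Pfister forms.
-/

set_option autoImplicit false

namespace Pool.Agent.EWH

open Pool.Agent.EWG (Split SN osum ud OB VV vm iu QD sB ud_apply)

namespace PFI_

open scoped BigOperators

variable {K : Type} [Field K]

theorem pf1_zero (hREL : Stmt_REL) (hK : Two K) (a : Kˣ) (s t : K) (ht : t ≠ 0)
    (h : s ^ 2 = a * t ^ 2) : pf1 a = 0 := by
  rw [(hREL K hK).2.2.2]
  have hs : s ≠ 0 := by
    rintro rfl
    have : (a : K) * t ^ 2 = 0 := by rw [← h]; ring
    exact (mul_ne_zero a.ne_zero (pow_ne_zero 2 ht)) this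
  refine ⟨Units.mk0 (s / t) (div_ne_zero hs ht), ?_⟩
  ext
  push_cast
  rw [Units.val_mk0]
  field_simp
  rw [h]

theorem one_iff (hREL : Stmt_REL) (hPFZ : Stmt_PFZ) (hK : Two K) (a b : Kˣ) :
    pf a b = 0 ↔ ∃ s t u : K, (s ≠ 0 ∨ t ≠ 0 ∨ u ≠ 0) ∧ s ^ 2 - a * t ^ 2 - b * u ^ 2 = 0 := by
  constructor
  · intro h
    obtain ⟨s, t, h⟩ := (hPFZ K hK a b).1 h
    exact ⟨s, t, 1, Or.inr (Or.inr one_ne_zero), by rw [h]; ring⟩
  · rintro ⟨s, t, u, hn, h⟩
    by_cases hu : u = 0
    · rw [hu] at h hn
      have ht : t ≠ 0 := by
        rintro rfl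
        rcases hn with hn | hn | hn
        · apply hn
          have : s ^ 2 = 0 := by linear_combination h
          exact pow_eq_zero_iff (two_ne_zero) |>.1 this
        · exact hn rfl
        · exact hn rfl
      unfold pf
      rw [pf1_zero hREL hK a s t ht (by linear_combination h), zero_mul]
    · rw [hPFZ K hK]
      refine ⟨s / u, t / u, ?_⟩
      field_simp
      linear_combination -h

end PFI_

open PFI_ in
theorem pfi_proof (_hSMP : EWG.Stmt_SMP) (_hWZ : Stmt_WZ) (hREL : Stmt_REL)
    (hPFZ : Stmt_PFZ) (hPF3 : Stmt_PF3) : Stmt_PFI := by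
  intro K _ hK a b c
  have ha := a.ne_zero
  have hb := b.ne_zero
  refine ⟨?_, ?_, ?_⟩
  · rw [one_iff hREL hPFZ hK]
    constructor
    · rintro ⟨s, t, u, hn, h⟩
      refine ⟨![s, t, u], ?_, ?_⟩
      · intro h0
        have h1 := congrFun h0 0
        have h2 := congrFun h0 1
        have h3 := congrFun h0 2
        simp at h1 h2 h3
        rcases hn with hn | hn | hn
        · exact hn h1
        · exact hn h2
        · exact hn h3
      · rw [ud_apply, Fin.sum_univ_three]
        simp
        linear_combination h
    · rintro ⟨v, hv, h⟩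
      refine ⟨v 0, v 1, v 2, ?_, ?_⟩
      · by_contra hc
        push_neg at hc
        apply hv
        ext i
        fin_cases i
        · exact hc.1
        · exact hc.2.1
        · exact hc.2.2
      · rw [ud_apply, Fin.sum_univ_three] at h
        simp at h
        linear_combination h
  · rw [one_iff hREL hPFZ hK]
    constructor
    · rintro ⟨s, t, u, hn, h⟩
      refine ⟨![u / a, t / b, s / (a * b)], ?_, ?_⟩
      · intro h0
        have h1 := congrFun h0 0
        have h2 := congrFun h0 1
        have h3 := congrFun h0 2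
        simp at h1 h2 h3
        rcases hn with hn | hn | hn
        · exact hn h3
        · exact hn h2
        · exact hn h1
      · rw [ud_apply, Fin.sum_univ_three]
        simp
        field_simp
        linear_combination -h
    · rintro ⟨v, hv, h⟩
      refine ⟨a * b * v 2, b * v 1, a * v 0, ?_, ?_⟩
      · by_contra hc
        push_neg at hc
        obtain ⟨h1, h2, h3⟩ := hc
        apply hv
        ext i
        fin_cases i
        · exact (mul_eq_zero.1 h3).resolve_left ha
        · exact (mul_eq_zero.1 h2).resolve_left hb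
        · exact (mul_eq_zero.1 h1).resolve_left (mul_ne_zero ha hb)
      · rw [ud_apply, Fin.sum_univ_three] at h
        simp at h
        linear_combination (-(a : K) * b) * h
  · constructor
    · intro h
      obtain ⟨s, t, u, v, h⟩ := (hPF3 K hK a b c).1 h
      refine ⟨![s, t, u, v, 1], ?_, ?_⟩
      · intro h0
        have h1 := congrFun h0 4
        simp at h1
      · rw [ud_apply, Fin.sum_univ_five]
        simp
        linear_combination -h
    · rintro ⟨v, hv, h⟩
      rw [ud_apply, Fin.sum_univ_five] at h
      simp at h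
      by_cases h4 : v 4 = 0
      · rw [h4] at h
        by_cases hq : v 2 ^ 2 - a * v 3 ^ 2 = 0
        · have hp : v 0 ^ 2 - a * v 1 ^ 2 = 0 := by
            linear_combination h + (b : K) * hq
          have h1 : pf1 a = 0 := by
            by_cases h3 : v 3 = 0
            · by_cases h1 : v 1 = 0
              · exfalso
                apply hv
                rw [h3] at hq
                rw [h1] at hp
                have e0 : v 0 = 0 := by
                  have : v 0 ^ 2 = 0 := by linear_combination hp
                  exact pow_eq_zero_iff (two_ne_zero) |>.1 this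
                have e2 : v 2 = 0 := by
                  have : v 2 ^ 2 = 0 := by linear_combination hq
                  exact pow_eq_zero_iff (two_ne_zero) |>.1 this
                ext i
                fin_cases i
                · exact e0
                · exact h1
                · exact e2
                · exact h3
                · exact h4
              · exact pf1_zero hREL hK a (v 0) (v 1) h1 (by linear_combination hp)
            · exact pf1_zero hREL hK a (v 2) (v 3) h3 (by linear_combination hq)
          unfold pf3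
          rw [h1, zero_mul, zero_mul]
        · have h1 : pf a b = 0 := by
            rw [hPFZ K hK]
            refine ⟨(v 0 * v 2 + a * v 1 * v 3) / (v 2 ^ 2 - a * v 3 ^ 2),
              (v 0 * v 3 + v 1 * v 2) / (v 2 ^ 2 - a * v 3 ^ 2), ?_⟩
            have hb' : (b : K) * (v 2 ^ 2 - a * v 3 ^ 2) = v 0 ^ 2 - a * v 1 ^ 2 := by
              linear_combination -h
            have hq2 : (v 2 ^ 2 - a * v 3 ^ 2) ^ 2 ≠ 0 := pow_ne_zero 2 hq
            have e : (b : K) * (v 2 ^ 2 - a * v 3 ^ 2) ^ 2 =
                (v 0 * v 2 + a * v 1 * v 3) ^ 2 - a * (v 0 * v 3 + v 1 * v 2) ^ 2 := by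
              linear_combination (v 2 ^ 2 - a * v 3 ^ 2) * hb'
            have e2 : (b : K) = ((v 0 * v 2 + a * v 1 * v 3) ^ 2 -
                a * (v 0 * v 3 + v 1 * v 2) ^ 2) / (v 2 ^ 2 - a * v 3 ^ 2) ^ 2 := by
              rw [eq_div_iff hq2]
              exact e
            rw [e2]
            rw [div_pow, div_pow, sub_div, mul_div_assoc]
          have h2 : pf3 a b c = pf a b * pf1 c := rfl
          rw [h2, h1, zero_mul]
      · rw [hPF3 K hK]
        refine ⟨v 0 / v 4, v 1 / v 4, v 2 / v 4, v 3 / v 4, ?_⟩
        have e : (c : K) * v 4 ^ 2 = v 0 ^ 2 - a * v 1 ^ 2 - b * v 2 ^ 2 + a * b * v 3 ^ 2 := by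
          linear_combination -h
        have e3 : (c : K) = (v 0 ^ 2 - a * v 1 ^ 2 - b * v 2 ^ 2 + a * b * v 3 ^ 2) / v 4 ^ 2 := by
          rw [eq_div_iff (pow_ne_zero 2 h4)]
          exact e
        rw [e3]
        field_simp

end Pool.Agent.EWH

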