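import Pool.Agent.EWH.Stmts

/-! The projection formula. -/

set_option autoImplicit false

namespace Pool.Agent.EWH

open scoped BigOperators
open Pool.Agent.EWG (Split SN osum ud OB VV vm iu QD sB iu_coe)

namespace PRJ_

variable {F K : Type} [Field F] [Field K] [Algebra F K]

theorem s_smul (E : QD F K) (f : F) (w : K) : E.s (algebraMap F K f * w) = f * E.s w := by
  rw [← Algebra.smul_def, map_smul, smul_eq_mul]

theorem t_smul (E : QD F K) (f : F) (w : K) : E.t (algebraMap F K f * w) = f * E.t w := by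
  rw [← Algebra.smul_def, map_smul, smul_eq_mul]

theorem nm_iu (E : QD F K) (f : Fˣ) (w : Kˣ) : E.nm (iu F f * w) = f ^ 2 * E.nm w := by
  apply Units.ext
  have h1 : ((f ^ 2 * E.nm w : Fˣ) : F) = (f : F) ^ 2 * (E.nm w : F) := by
    rw [Units.val_mul, Units.val_pow_eq_pow_val]
  rw [h1, E.nmt, Units.val_mul, E.nmt, iu_coe, s_smul, t_smul]
  ring

theorem one (hREL : Stmt_REL) (hg : Two F) (E : QD F K) (hT : IsTr E (tr E)) (f : Fˣ) (w : Kˣ) :
    tr E (br (iu F f * w)) = br f * tr E (br w) := by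
  obtain ⟨-, -, h4, -⟩ := hREL F hg
  by_cases hs : E.s w = 0
  · rw [(hT w).2 hs, mul_zero]
    apply (hT (iu F f * w)).2
    rw [Units.val_mul, iu_coe, s_smul, hs, mul_zero]
  · have h1 : ((Units.mk0 _ hs : Fˣ) : F) = E.s w := rfl
    rw [(hT w).1 _ h1]
    have h2 : ((f * Units.mk0 _ hs : Fˣ) : F) = E.s ((iu F f * w : Kˣ) : K) := by
      rw [Units.val_mul, Units.val_mul, iu_coe, s_smul, h1]
    rw [(hT (iu F f * w)).1 _ h2, nm_iu]
    have h3 : pf1 (f ^ 2 * E.nm w) = pf1 (E.nm w) := by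
      unfold pf1
      rw [mul_comm (f ^ 2) (E.nm w), h4]
    rw [h3, br_mul f, mul_assoc]

end PRJ_

theorem prj_proof (hSUR : Stmt_SUR) (hREL : Stmt_REL) (hMAP : Stmt_MAP) (hSTR : Stmt_STR) :
    Stmt_PRJ := by
  intro F K _ _ _ hg E a c
  have hT := hSTR F K hg E
  obtain ⟨g, hgm, hgw⟩ := hMAP F K (algebraMap F K)
  obtain ⟨n, α, rfl⟩ := hSUR F a
  obtain ⟨m, γ, rfl⟩ := hSUR K c
  have hrs : rs F K (∑ i, br (α i)) = ∑ i, br (iu F (α i) : Kˣ) := by
    unfold rs
    rw [hgw, map_sum]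
    exact Finset.sum_congr rfl fun i _ => hgm (α i)
  rw [hrs, Finset.sum_mul_sum, map_sum, map_sum, Finset.sum_mul_sum]
  refine Finset.sum_congr rfl fun i _ => ?_
  rw [map_sum]
  refine Finset.sum_congr rfl fun j _ => ?_
  rw [← br_mul]
  exact PRJ_.one hREL hg E hT _ _

end Pool.Agent.EWH
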