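import Pool.Agent.EWH.Stmts

/-!
Squad EWH, module PRL: the elements of the ideal of relations.
-/

set_option autoImplicit false

namespace Pool.Agent.EWH

open scoped BigOperators
open Pool.Agent.EWG (Split SN osum ud OB VV vm iu QD sB ud_apply osum_apply)

namespace PRL_

variable {K : Type} [Field K]

/-- the concatenation of two families -/
def app {n m : ℕ} (a : Fin n → Kˣ) (b : Fin m → Kˣ) (i : Fin (n + m)) : Kˣ :=
  Sum.elim a b (finSumFinEquiv.symm i)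

theorem sum_app {n m : ℕ} (a : Fin n → Kˣ) (b : Fin m → Kˣ) {M : Type} [AddCommMonoid M]
    (f : Kˣ → M) : ∑ i, f (app a b i) = ∑ i, f (a i) + ∑ j, f (b j) := by
  have h1 : ∑ i, f (app a b i) = ∑ s : Fin n ⊕ Fin m, f (Sum.elim a b s) :=
    Fintype.sum_equiv finSumFinEquiv.symm _ _ (fun i => rfl)
  rw [h1, Fintype.sum_sum_type]
  rfl

theorem split_app (hSPI : EWG.Stmt_SPI) (hOSU : EWG.Stmt_OSU) {n m : ℕ} (a : Fin n → Kˣ)
    (b : Fin m → Kˣ) (ha : Split K (ud a)) (hb : Split K (ud b)) : Split K (ud (app a b)) := by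
  have h1 := hOSU K (Fin n → K) (Fin m → K) (ud a) (ud b) ha hb
  refine hSPI K ((Fin n → K) × (Fin m → K)) (Fin (n + m) → K)
    ((LinearEquiv.sumArrowLequivProdArrow (Fin n) (Fin m) K K).symm ≪≫ₗ
      LinearEquiv.funCongrLeft K K finSumFinEquiv.symm) (osum (ud a) (ud b)) (ud (app a b)) ?_ h1
  intro x y
  rw [osum_apply, ud_apply, ud_apply, ud_apply]
  have h2 : ∑ i : Fin (n + m), ((app a b i : Kˣ) : K) *
      ((LinearEquiv.sumArrowLequivProdArrow (Fin n) (Fin m) K K).symm ≪≫ₗ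
      LinearEquiv.funCongrLeft K K finSumFinEquiv.symm) x i *
      ((LinearEquiv.sumArrowLequivProdArrow (Fin n) (Fin m) K K).symm ≪≫ₗ
      LinearEquiv.funCongrLeft K K finSumFinEquiv.symm) y i =
      ∑ s : Fin n ⊕ Fin m, ((Sum.elim a b s : Kˣ) : K) * Sum.elim x.1 x.2 s *
        Sum.elim y.1 y.2 s := by
    refine Fintype.sum_equiv finSumFinEquiv.symm _ _ (fun i => ?_)
    rfl
  rw [h2, Fintype.sum_sum_type]
  rfl

theorem split_nil (a : Fin 0 → Kˣ) : Split K (ud a) :=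
  ⟨⊥, fun x hx y _ => by rw [(Submodule.mem_bot K).1 hx]; simp, by simp⟩

theorem split_mul {n : ℕ} (u : Kˣ) (a : Fin n → Kˣ) (ha : Split K (ud a)) :
    Split K (ud fun i => u * a i) := by
  obtain ⟨N, h1, h2⟩ := ha
  refine ⟨N, fun x hx y hy => ?_, h2⟩
  have h3 := h1 x hx y hy
  rw [ud_apply] at h3 ⊢
  have h4 : ∑ i, ((u * a i : Kˣ) : K) * x i * y i = (u : K) * ∑ i, ((a i : Kˣ) : K) * x i * y i := by
    rw [Finset.mul_sum]
    refine Finset.sum_congr rfl fun i _ => ?_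
    rw [Units.val_mul]
    ring
  rw [h4, h3, mul_zero]

/-- the property -/
def P (f : MonoidAlgebra ℤ Kˣ) : Prop := ∃ (n m : ℕ) (a : Fin n → Kˣ)
  (b : Fin m → Kˣ), Split K (ud a) ∧ Split K (ud b) ∧
  f + ∑ j, MonoidAlgebra.of ℤ Kˣ (b j) = ∑ i, MonoidAlgebra.of ℤ Kˣ (a i)

/-- the subgroup -/
def T (hSPI : EWG.Stmt_SPI) (hOSU : EWG.Stmt_OSU) (K : Type) [Field K] :
    AddSubgroup (MonoidAlgebra ℤ Kˣ) where
  carrier := {f | P f}
  zero_mem' := ⟨0, 0, Fin.elim0, Fin.elim0, split_nil _, split_nil _, by simp⟩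
  add_mem' := by
    rintro f f' ⟨n, m, a, b, ha, hb, h⟩ ⟨n', m', a', b', ha', hb', h'⟩
    refine ⟨n + n', m + m', app a a', app b b', split_app hSPI hOSU _ _ ha ha',
      split_app hSPI hOSU _ _ hb hb', ?_⟩
    rw [sum_app b b' (fun u => MonoidAlgebra.of ℤ Kˣ u),
      sum_app a a' (fun u => MonoidAlgebra.of ℤ Kˣ u), ← h, ← h']
    abel
  neg_mem' := by
    rintro f ⟨n, m, a, b, ha, hb, h⟩
    refine ⟨m, n, b, a, hb, ha, ?_⟩
    rw [← h]
    abel

theorem of_mul (u : Kˣ) {f : MonoidAlgebra ℤ Kˣ} (hf : P f) :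
    P (MonoidAlgebra.of ℤ Kˣ u * f) := by
  obtain ⟨n, m, a, b, ha, hb, h⟩ := hf
  refine ⟨n, m, fun i => u * a i, fun j => u * b j, split_mul u a ha, split_mul u b hb, ?_⟩
  have h1 : ∀ (l : ℕ) (c : Fin l → Kˣ), ∑ i, MonoidAlgebra.of ℤ Kˣ (u * c i) =
      MonoidAlgebra.of ℤ Kˣ u * ∑ i, MonoidAlgebra.of ℤ Kˣ (c i) := by
    intro l c
    rw [Finset.mul_sum]
    exact Finset.sum_congr rfl fun i _ => map_mul _ _ _
  rw [h1, h1, ← mul_add, h]

theorem mul_mem (hSPI : EWG.Stmt_SPI) (hOSU : EWG.Stmt_OSU) (g : MonoidAlgebra ℤ Kˣ)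
    {f : MonoidAlgebra ℤ Kˣ} (hf : P f) : P (g * f) := by
  have key : ∀ g : MonoidAlgebra ℤ Kˣ, g * f ∈ T hSPI hOSU K := by
    intro g
    induction g using MonoidAlgebra.induction_on with
    | of u => exact of_mul u hf
    | add g g' h h' =>
      rw [add_mul]
      exact (T hSPI hOSU K).add_mem h h'
    | smul r g h =>
      rw [smul_mul_assoc]
      exact (T hSPI hOSU K).zsmul_mem h r
  exact key g

end PRL_

open PRL_ in
theorem prl_proof (hSPI : EWG.Stmt_SPI) (hOSU : EWG.Stmt_OSU) : Stmt_PRL := by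
  intro K _ f hf
  unfold rel at hf
  have h : f ∈ T hSPI hOSU K := by
    refine Submodule.span_induction (p := fun f _ => f ∈ T hSPI hOSU K) ?_ ?_ ?_ ?_ hf
    · rintro _ ⟨n, a, ha, rfl⟩
      exact ⟨n, 0, a, Fin.elim0, ha, split_nil _, by simp⟩
    · exact (T hSPI hOSU K).zero_mem
    · intro x y _ _ hx hy
      exact (T hSPI hOSU K).add_mem hx hy
    · intro g x _ hx
      exact mul_mem hSPI hOSU g hx
  exact h

end Pool.Agent.EWH
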