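import Pool.Agent.EWH.Stmts

/-!
Module PUR: the pure subform theorem.
-/

set_option autoImplicit false

namespace Pool.Agent.EWH

open Pool.Agent.EWG (Split SN osum ud OB VV vm iu QD sB ud_apply)

namespace PUR_

open scoped BigOperators

variable {K : Type} [Field K]

theorem back (hREL : Stmt_REL) (hPFZ : Stmt_PFZ) (hK : Two K) (a b d : Kˣ) (s t u : K)
    (h : (d : K) = a * s ^ 2 + b * t ^ 2 - a * b * u ^ 2) : ∃ v, pf a b = pf d v := by
  by_cases hg : t ^ 2 - a * u ^ 2 = 0
  · have h' : (d : K) = a * s ^ 2 := by linear_combination h + (b : K) * hg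
    have hs : s ≠ 0 := by
      rintro rfl
      apply d.ne_zero
      rw [h']; ring
    have hd : d = a * (Units.mk0 s hs) ^ 2 := by
      ext
      push_cast
      rw [Units.val_mk0, h']
    refine ⟨b, ?_⟩
    unfold pf pf1
    rw [hd, (hREL K hK).2.2.1]
  · set G := Units.mk0 _ hg with hG
    have hGv : (G : K) = t ^ 2 - a * u ^ 2 := rfl
    have h0 : pf1 a * (1 - br G) = 0 := (hPFZ K hK a G).2 ⟨t, u, rfl⟩
    have h1 : pf1 a * br G = pf1 a := by linear_combination -h0
    have h2 : pf a b = pf a (b * G) := by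
      have e1 : pf a b = pf1 a * (1 - br b) := rfl
      have e2 : pf a (b * G) = pf1 a * (1 - br b * br G) := by
        unfold pf
        rw [show pf1 (b * G) = 1 - br b * br G by unfold pf1; rw [br_mul]]
      rw [e1, e2]
      linear_combination (br b) * h1
    by_cases hs : s = 0
    · refine ⟨a, ?_⟩
      have hd : d = b * G := by
        ext
        push_cast
        rw [hGv, h, hs]
        ring
      rw [h2, ← hd, pf_comm]
    · set S := Units.mk0 s hs with hS
      have hSv : (S : K) = s := rfl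
      have h3 := (hREL K hK).2.1 (a * S ^ 2) (b * G) d (by
        push_cast
        rw [hGv, hSv, h]
        ring)
      have h4 : br (a * S ^ 2 * (b * G) * d) = br (a * b * G * d) := by
        rw [show a * S ^ 2 * (b * G) * d = (a * b * G * d) * S ^ 2 by
          rw [mul_assoc, mul_assoc, mul_comm (S ^ 2)]
          simp only [mul_assoc]]
        exact (hREL K hK).2.2.1 _ _
      rw [(hREL K hK).2.2.1, h4] at h3
      refine ⟨-(a * b * G), ?_⟩
      rw [h2]
      have e1 : pf a (b * G) = 1 - br a - br (b * G) + br a * br (b * G) := by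
        unfold pf pf1; ring
      have e2 : pf d (-(a * b * G)) = 1 - br d + br (a * b * G) - br (a * b * G * d) := by
        unfold pf pf1
        rw [br_neg, br_mul (a * b * G) d]
        ring
      have e3 : br (a * b * G) = br a * br (b * G) := by rw [mul_assoc, br_mul]
      rw [e1, e2, e3]
      linear_combination -h3

theorem class6 (a b d v : Kˣ) : pf a b - pf d v =
    ∑ i, br ((![-a, -b, a * b, d, v, -(d * v)] : Fin 6 → Kˣ) i) := by
  rw [Fin.sum_univ_six]
  simp only [Matrix.cons_val]
  rw [br_neg, br_neg, br_neg, br_mul, br_mul]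
  unfold pf pf1
  ring

/-- the inclusion of the first four coordinates -/
noncomputable def inc : (Fin 4 → K) →ₗ[K] (Fin 6 → K) :=
  LinearMap.pi ![LinearMap.proj 0, LinearMap.proj 1, LinearMap.proj 2, LinearMap.proj 3, 0, 0]

theorem inc_inj : Function.Injective (inc : (Fin 4 → K) →ₗ[K] (Fin 6 → K)) := by
  intro x y h
  have h0 := congrFun h 0
  have h1 := congrFun h 1
  have h2 := congrFun h 2
  have h3 := congrFun h 3
  simp [inc] at h0 h1 h2 h3
  ext i
  fin_cases i
  · exact h0
  · exact h1
  · exact h2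
  · exact h3

theorem forw (hSMP : EWG.Stmt_SMP) (hWZ : Stmt_WZ) (hK : Two K) (a b d v : Kˣ)
    (h : pf a b = pf d v) :
    ∃ s t u : K, (d : K) = a * s ^ 2 + b * t ^ 2 - a * b * u ^ 2 := by
  have h' : pf a b - pf d v = 0 := by rw [h, sub_self]
  rw [class6] at h'
  have hs := (hWZ K hK (Fin 6) _).1 h'
  have hr : Module.finrank K (LinearMap.range (inc : (Fin 4 → K) →ₗ[K] (Fin 6 → K))) = 4 := by
    rw [LinearMap.finrank_range_of_inj inc_inj, Module.finrank_fin_fun]
  obtain ⟨w, ⟨z, rfl⟩, hw, hB⟩ := hSMP K (Fin 6 → K) _ hs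
    (LinearMap.range (inc : (Fin 4 → K) →ₗ[K] (Fin 6 → K))) (by
      rw [hr, Module.finrank_fin_fun]; norm_num)
  have hz : z ≠ 0 := by
    rintro rfl
    exact hw (map_zero _)
  rw [ud_apply, Fin.sum_univ_six] at hB
  simp [inc] at hB
  have h2 : (2 : K) ≠ 0 := hK
  have ha := a.ne_zero
  have hb := b.ne_zero
  by_cases h3 : z 3 = 0
  · rw [h3] at hB
    have hB' : a * z 0 ^ 2 + b * z 1 ^ 2 - a * b * z 2 ^ 2 = 0 := by
      linear_combination -hB
    by_cases h0 : z 0 = 0
    · by_cases h1 : z 1 = 0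
      · by_cases h22 : z 2 = 0
        · exfalso
          apply hz
          ext j
          fin_cases j
          · exact h0
          · exact h1
          · exact h22
          · exact h3
        · set l : K := d + a * b * (1 / (2 * a * b * z 2)) ^ 2 with hl
          refine ⟨l * z 0, l * z 1, l * z 2 - 1 / (2 * a * b * z 2), ?_⟩
          have e : (d : K) = l - a * b * (1 / (2 * a * b * z 2)) ^ 2 := by rw [hl]; ring
          rw [e]
          have e2 : 2 * (a * b) * z 2 * (1 / (2 * a * b * z 2)) = 1 := by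
            field_simp
          linear_combination (-l ^ 2) * hB' - l * e2
      · set l : K := d - b * (1 / (2 * b * z 1)) ^ 2 with hl
        refine ⟨l * z 0, l * z 1 + 1 / (2 * b * z 1), l * z 2, ?_⟩
        have e : (d : K) = l + b * (1 / (2 * b * z 1)) ^ 2 := by rw [hl]; ring
        rw [e]
        have e2 : 2 * b * z 1 * (1 / (2 * b * z 1)) = 1 := by
          field_simp
        linear_combination (-l ^ 2) * hB' - l * e2
    · set l : K := d - a * (1 / (2 * a * z 0)) ^ 2 with hl
      refine ⟨l * z 0 + 1 / (2 * a * z 0), l * z 1, l * z 2, ?_⟩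
      have e : (d : K) = l + a * (1 / (2 * a * z 0)) ^ 2 := by rw [hl]; ring
      rw [e]
      have e2 : 2 * a * z 0 * (1 / (2 * a * z 0)) = 1 := by
        field_simp
      linear_combination (-l ^ 2) * hB' - l * e2
  · refine ⟨z 0 / z 3, z 1 / z 3, z 2 / z 3, ?_⟩
    have e : (d : K) * z 3 ^ 2 = a * z 0 ^ 2 + b * z 1 ^ 2 - a * b * z 2 ^ 2 := by
      linear_combination hB
    have e3 : (d : K) = (a * z 0 ^ 2 + b * z 1 ^ 2 - a * b * z 2 ^ 2) / z 3 ^ 2 := by
      rw [eq_div_iff (pow_ne_zero 2 h3)]
      exact e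
    rw [e3]
    field_simp

end PUR_

theorem pur_proof (hSMP : EWG.Stmt_SMP) (hWZ : Stmt_WZ) (hREL : Stmt_REL)
    (hPFZ : Stmt_PFZ) : Stmt_PUR := by
  intro K _ hK a b d
  constructor
  · rintro ⟨v, h⟩
    exact PUR_.forw hSMP hWZ hK a b d v h
  · rintro ⟨s, t, u, h⟩
    exact PUR_.back hREL hPFZ hK a b d s t u h

end Pool.Agent.EWH

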