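import Pool.Agent.EWH.Stmts

/-!
Squad EWH, module QBL: the bilinear map `V × V → I²/I³` of a field.
-/

set_option autoImplicit false

namespace Pool.Agent.EWH

open scoped BigOperators
open Pool.Agent.EWG (Split SN osum ud OB VV vm iu QD sB vm_surj vm_mul vm_eq_iff vm_one)

namespace QBL_

variable {K : Type} [Field K]

lemma pf_congr {a a' b b' : Kˣ} (h1 : br a = br a') (h2 : br b = br b') : pf a b = pf a' b' := by
  unfold pf pf1
  rw [h1, h2]

lemma sy_eq_iff (a b c d : Kˣ) : sy a b = sy c d ↔ pf a b - pf c d ∈ (I K) ^ 3 := cl_eq_iff _ _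

lemma sy_eq_add (a b c d e f : Kˣ) :
    sy a b = sy c d + sy e f ↔ pf a b - (pf c d + pf e f) ∈ (I K) ^ 3 := by
  unfold sy
  rw [← cl_add, cl_eq_iff]
  exact Iff.rfl

lemma sy_comm (a b : Kˣ) : sy a b = sy b a := by
  rw [sy_eq_iff, pf_comm, sub_self]
  exact zero_mem _

lemma sy_zero (a b : Kˣ) : sy a b = 0 ↔ pf a b ∈ (I K) ^ 3 := cl_eq_zero _

lemma cl_sum (n : ℕ) (f : Fin n → ↥((I K) ^ 2)) : cl (∑ i, f i) = ∑ i, cl (f i) := by
  induction n with
  | zero => simp only [Finset.univ_eq_empty, Finset.sum_empty]; exact cl_zero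
  | succ n ih => rw [Fin.sum_univ_castSucc, Fin.sum_univ_castSucc, cl_add, ih]

end QBL_

open QBL_

theorem qbl_proof (hREL : Stmt_REL) (hLNK : Stmt_LNK) (hBIL : Stmt_BIL) (hIGN : Stmt_IGN)
    (hT2F : Stmt_T2F) (hEQB : Stmt_EQB) : Stmt_QBL := by
  classical
  intro K _ hK
  obtain ⟨rel1, -, -, -⟩ := hREL K hK
  obtain ⟨bil1, bil2, bil3, -, bil5, -⟩ := hBIL K
  have hrep : ∀ a b : Kˣ, vm a = vm b → br a = br b := fun a b h =>
    (rel1 a b).2 ((vm_eq_iff a b).1 h)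
  have hcg : ∀ a b a' b' : Kˣ, br a = br a' → br b = br b' → sy a b = sy a' b' := by
    intro a b a' b' h1 h2
    rw [sy_eq_iff, pf_congr h1 h2, sub_self]
    exact zero_mem _
  choose r hr using fun v : VV K => vm_surj v
  have hq : ∀ a b : Kˣ, sy (r (vm a)) (r (vm b)) = sy a b := fun a b =>
    hcg _ _ _ _ (hrep _ _ (hr _)) (hrep _ _ (hr _))
  have hradd : ∀ v w : VV K, br (r (v + w)) = br (r v * r w) := fun v w =>
    hrep _ _ (by rw [hr, vm_mul, hr, hr])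
  let q1 : VV K → VV K →+ BQ K := fun v => AddMonoidHom.mk' (fun w => sy (r v) (r w))
    (fun w w' => by
      show sy (r v) (r (w + w')) = sy (r v) (r w) + sy (r v) (r w')
      rw [hcg _ _ _ _ rfl (hradd w w'), sy_eq_add]
      exact bil1 _ _ _)
  let q2 : VV K → VV K →ₗ[ZMod 2] BQ K := fun v => (q1 v).toZModLinearMap 2
  let q3 : VV K →+ (VV K →ₗ[ZMod 2] BQ K) := AddMonoidHom.mk' q2 (fun v v' => by
    refine LinearMap.ext fun w => ?_
    show sy (r (v + v')) (r w) = sy (r v) (r w) + sy (r v') (r w)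
    rw [hcg _ _ _ _ (hradd v v') rfl, sy_eq_add]
    exact bil2 _ _ _)
  let q : VV K →ₗ[ZMod 2] VV K →ₗ[ZMod 2] BQ K := q3.toZModLinearMap 2
  have hqq : ∀ a b : Kˣ, q (vm a) (vm b) = sy a b := fun a b => hq a b
  have hsy : ∀ a b c d : Kˣ, sy a b = sy c d ↔ pf a b = pf c d := by
    intro a b c d
    rw [sy_eq_iff]
    constructor
    · exact hEQB K hK a b c d
    · intro h
      rw [h, sub_self]
      exact zero_mem _
  refine ⟨q, hqq, ?_, ?_, ?_, ?_, ?_, ?_⟩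
  · intro v w
    obtain ⟨a, rfl⟩ := vm_surj v
    obtain ⟨b, rfl⟩ := vm_surj w
    rw [hqq, hqq, sy_comm]
  · intro v
    obtain ⟨a, rfl⟩ := vm_surj v
    rw [hqq, hqq, hsy, bil5]
  · intro a b c d
    rw [hqq, hqq, hsy]
  · intro a b
    rw [hqq, sy_zero]
    constructor
    · exact hT2F K hK a b
    · intro h
      rw [h]
      exact zero_mem _
  · intro v w v' w' h
    obtain ⟨a, rfl⟩ := vm_surj v
    obtain ⟨b, rfl⟩ := vm_surj w
    obtain ⟨c, rfl⟩ := vm_surj v'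
    obtain ⟨d, rfl⟩ := vm_surj w'
    rw [hqq, hqq, hsy] at h
    obtain ⟨x, hx1, hx2⟩ := hLNK K hK a b c d h
    refine ⟨vm x, ?_, ?_⟩
    · rw [hqq, hqq, hsy, hx1]
    · rw [hqq, hqq, hsy, hx2]
  · intro b
    obtain ⟨c, rfl⟩ := cl_surj b
    obtain ⟨n, u, x, y, hxy⟩ := (hIGN K).1 c.1 c.2
    refine ⟨n, fun i => vm (x i), fun i => vm (y i), ?_⟩
    have h1 : cl c = cl (∑ i, (⟨pf (x i) (y i), pf_mem (x i) (y i)⟩ : ↥((I K) ^ 2))) := by
      rw [cl_eq_iff, hxy, AddSubmonoidClass.coe_finsetSum, ← Finset.sum_sub_distrib]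
      exact Submodule.sum_mem _ fun i _ => bil3 (u i) 2 _ (pf_mem (x i) (y i))
    rw [h1, cl_sum]
    exact Finset.sum_congr rfl fun i _ => (hqq _ _).symm

end Pool.Agent.EWH
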