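import Pool.Agent.EWH.Stmts

/-!
Squad EWH, module QSF: the quaternionic structure of a field.
-/

set_option autoImplicit false

namespace Pool.Agent.EWH

open Pool.Agent.EWG (vm_eq_iff vm_eq_zero)

namespace QSF_

variable {K : Type} [Field K]

/-- the group of square classes -/
abbrev SC (K : Type) [Field K] : Type := Kˣ ⧸ (powMonoidHom 2 : Kˣ →* Kˣ).range

theorem mk_eq_iff (a b : Kˣ) :
    (QuotientGroup.mk a : SC K) = QuotientGroup.mk b ↔ IsSquare (a * b) := vm_eq_iff a b

theorem mk_eq_one (a : Kˣ) : (QuotientGroup.mk a : SC K) = 1 ↔ IsSquare a := vm_eq_zero a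

theorem pf_congr (hREL : Stmt_REL) (h : Two K) {a b c d : Kˣ}
    (h1 : (QuotientGroup.mk a : SC K) = QuotientGroup.mk c)
    (h2 : (QuotientGroup.mk b : SC K) = QuotientGroup.mk d) : pf a b = pf c d := by
  have e1 : br a = br c := ((hREL K h).1 a c).2 ((mk_eq_iff a c).1 h1)
  have e2 : br b = br d := ((hREL K h).1 b d).2 ((mk_eq_iff b d).1 h2)
  unfold pf pf1
  rw [e1, e2]

/-- the set of the classes of the forms `⟨⟨a, b⟩⟩` -/
def QQ (K : Type) [Field K] : Type := {c : W K // ∃ a b : Kˣ, c = pf a b}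

theorem qext (x y : QQ K) : x = y ↔ x.1 = y.1 := Subtype.ext_iff

/-- the quaternionic pairing -/
noncomputable def qq (x y : SC K) : QQ K :=
  ⟨pf x.out y.out, x.out, y.out, rfl⟩

theorem qq_mk (hREL : Stmt_REL) (h : Two K) (a b : Kˣ) :
    (qq (QuotientGroup.mk a : SC K) (QuotientGroup.mk b)).1 = pf a b :=
  pf_congr hREL h (QuotientGroup.out_eq' _) (QuotientGroup.out_eq' _)

theorem zero_mem : ∃ a b : Kˣ, (0 : W K) = pf a b := by
  refine ⟨1, 1, ?_⟩
  unfold pf pf1
  rw [br_one, sub_self, zero_mul]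

/-- the class of the split algebra -/
noncomputable def zq (K : Type) [Field K] : QQ K := ⟨0, zero_mem⟩

theorem zq_val : (zq K).1 = 0 := rfl

end QSF_

open QSF_

theorem qsf_proof (hREL : Stmt_REL) (hLNK : Stmt_LNK) (hBIL : Stmt_BIL) : Stmt_QSF := by
  intro K _ h
  have hq : ∀ a b : Kˣ, (qq (QuotientGroup.mk a : SC K) (QuotientGroup.mk b)).1 = pf a b :=
    qq_mk hREL h
  have hrep : ∀ x : SC K, ∃ a : Kˣ, (QuotientGroup.mk a : SC K) = x := QuotientGroup.mk_surjective
  let S : QS.QStruct :=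
    { G := SC K
      Q := QQ K
      neg := QuotientGroup.mk (-1)
      zero := zq K
      q := qq
      exp_two := by
        intro x
        obtain ⟨a, rfl⟩ := hrep x
        rw [← QuotientGroup.mk_mul, mk_eq_one]
        exact ⟨a, rfl⟩
      surj := by
        rintro ⟨c, a, b, hc⟩
        refine ⟨QuotientGroup.mk a, QuotientGroup.mk b, (qext _ _).2 ?_⟩
        exact (hq a b).trans hc.symm
      qs1 := by
        intro x
        obtain ⟨a, rfl⟩ := hrep x
        refine (qext _ _).2 ?_
        rw [← QuotientGroup.mk_mul, hq]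
        rw [neg_one_mul]
        exact (hBIL K).2.2.2.1 a
      qs2 := by
        intro x y
        obtain ⟨a, rfl⟩ := hrep x
        obtain ⟨b, rfl⟩ := hrep y
        refine (qext _ _).2 ?_
        rw [hq, hq, pf_comm]
      qs3 := by
        intro x y z
        obtain ⟨a, rfl⟩ := hrep x
        obtain ⟨b, rfl⟩ := hrep y
        obtain ⟨c, rfl⟩ := hrep z
        rw [← QuotientGroup.mk_mul, qext, qext, hq, hq, hq, zq_val]
        exact (hBIL K).2.2.2.2.2 a b c
      qs4 := by
        intro x y z w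
        obtain ⟨a, rfl⟩ := hrep x
        obtain ⟨b, rfl⟩ := hrep y
        obtain ⟨c, rfl⟩ := hrep z
        obtain ⟨d, rfl⟩ := hrep w
        intro h0
        rw [qext, hq, hq] at h0
        obtain ⟨e, h1, h2⟩ := hLNK K h a b c d h0
        refine ⟨QuotientGroup.mk e, (qext _ _).2 ?_, (qext _ _).2 ?_⟩
        · rw [hq, hq, h1]
        · rw [hq, hq, h2, h0] }
  refine ⟨S, QuotientGroup.mk' _, QuotientGroup.mk'_surjective _, fun a => mk_eq_one a, rfl,
    fun a b c d => ?_⟩
  show qq (QuotientGroup.mk a : SC K) (QuotientGroup.mk b) = qq (QuotientGroup.mk c) (QuotientGroup.mk d) ↔ _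
  rw [qext, hq, hq]

end Pool.Agent.EWH
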