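import Pool.Agent.EWH.Stmts

/-!
# QXE: the quadratic extension `F(sqrt x)` with its data `QD`
-/

set_option autoImplicit false

namespace Pool.Agent.EWH

open Pool.Agent.EWG (QD)

namespace QXE_

variable {F K : Type} [Field F] [Field K] [Algebra F K]

theorem indep {w : K} (hw : ∀ a : F, algebraMap F K a ≠ w) :
    LinearIndependent F ![(1 : K), w] := by
  rw [LinearIndependent.pair_iff]
  intro a b h
  by_cases hb : b = 0
  · subst hb
    rw [zero_smul, add_zero] at h
    refine ⟨?_, rfl⟩
    rcases smul_eq_zero.1 h with h | h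
    · exact h
    · exact absurd h one_ne_zero
  · exfalso
    apply hw (-(a / b))
    have hb' : algebraMap F K b ≠ 0 := by
      intro h0
      exact hb ((map_eq_zero _).1 h0)
    have h1 : algebraMap F K a + algebraMap F K b * w = 0 := by
      rw [Algebra.smul_def, Algebra.smul_def, mul_one] at h
      exact h
    rw [map_neg, map_div₀]
    field_simp
    linear_combination (-1 : K) * h1

/-- the coordinates with respect to `1, w` -/
theorem coords (h2 : Module.finrank F K = 2) {w : K} (hw : ∀ a : F, algebraMap F K a ≠ w) :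
    ∃ t s : K →ₗ[F] F, (∀ y : K, y = algebraMap F K (t y) + algebraMap F K (s y) * w) ∧
      (∀ a b : F, t (algebraMap F K a + algebraMap F K b * w) = a) ∧
      ∀ a b : F, s (algebraMap F K a + algebraMap F K b * w) = b := by
  have hli := indep (F := F) hw
  let b := basisOfLinearIndependentOfCardEqFinrank hli (by simp [h2])
  have hb0 : b 0 = 1 := by simp [b]
  have hb1 : b 1 = w := by simp [b]
  have e : ∀ a c : F, algebraMap F K a + algebraMap F K c * w = a • b 0 + c • b 1 := by
    intro a c
    rw [hb0, hb1, Algebra.smul_def, Algebra.smul_def, mul_one]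
  refine ⟨b.coord 0, b.coord 1, ?_, ?_, ?_⟩
  · intro y
    rw [e]
    have := b.sum_repr y
    rw [Fin.sum_univ_two] at this
    exact this.symm
  · intro a c
    rw [e]
    simp
  · intro a c
    rw [e]
    simp


/-- the data from an element with square `x` -/
theorem mk {F K : Type} [Field F] [Field K] [Algebra F K] (h2 : (2 : F) ≠ 0)
    (hfr : Module.finrank F K = 2) (x : F) (hxs : ∀ y : F, y ^ 2 ≠ x) (θ : K)
    (hsq : θ ^ 2 = algebraMap F K x) : ∃ E : QD F K, (E.x : F) = x := by
  have hθF : ∀ a : F, algebraMap F K a ≠ θ := by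
    intro a ha
    apply hxs a
    apply (algebraMap F K).injective
    rw [map_pow, ha, hsq]
  have hθ0 : θ ≠ 0 := by
    intro h0
    exact hθF 0 (by rw [map_zero, h0])
  have hx0 : x ≠ 0 := by
    intro h0
    rw [h0, map_zero] at hsq
    exact hθ0 (pow_eq_zero_iff (two_ne_zero) |>.1 hsq)
  obtain ⟨t, s, hd, ht, hs⟩ := coords hfr hθF
  -- uniqueness of coordinates
  have hmul : ∀ a b c d : F, (algebraMap F K a + algebraMap F K b * θ) *
      (algebraMap F K c + algebraMap F K d * θ) =
      algebraMap F K (a * c + x * (b * d)) + algebraMap F K (a * d + b * c) * θ := by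
    intro a b c d
    simp only [map_add, map_mul]
    linear_combination (algebraMap F K b * algebraMap F K d) * hsq
  -- conjugation
  let σ₀ : K →ₗ[F] K :=
    { toFun := fun y => algebraMap F K (t y) - algebraMap F K (s y) * θ
      map_add' := fun y z => by simp only [map_add]; ring
      map_smul' := fun r y => by
        show algebraMap F K (t (r • y)) - algebraMap F K (s (r • y)) * θ =
          r • (algebraMap F K (t y) - algebraMap F K (s y) * θ)
        rw [t.map_smul, s.map_smul, smul_eq_mul, smul_eq_mul, RingHom.map_mul, RingHom.map_mul,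
          Algebra.smul_def]
        ring }
  have hσ₀ : ∀ a b : F, σ₀ (algebraMap F K a + algebraMap F K b * θ) =
      algebraMap F K a - algebraMap F K b * θ := by
    intro a b
    show algebraMap F K (t _) - algebraMap F K (s _) * θ = _
    rw [ht, hs]
  have hσ₀1 : σ₀ 1 = 1 := by
    have := hσ₀ 1 0
    simpa using this
  have hσ₀m : ∀ y z : K, σ₀ (y * z) = σ₀ y * σ₀ z := by
    intro y z
    rw [hd y, hd z, hmul, hσ₀, hσ₀, hσ₀]
    simp only [map_add, map_mul]
    linear_combination (- (algebraMap F K (s y) * algebraMap F K (s z))) * hsq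
  let σ₁ : K →ₐ[F] K := AlgHom.ofLinearMap σ₀ hσ₀1 hσ₀m
  have hσ₁ : ∀ a b : F, σ₁ (algebraMap F K a + algebraMap F K b * θ) =
      algebraMap F K a - algebraMap F K b * θ := hσ₀
  have hσσ : σ₁.comp σ₁ = AlgHom.id F K := by
    ext y
    show σ₁ (σ₁ y) = y
    have e1 : σ₁ y = algebraMap F K (t y) + algebraMap F K (- s y) * θ := by
      conv_lhs => rw [hd y]
      rw [hσ₁, map_neg]
      ring
    rw [e1, hσ₁, map_neg]
    conv_rhs => rw [hd y]
    ring
  let σ : K ≃ₐ[F] K := AlgEquiv.ofAlgHom σ₁ σ₁ hσσ hσσ
  have hσ : ∀ y : K, σ y = σ₁ y := fun y => rfl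
  have hnσ : ∀ y : K, algebraMap F K (t y ^ 2 - x * s y ^ 2) = y * σ₁ y := by
    intro y
    have e1 : σ₁ y = algebraMap F K (t y) - algebraMap F K (s y) * θ := by
      conv_lhs => rw [hd y]
      rw [hσ₁]
    rw [e1]
    conv_rhs => rw [show y * (algebraMap F K (t y) - algebraMap F K (s y) * θ) =
      (algebraMap F K (t y) + algebraMap F K (s y) * θ) *
        (algebraMap F K (t y) - algebraMap F K (s y) * θ) by rw [← hd y]]
    simp only [map_sub, map_mul, map_pow]
    linear_combination ((algebraMap F K (s y)) ^ 2) * hsq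
  let N : K →* F :=
    { toFun := fun y => t y ^ 2 - x * s y ^ 2
      map_one' := by
        have h3 := ht 1 0
        have h4 := hs 1 0
        rw [map_one, map_zero, zero_mul, add_zero] at h3 h4
        rw [h3, h4]
        ring
      map_mul' := fun y z => by
        apply (algebraMap F K).injective
        rw [RingHom.map_mul, hnσ (y * z), hnσ y, hnσ z, map_mul σ₁]
        ring }
  have hN : ∀ y : K, N y = t y ^ 2 - x * s y ^ 2 := fun y => rfl
  refine ⟨(
    { x := Units.mk0 x hx0
      θ := Units.mk0 θ hθ0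
      t := t
      s := s
      σ := σ
      nm := Units.map N
      sq := hsq
      ns := ?_
      dec := hd
      t1 := ?_
      tθ := ?_
      s1 := ?_
      sθ := ?_
      σθ := ?_
      nmσ := ?_
      nmt := ?_ } : QD F K), rfl⟩
  · rintro ⟨y, hy⟩
    apply hxs (y : F)
    have := congrArg (fun u : Fˣ => (u : F)) hy
    simp only [Units.val_mk0, Units.val_mul] at this
    rw [this, pow_two]
  · intro a
    have := ht a 0
    rwa [map_zero, zero_mul, add_zero] at this
  · intro a
    have := ht 0 a
    rwa [map_zero, zero_add] at this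
  · intro a
    have := hs a 0
    rwa [map_zero, zero_mul, add_zero] at this
  · intro a
    have := hs 0 a
    rwa [map_zero, zero_add] at this
  · have := hσ₁ 0 1
    rw [map_zero, map_one, one_mul, zero_add, zero_sub] at this
    exact this
  · intro u
    exact hnσ (u : K)
  · intro u
    rfl

end QXE_

open Polynomial in
theorem qxe_proof : Stmt_QXE := by
  intro F _ h2 x hx
  have hxs : ∀ y : F, y ^ 2 ≠ x := by
    intro y hy
    have hy0 : y ≠ 0 := by
      intro h0
      rw [h0, zero_pow two_ne_zero] at hy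
      exact x.ne_zero hy.symm
    exact hx ⟨Units.mk0 y hy0, Units.ext (by rw [Units.val_mul, Units.val_mk0, ← hy, pow_two])⟩
  have hirr : Irreducible (X ^ 2 - C (x : F) : F[X]) :=
    X_pow_sub_C_irreducible_of_prime Nat.prime_two hxs
  haveI : Fact (Irreducible (X ^ 2 - C (x : F) : F[X])) := ⟨hirr⟩
  have hne : (X ^ 2 - C (x : F) : F[X]) ≠ 0 := hirr.ne_zero
  have hfr : Module.finrank F (AdjoinRoot (X ^ 2 - C (x : F) : F[X])) = 2 := by
    rw [(AdjoinRoot.powerBasis hne).finrank, AdjoinRoot.powerBasis_dim, natDegree_X_pow_sub_C]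
  have hroot : (AdjoinRoot.root (X ^ 2 - C (x : F) : F[X])) ^ 2 =
      algebraMap F (AdjoinRoot (X ^ 2 - C (x : F) : F[X])) x := by
    have h := AdjoinRoot.eval₂_root (X ^ 2 - C (x : F) : F[X])
    rw [eval₂_sub, eval₂_X_pow, eval₂_C, sub_eq_zero] at h
    exact h
  obtain ⟨E, hE⟩ := QXE_.mk h2 hfr (x : F) hxs _ hroot
  exact ⟨AdjoinRoot (X ^ 2 - C (x : F) : F[X]), inferInstance, inferInstance, E, Units.ext hE⟩

end Pool.Agent.EWH
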