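import Pool.Agent.EWH.Stmts

/-!
Module RTD: the dependency of Rosset and Tate.
-/

set_option autoImplicit false

namespace Pool.Agent.EWH

open scoped BigOperators
open Pool.Agent.EWG (Split SN osum ud OB VV vm iu QD sB ud_apply iu_coe)

namespace RTD_

theorem one_pf {K : Type} [Field K] (a : Kˣ) : pf (1 : Kˣ) a = 0 := by
  unfold pf pf1
  rw [br_one, sub_self, zero_mul]

theorem pf_one {K : Type} [Field K] (a : Kˣ) : pf a (1 : Kˣ) = 0 := by
  rw [pf_comm, one_pf]

theorem inF {F K : Type} [Field F] [Field K] [Algebra F K] (E : QD F K) (w : Kˣ)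
    (h : E.s w = 0) : ∃ b : Fˣ, iu F b * w = 1 := by
  have hw : (w : K) = algebraMap F K (E.t w) := by
    have := E.dec (w : K)
    rw [h, map_zero, zero_mul, add_zero] at this
    exact this
  have ht : E.t w ≠ 0 := by
    intro h0
    rw [h0, map_zero] at hw
    exact w.ne_zero hw
  refine ⟨(Units.mk0 _ ht)⁻¹, ?_⟩
  apply Units.ext
  rw [Units.val_mul, iu_coe, Units.val_inv_eq_inv_val, Units.val_mk0, Units.val_one]
  nth_rw 2 [hw]
  rw [← map_mul, inv_mul_cancel₀ ht, map_one]

end RTD_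

open RTD_

theorem rtd_proof (_hREL : Stmt_REL) (hPFZ : Stmt_PFZ) (hBIL : Stmt_BIL) : Stmt_RTD := by
  intro F K _ _ _ hF E w y
  have hK : Two K := Two.map (algebraMap F K) hF
  by_cases hw : E.s w = 0
  · obtain ⟨b, hb⟩ := inF E w hw
    exact ⟨b, 1, by rw [hb, one_pf]⟩
  by_cases hy : E.s y = 0
  · obtain ⟨c, hc⟩ := inF E y hy
    exact ⟨1, c, by rw [hc, pf_one]⟩
  have key : algebraMap F K (E.s y) * w - algebraMap F K (E.s w) * y =
      algebraMap F K (E.s y * E.t w - E.s w * E.t y) := by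
    have h1 := E.dec (w : K)
    have h2 := E.dec (y : K)
    rw [map_sub, map_mul, map_mul]
    linear_combination algebraMap F K (E.s y) * h1 - algebraMap F K (E.s w) * h2
  by_cases he : E.s y * E.t w - E.s w * E.t y = 0
  · refine ⟨Units.mk0 _ hy, -Units.mk0 _ hw, ?_⟩
    rw [he, map_zero, sub_eq_zero] at key
    have h3 : iu F (-Units.mk0 _ hw) * y = -(iu F (Units.mk0 _ hy) * w) := by
      apply Units.ext
      rw [Units.val_mul, iu_coe, Units.val_neg, Units.val_neg, Units.val_mul, iu_coe,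
        Units.val_mk0, Units.val_mk0, key, map_neg, neg_mul]
    rw [h3]
    exact (hBIL K).2.2.2.1 _
  · set e := E.s y * E.t w - E.s w * E.t y with hedef
    refine ⟨Units.mk0 _ hy * (Units.mk0 e he)⁻¹, -Units.mk0 _ hw * (Units.mk0 e he)⁻¹, ?_⟩
    rw [hPFZ K hK]
    refine ⟨1, 1, ?_⟩
    have he' : algebraMap F K e ≠ 0 := (map_ne_zero _).2 he
    simp only [Units.val_mul, iu_coe, Units.val_neg, Units.val_inv_eq_inv_val, Units.val_mk0,
      map_mul, map_neg, map_inv₀]
    have h4 : algebraMap F K e * (algebraMap F K e)⁻¹ = 1 := mul_inv_cancel₀ he'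
    linear_combination (algebraMap F K e)⁻¹ * key + h4

end Pool.Agent.EWH
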