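import Pool.Agent.EWH.Stmts

/-!
Squad EWH, module RTQ: restriction, transfer and conjugation.
-/

set_option autoImplicit false

namespace Pool.Agent.EWH

open scoped BigOperators
open Pool.Agent.EWG (Split SN osum ud OB VV vm iu QD sB iu_coe)

namespace RTQ_

variable {F K : Type} [Field F] [Field K] [Algebra F K]

theorem sig (E : QD F K) (w : K) :
    E.σ w = algebraMap F K (E.t w) - algebraMap F K (E.s w) * E.θ := by
  conv_lhs => rw [E.dec w]
  rw [map_add, map_mul, AlgEquiv.commutes, AlgEquiv.commutes, E.σθ]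
  ring

theorem sigsig (E : QD F K) (w : K) : E.σ (E.σ w) = w := by
  rw [sig E w, map_sub, map_mul, AlgEquiv.commutes, AlgEquiv.commutes, E.σθ]
  conv_rhs => rw [E.dec w]
  ring

end RTQ_

open RTQ_ in
theorem rtq_proof (hSUR : Stmt_SUR) (hREL : Stmt_REL) (hMAP : Stmt_MAP) (hSTR : Stmt_STR) :
    Stmt_RTQ := by
  intro F K _ _ _ hF E
  have hK : Two K := hF.map (algebraMap F K)
  obtain ⟨g, hg, hgc⟩ := hMAP F K (algebraMap F K)
  obtain ⟨j, hj, hjc⟩ := hMAP K K (E.σ : K →+* K)
  have hrs : ∀ a : W F, rs F K a = g a := hgc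
  have hcj : ∀ c : W K, cj E c = j c := hjc
  have hT := hSTR F K hF E
  obtain ⟨-, radd, rsq, -⟩ := hREL K hK
  have hgiu : ∀ a : Fˣ, g (br a) = br (iu F a) := hg
  have hjw : ∀ w w' : Kˣ, (w' : K) = E.σ w → j (br w) = br w' := by
    intro w w' h
    rw [hj w]
    congr 1
    ext
    rw [h]
    rfl
  refine ⟨?_, ?_, ?_, ?_⟩
  · intro u c hu
    -- one unit
    have key : ∀ w : Kˣ, g (tr E (br w)) = br u * (br w - j (br w)) := by
      intro w
      obtain ⟨w', hw'⟩ : ∃ w' : Kˣ, (w' : K) = E.σ w :=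
        ⟨Units.map ((E.σ : K →+* K) : K →* K) w, rfl⟩
      rw [hjw w w' hw']
      by_cases hs : E.s w = 0
      · rw [(hT w).2 hs, map_zero]
        have : w' = w := by
          ext
          rw [hw', sig E w, hs, map_zero, zero_mul, sub_zero]
          conv_rhs => rw [E.dec w, hs, map_zero, zero_mul, add_zero]
        rw [this, sub_self, mul_zero]
      · have h1 := (hT w).1 (Units.mk0 _ hs) rfl
        rw [h1]
        set β : Fˣ := Units.mk0 _ hs with hβ
        have hβ' : (β : F) = E.s w := rfl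
        have e1 : ((iu F β * u ^ 2 : Kˣ) : K) = (u * w : Kˣ) + (-(u * w') : Kˣ) := by
          push_cast
          rw [iu_coe, hβ', hu, hw', sig E w]
          conv_rhs => rw [E.dec w]
          simp only [map_add, E.t1, E.tθ, E.s1, E.sθ, zero_add, add_zero]
          ring
        have h2 := radd (u * w) (-(u * w')) (iu F β * u ^ 2) e1
        have e2 : (u * w) * (-(u * w')) * (iu F β * u ^ 2)
            = -(iu F (β * E.nm w) * (u ^ 2) ^ 2) := by
          ext
          simp only [Units.val_mul, Units.val_neg, Units.val_pow_eq_pow_val, iu_coe, map_mul,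
            E.nmσ, hw']
          ring
        have e3 : g (br β * pf1 (E.nm w)) = br (iu F β) - br (iu F (β * E.nm w)) := by
          have : br β * pf1 (E.nm w) = br β - br (β * E.nm w) := by
            rw [br_mul]
            unfold pf1
            ring
          rw [this, map_sub, hgiu, hgiu]
        rw [e2, br_neg, br_neg, rsq, rsq] at h2
        rw [e3, mul_sub, ← br_mul, ← br_mul, sub_eq_add_neg, ← h2, ← sub_eq_add_neg]
    obtain ⟨n, w, rfl⟩ := hSUR K c
    rw [hrs, hcj, map_sum, map_sum, map_sum, ← Finset.sum_sub_distrib, Finset.mul_sum]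
    exact Finset.sum_congr rfl fun i _ => key (w i)
  · intro a
    obtain ⟨n, f, rfl⟩ := hSUR F a
    rw [hrs, map_sum, map_sum]
    refine Finset.sum_eq_zero fun i _ => ?_
    rw [hgiu]
    exact (hT _).2 (by rw [iu_coe, E.s1])
  · intro a
    obtain ⟨n, f, rfl⟩ := hSUR F a
    rw [hcj, hrs, map_sum, map_sum]
    refine Finset.sum_congr rfl fun i _ => ?_
    rw [hgiu]
    exact hjw _ _ (by rw [iu_coe, AlgEquiv.commutes])
  · intro c
    obtain ⟨n, w, rfl⟩ := hSUR K c
    rw [hcj, hcj, map_sum, map_sum]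
    refine Finset.sum_congr rfl fun i _ => ?_
    obtain ⟨w', hw'⟩ : ∃ w' : Kˣ, (w' : K) = E.σ (w i) :=
      ⟨Units.map ((E.σ : K →+* K) : K →* K) (w i), rfl⟩
    rw [hjw (w i) w' hw']
    exact hjw w' (w i) (by rw [hw', sigsig])

end Pool.Agent.EWH
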