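import Pool.Agent.EWH.Stmts

/-!
Squad EWH: module SCL (class and vanishing of the transferred form)
-/

set_option autoImplicit false

namespace Pool.Agent.EWH

open scoped BigOperators
open Pool.Agent.EWG (Split SN osum ud OB VV vm iu QD sB sB_apply ud_apply)

namespace SCL_

variable {F K : Type} [Field F] [Field K] [Algebra F K]

/-- the basis `1, θ - c` -/
theorem basis1 (E : QD F K) (c : F) : ∃ b : Module.Basis (Fin 2) F K, b 0 = 1 ∧
    b 1 = (E.θ : K) - algebraMap F K c := by
  have hli : LinearIndependent F ![(1 : K), (E.θ : K) - algebraMap F K c] := by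
    rw [LinearIndependent.pair_iff]
    intro a b h
    have h0 : algebraMap F K (a - b * c) + algebraMap F K b * E.θ = 0 := by
      rw [Algebra.smul_def, Algebra.smul_def] at h
      rw [map_sub, map_mul]
      linear_combination h
    have h1 := congrArg E.s h0
    rw [map_add, E.s1, E.sθ, map_zero, zero_add] at h1
    have h2 := congrArg E.t h0
    rw [map_add, E.t1, E.tθ, map_zero, add_zero, h1, zero_mul, sub_zero] at h2
    exact ⟨h2, h1⟩
  have hsp : ⊤ ≤ Submodule.span F (Set.range ![(1 : K), (E.θ : K) - algebraMap F K c]) := by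
    intro w _
    have h1 : w = (E.t w + c * E.s w) • (1 : K) + (E.s w) • ((E.θ : K) - algebraMap F K c) := by
      rw [Algebra.smul_def, Algebra.smul_def, map_add, map_mul]
      have := E.dec w
      linear_combination this
    rw [h1]
    refine Submodule.add_mem _ (Submodule.smul_mem _ _ (Submodule.subset_span ⟨0, rfl⟩))
      (Submodule.smul_mem _ _ (Submodule.subset_span ⟨1, rfl⟩))
  refine ⟨Module.Basis.mk hli hsp, ?_, ?_⟩
  · rw [Module.Basis.mk_apply]; rfl
  · rw [Module.Basis.mk_apply]; rfl

/-- the basis `1 + θ, 1 - θ` -/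
theorem basis2 (E : QD F K) (h2 : (2 : F) ≠ 0) : ∃ b : Module.Basis (Fin 2) F K,
    b 0 = 1 + (E.θ : K) ∧ b 1 = 1 - (E.θ : K) := by
  have hli : LinearIndependent F ![(1 : K) + (E.θ : K), 1 - (E.θ : K)] := by
    rw [LinearIndependent.pair_iff]
    intro a b h
    have h0 : algebraMap F K (a + b) + algebraMap F K (a - b) * E.θ = 0 := by
      rw [Algebra.smul_def, Algebra.smul_def] at h
      rw [map_sub, map_add]
      linear_combination h
    have h1 := congrArg E.s h0
    rw [map_add, E.s1, E.sθ, map_zero, zero_add] at h1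
    have h3 := congrArg E.t h0
    rw [map_add, E.t1, E.tθ, map_zero, add_zero] at h3
    have h4 : 2 * a = 0 := by linear_combination h1 + h3
    have h5 : 2 * b = 0 := by linear_combination h3 - h1
    exact ⟨(mul_eq_zero.1 h4).resolve_left h2, (mul_eq_zero.1 h5).resolve_left h2⟩
  have hsp : ⊤ ≤ Submodule.span F (Set.range ![(1 : K) + (E.θ : K), 1 - (E.θ : K)]) := by
    intro w _
    have h1 : w = ((E.t w + E.s w) / 2) • ((1 : K) + E.θ) +
        ((E.t w - E.s w) / 2) • ((1 : K) - E.θ) := by
      have e1 : algebraMap F K ((E.t w + E.s w) / 2) + algebraMap F K ((E.t w - E.s w) / 2) =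
          algebraMap F K (E.t w) := by
        rw [← map_add]
        congr 1
        field_simp
        ring
      have e2 : algebraMap F K ((E.t w + E.s w) / 2) - algebraMap F K ((E.t w - E.s w) / 2) =
          algebraMap F K (E.s w) := by
        rw [← map_sub]
        congr 1
        field_simp
        ring
      rw [Algebra.smul_def, Algebra.smul_def]
      have := E.dec w
      linear_combination this - e1 - e2 * (E.θ : K)
    rw [h1]
    refine Submodule.add_mem _ (Submodule.smul_mem _ _ (Submodule.subset_span ⟨0, rfl⟩))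
      (Submodule.smul_mem _ _ (Submodule.subset_span ⟨1, rfl⟩))
  refine ⟨Module.Basis.mk hli hsp, ?_, ?_⟩
  · rw [Module.Basis.mk_apply]; rfl
  · rw [Module.Basis.mk_apply]; rfl

theorem one (hREL : Stmt_REL) (hF : Two F) (E : QD F K) (w : Kˣ) :
    ∃ (b : Module.Basis (Fin 2) F K) (a : Fin 2 → Fˣ),
      (∀ j j', j ≠ j' → E.s (w * b j * b j') = 0) ∧ (∀ j, E.s (w * b j * b j) = (a j : F)) ∧
      (∀ β : Fˣ, (β : F) = E.s w → br (a 0) + br (a 1) = br β * pf1 (E.nm w)) ∧
      (E.s w = 0 → br (a 0) + br (a 1) = 0) := by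
  obtain ⟨-, -, hR3, -⟩ := hREL F hF
  have hdec := E.dec (w : K)
  have hsq := E.sq
  by_cases hβ : E.s (w : K) = 0
  · -- `w` is in `F`
    obtain ⟨b, hb0, hb1⟩ := basis2 E hF
    rw [hβ, map_zero, zero_mul, add_zero] at hdec
    have hα : E.t (w : K) ≠ 0 := by
      intro h
      rw [h, map_zero] at hdec
      exact w.ne_zero hdec
    obtain ⟨α, hαd⟩ : ∃ α : Fˣ, (α : F) = 2 * E.t (w : K) :=
      ⟨Units.mk0 _ (mul_ne_zero hF hα), rfl⟩
    have h01 : E.s (w * (1 + (E.θ : K)) * (1 - (E.θ : K))) = 0 := by
      have e1 : (w : K) * (1 + (E.θ : K)) * (1 - (E.θ : K)) =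
          algebraMap F K (E.t w * (1 - E.x)) := by
        rw [map_mul, map_sub, map_one, ← hsq, ← hdec]
        ring
      rw [e1, E.s1]
    refine ⟨b, ![α, -α], ?_, ?_, ?_, ?_⟩
    · intro j j' hj
      fin_cases j <;> fin_cases j'
      · exact absurd rfl hj
      · simp only [Fin.zero_eta, Fin.mk_one, Fin.isValue]
        rw [hb0, hb1]
        exact h01
      · simp only [Fin.zero_eta, Fin.mk_one, Fin.isValue]
        rw [hb0, hb1, mul_assoc, mul_comm (1 - (E.θ : K)), ← mul_assoc]
        exact h01
      · exact absurd rfl hj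
    · intro j
      fin_cases j
      · simp only [Fin.zero_eta, Fin.isValue, Matrix.cons_val_zero]
        rw [hb0, hαd]
        have e1 : (w : K) * (1 + (E.θ : K)) * (1 + (E.θ : K)) =
            algebraMap F K (E.t w * (1 + E.x)) + algebraMap F K (2 * E.t w) * E.θ := by
          rw [map_mul, map_add, map_one, ← hsq, map_mul, ← hdec, map_ofNat]
          ring
        rw [e1, map_add, E.s1, E.sθ, zero_add]
      · simp only [Fin.mk_one, Fin.isValue, Matrix.cons_val_one, Matrix.cons_val_fin_one]
        rw [hb1, Units.val_neg, hαd]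
        have e1 : (w : K) * (1 - (E.θ : K)) * (1 - (E.θ : K)) =
            algebraMap F K (E.t w * (1 + E.x)) + algebraMap F K (-(2 * E.t w)) * E.θ := by
          rw [map_mul, map_add, map_one, ← hsq, map_neg, map_mul, ← hdec, map_ofNat]
          ring
        rw [e1, map_add, E.s1, E.sθ, zero_add]
    · intro β hβ'
      exact absurd (hβ'.trans hβ) β.ne_zero
    · intro _
      simp only [Matrix.cons_val_zero, Matrix.cons_val_one, Matrix.cons_val_fin_one]
      rw [br_neg, add_neg_cancel]
  · -- general case
    obtain ⟨β, hβd⟩ : ∃ β : Fˣ, (β : F) = E.s (w : K) := ⟨Units.mk0 _ hβ, rfl⟩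
    obtain ⟨c, hc⟩ : ∃ c : F, c = E.t (w : K) / E.s (w : K) := ⟨_, rfl⟩
    have hα : E.t (w : K) = β * c := by
      rw [hc, hβd]
      field_simp
    obtain ⟨b, hb0, hb1⟩ := basis1 E c
    have hw : (w : K) = algebraMap F K β * ((E.θ : K) + algebraMap F K c) := by
      rw [hα, ← hβd, map_mul] at hdec
      linear_combination hdec
    have hnm : (E.nm w : F) = β ^ 2 * (c ^ 2 - E.x) := by
      rw [E.nmt, hα, ← hβd]
      ring
    have hval : ((-(β * E.nm w * (β⁻¹) ^ 2) : Fˣ) : F) = β * (E.x - c ^ 2) := by
      have hb : (β : F) ≠ 0 := β.ne_zero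
      rw [Units.val_neg, Units.val_mul, Units.val_mul, Units.val_pow_eq_pow_val,
        Units.val_inv_eq_inv_val, hnm]
      field_simp
      ring
    have h01 : (w : K) * ((E.θ : K) - algebraMap F K c) = algebraMap F K (β * (E.x - c ^ 2)) := by
      rw [map_mul, map_sub, map_pow, ← hsq, hw]
      ring
    refine ⟨b, ![β, -(β * E.nm w * (β⁻¹) ^ 2)], ?_, ?_, ?_, ?_⟩
    · intro j j' hj
      fin_cases j <;> fin_cases j'
      · exact absurd rfl hj
      · simp only [Fin.zero_eta, Fin.mk_one, Fin.isValue]
        rw [hb0, hb1, mul_one, h01, E.s1]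
      · simp only [Fin.zero_eta, Fin.mk_one, Fin.isValue]
        rw [hb0, hb1, mul_one, h01, E.s1]
      · exact absurd rfl hj
    · intro j
      fin_cases j
      · simp only [Fin.zero_eta, Fin.isValue, Matrix.cons_val_zero]
        rw [hb0, mul_one, mul_one, hβd]
      · simp only [Fin.mk_one, Fin.isValue, Matrix.cons_val_one, Matrix.cons_val_fin_one]
        rw [hb1, hval, h01, mul_sub, ← map_mul, map_sub, E.s1, E.sθ, sub_zero]
    · intro β' hβ'
      have : β' = β := Units.ext (hβ'.trans hβd.symm)
      rw [this]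
      simp only [Matrix.cons_val_zero, Matrix.cons_val_one, Matrix.cons_val_fin_one]
      rw [br_neg, hR3, br_mul]
      unfold pf1
      ring
    · intro h
      exact absurd h hβ

end SCL_

open SCL_ in
theorem scl_proof (hREL : Stmt_REL) : Stmt_SCL := by
  intro F K _ _ _ hF E n w
  choose b a h1 h2 h3 h4 using fun i => one hREL hF E (w i)
  refine ⟨(Pi.basis b).reindex (Equiv.sigmaEquivProd (Fin n) (Fin 2)), a, ?_, ?_⟩
  · have hv : ∀ i : Fin n × Fin 2, ((Pi.basis b).reindex (Equiv.sigmaEquivProd (Fin n) (Fin 2))) i =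
        Pi.single i.1 (b i.1 i.2) := by
      intro i
      rw [Module.Basis.reindex_apply, Pi.basis_apply]
      rfl
    have hB : ∀ (i i' : Fin n) (x y : K), sB E (ud w) (Pi.single i x) (Pi.single i' y) =
        if i = i' then E.s (w i * x * y) else 0 := by
      intro i i' x y
      rw [sB_apply, ud_apply]
      split_ifs with h
      · subst h
        congr 1
        rw [Finset.sum_eq_single i]
        · simp
        · intro k _ hk
          rw [Pi.single_eq_of_ne hk]
          simp
        · intro hk
          exact absurd (Finset.mem_univ i) hk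
      · rw [Finset.sum_eq_zero, map_zero]
        intro k _
        by_cases hk : k = i
        · subst hk
          rw [Pi.single_eq_of_ne h, mul_zero]
        · rw [Pi.single_eq_of_ne hk]
          simp
    constructor
    · intro i j hij
      rw [hv, hv, hB]
      split_ifs with h
      · obtain ⟨i1, i2⟩ := i
        obtain ⟨j1, j2⟩ := j
        simp only at h
        subst h
        exact h1 i1 i2 j2 fun h' => hij (by rw [h'])
      · rfl
    · intro i
      rw [hv, hB, if_pos rfl]
      exact h2 i.1 i.2
  · intro i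
    exact ⟨h3 i, h4 i⟩

end Pool.Agent.EWH
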