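import Pool.Agent.EWH.Stmts

/-!
Module SDD: the discriminant of a split form (problem MP_d26ff6_al, field part).
-/

set_option autoImplicit false

namespace Pool.Agent.EWH

open scoped BigOperators
open Pool.Agent.EWG (Split SN osum ud OB VV vm iu QD sB ud_apply)

namespace SDD_

/-- the matrix `(0 1; -1 0)` -/
def sw (K : Type) [Field K] (m : ℕ) : Matrix (Fin m ⊕ Fin m) (Fin m ⊕ Fin m) K :=
  Matrix.fromBlocks (0 : Matrix (Fin m) (Fin m) K) (1 : Matrix (Fin m) (Fin m) K)
    (-1 : Matrix (Fin m) (Fin m) K) (0 : Matrix (Fin m) (Fin m) K)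

lemma sw_det {K : Type} [Field K] {m : ℕ} : (sw K m).det = 1 := by
  have h : sw K m = Matrix.fromBlocks (1 : Matrix (Fin m) (Fin m) K) (1 : Matrix (Fin m) (Fin m) K)
      (0 : Matrix (Fin m) (Fin m) K) (1 : Matrix (Fin m) (Fin m) K) *
      (Matrix.fromBlocks (1 : Matrix (Fin m) (Fin m) K) (0 : Matrix (Fin m) (Fin m) K)
      (-1 : Matrix (Fin m) (Fin m) K) (1 : Matrix (Fin m) (Fin m) K) *
      Matrix.fromBlocks (1 : Matrix (Fin m) (Fin m) K) (1 : Matrix (Fin m) (Fin m) K)
      (0 : Matrix (Fin m) (Fin m) K) (1 : Matrix (Fin m) (Fin m) K)) := by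
    unfold sw
    rw [Matrix.fromBlocks_multiply, Matrix.fromBlocks_multiply]
    simp
  rw [h, Matrix.det_mul, Matrix.det_mul, Matrix.det_fromBlocks_zero₂₁,
    Matrix.det_fromBlocks_zero₁₂]
  simp

/-- the determinant of a symmetric matrix with a zero block -/
lemma block {K : Type} [Field K] {m : ℕ} (A C : Matrix (Fin m) (Fin m) K) :
    (Matrix.fromBlocks 0 A A.transpose C).det = (-1) ^ m * (A.det * A.det) := by
  have h1 : (Matrix.fromBlocks 0 A A.transpose C).det * (sw K m).det =
      (-1) ^ m * (A.det * A.det) := by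
    rw [← Matrix.det_mul]
    unfold sw
    rw [Matrix.fromBlocks_multiply]
    simp only [Matrix.zero_mul, Matrix.mul_one, Matrix.mul_zero, zero_add, add_zero]
    rw [Matrix.det_fromBlocks_zero₁₂, Matrix.det_transpose, Matrix.mul_neg, Matrix.mul_one,
      Matrix.det_neg, Fintype.card_fin]
    ring
  rwa [sw_det, mul_one] at h1

end SDD_

open SDD_ in
theorem sdd_proof : Stmt_SDD := by
  intro K _ hK n a hsp
  obtain ⟨N, hN, hdim⟩ := hsp
  rw [Module.finrank_fintype_fun_eq_card, Fintype.card_fin] at hdim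
  obtain ⟨N', hc⟩ := Submodule.exists_isCompl N
  have hd : Module.finrank K N + Module.finrank K N' = n := by
    have h := Submodule.finrank_add_eq_of_isCompl hc
    rwa [Module.finrank_fintype_fun_eq_card, Fintype.card_fin] at h
  obtain ⟨m, hm⟩ : ∃ m, Module.finrank K N = m := ⟨_, rfl⟩
  have hm' : Module.finrank K N' = m := by omega
  have hnm : n = m + m := by omega
  let b1 : Module.Basis (Fin m) K N := Module.finBasisOfFinrankEq K N hm
  let b2 : Module.Basis (Fin m) K N' := Module.finBasisOfFinrankEq K N' hm'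
  let b : Module.Basis (Fin m ⊕ Fin m) K (Fin n → K) :=
    (b1.prod b2).map (Submodule.prodEquivOfIsCompl N N' hc)
  have hb1 : ∀ j : Fin m, b (Sum.inl j) = (b1 j : Fin n → K) := by
    intro j
    simp [b]
  let e : Fin m ⊕ Fin m ≃ Fin n := Fintype.equivOfCardEq (by simp [hnm])
  let Q : Matrix (Fin n) (Fin n) K := (Pi.basisFun K (Fin n)).toMatrix (b.reindex e)
  have hQ : Q.det ≠ 0 := by
    intro h0
    have h1 := congrArg Matrix.det (Module.Basis.toMatrix_mul_toMatrix_flip (Pi.basisFun K (Fin n)) (b.reindex e))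
    rw [Matrix.det_mul, Matrix.det_one] at h1
    have h2 : ((Pi.basisFun K (Fin n)).toMatrix (b.reindex e)).det = 0 := h0
    rw [h2, zero_mul] at h1
    exact zero_ne_one h1
  let G : Matrix (Fin m ⊕ Fin m) (Fin m ⊕ Fin m) K := Matrix.of fun j k => ud a (b j) (b k)
  have hG : G = Matrix.fromBlocks 0 (G.toBlocks₁₂) (G.toBlocks₁₂).transpose G.toBlocks₂₂ := by
    conv_lhs => rw [← Matrix.fromBlocks_toBlocks G]
    have h11 : G.toBlocks₁₁ = 0 := by
      ext j k
      show ud a (b (Sum.inl j)) (b (Sum.inl k)) = 0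
      rw [hb1, hb1]
      exact hN _ (b1 j).2 _ (b1 k).2
    have h21 : G.toBlocks₂₁ = (G.toBlocks₁₂).transpose := by
      ext j k
      show ud a (b (Sum.inr j)) (b (Sum.inl k)) = ud a (b (Sum.inl k)) (b (Sum.inr j))
      rw [ud_apply, ud_apply]
      refine Finset.sum_congr rfl fun x _ => ?_
      ring
    rw [h11, h21]
  have hcc := block G.toBlocks₁₂ G.toBlocks₂₂
  set c := G.toBlocks₁₂.det with hcdef
  rw [← hG] at hcc
  have hGQ : G.submatrix e.symm e.symm = Q.transpose * (Matrix.diagonal fun x => (a x : K)) * Q := by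
    ext j k
    show ud a (b (e.symm j)) (b (e.symm k)) = _
    rw [ud_apply, Matrix.mul_apply]
    refine Finset.sum_congr rfl fun x _ => ?_
    rw [Matrix.mul_diagonal, Matrix.transpose_apply]
    show (a x : K) * b (e.symm j) x * b (e.symm k) x = Q x j * (a x : K) * Q x k
    have hq : ∀ j, Q x j = b (e.symm j) x := by
      intro j
      show (Pi.basisFun K (Fin n)).toMatrix (b.reindex e) x j = _
      rw [Module.Basis.toMatrix_apply, Module.Basis.reindex_apply]
      simp
    rw [hq, hq]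
    ring
  have hdet : (∏ x, (a x : K)) * (Q.det * Q.det) = (-1) ^ m * (c * c) := by
    have h1 := congrArg Matrix.det hGQ
    rw [Matrix.det_submatrix_equiv_self, hcc, Matrix.det_mul, Matrix.det_mul, Matrix.det_transpose,
      Matrix.det_diagonal] at h1
    rw [h1]
    ring
  have hne : (∏ x, (a x : K)) ≠ 0 := Finset.prod_ne_zero_iff.2 fun x _ => (a x).ne_zero
  have hc0 : c ≠ 0 := by
    intro hc0
    rw [hc0, mul_zero, mul_zero] at hdet
    exact (mul_ne_zero hne (mul_ne_zero hQ hQ)) hdet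
  refine ⟨m, by omega, Units.mk0 c hc0 * (Units.mk0 Q.det hQ)⁻¹, ?_⟩
  apply Units.ext
  rw [Units.val_mul, Units.val_pow_eq_pow_val, Units.val_neg, Units.val_one, Units.coe_prod,
    Units.val_mul, Units.val_mul, Units.val_mk0, Units.val_inv_eq_inv_val, Units.val_mk0]
  have hm2 : ((-1 : K) ^ m) * (-1) ^ m = 1 := by
    rw [← mul_pow]; simp
  have h5 : ((-1 : K) ^ m * ∏ x, (a x : K)) * (Q.det * Q.det) = c * c := by
    rw [mul_assoc, hdet, ← mul_assoc, hm2, one_mul]
  calc (-1 : K) ^ m * ∏ x, (a x : K)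
      = (((-1 : K) ^ m * ∏ x, (a x : K)) * (Q.det * Q.det)) * (Q.det⁻¹ * Q.det⁻¹) := by
        field_simp
    _ = c * Q.det⁻¹ * (c * Q.det⁻¹) := by rw [h5]; ring

end Pool.Agent.EWH
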