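import Pool.Agent.EWH.Stmts

/-!
Module SLK of the squad EWH (MP_d26ff6_al): a slot of `⟨⟨a, b⟩⟩` orthogonal to `c`.
-/

set_option autoImplicit false

namespace Pool.Agent.EWH

theorem slk_proof (hREL : Stmt_REL) (hPFZ : Stmt_PFZ) (hPF3 : Stmt_PF3) (hPUR : Stmt_PUR) :
    Stmt_SLK := by
  intro K _ hK a b c h
  obtain ⟨-, -, -, r4⟩ := hREL K hK
  obtain ⟨s, t, u, v, hc⟩ := (hPF3 K hK a b c).1 h
  by_cases hp : (a : K) * t ^ 2 + b * u ^ 2 - a * b * v ^ 2 = 0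
  · refine ⟨a, b, rfl, ?_⟩
    have hs : (c : K) = s ^ 2 := by rw [hc]; linear_combination -hp
    have hsq : IsSquare c := by
      have hs0 : s ≠ 0 := by
        rintro rfl
        exact c.ne_zero (by rw [hs]; ring)
      refine ⟨Units.mk0 s hs0, ?_⟩
      ext
      push_cast
      rw [Units.val_mk0, hs]; ring
    unfold pf
    rw [(r4 c).2 hsq, zero_mul]
  · obtain ⟨v', hv'⟩ := (hPUR K hK a b (Units.mk0 _ hp)).2 ⟨t, u, v, rfl⟩
    refine ⟨_, v', hv', ?_⟩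
    rw [pf_comm]
    refine (hPFZ K hK _ c).2 ⟨s, 1, ?_⟩
    rw [hc, Units.val_mk0]
    ring

end Pool.Agent.EWH
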