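import Pool.Agent.EWH.Stmts

set_option autoImplicit false

namespace Pool.Agent.EWH

open Pool.Agent.EWG (Split SN osum ud OB VV vm iu QD sB)
open Pool.Agent.EWG (ud_apply)

namespace SP2_

variable {K : Type} [Field K]

/-- the standard basis is orthogonal for a diagonal form -/
theorem ob_std {ι : Type} [Fintype ι] [DecidableEq ι] (a : ι → Kˣ) :
    OB (ud a) (Pi.basisFun K ι) a := by
  constructor
  · intro i j hij
    rw [ud_apply]
    apply Finset.sum_eq_zero
    intro k _
    simp only [Pi.basisFun_apply, Pi.single_apply]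
    by_cases h1 : k = i
    · have h2 : k ≠ j := fun h => hij (h1.symm.trans h)
      simp [h2]
    · simp [h1]
  · intro i
    rw [ud_apply, Finset.sum_eq_single i]
    · simp
    · intro k _ hk
      simp [Pi.basisFun_apply, hk]
    · intro h; exact absurd (Finset.mem_univ i) h

variable {V : Type} [AddCommGroup V] [Module K V] [FiniteDimensional K V]

theorem finrank_ker (B : LinearMap.BilinForm K V) (n : ℕ) (hn : Module.finrank K V = n + 2)
    (v : V) (d : Kˣ) (hd : B v v = (d : K)) :
    Module.finrank K (LinearMap.ker (B v)) = n + 1 := by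
  have h := LinearMap.finrank_range_add_finrank_ker (B v)
  have hs : LinearMap.range (B v) = ⊤ := by
    rw [LinearMap.range_eq_top]
    intro c
    refine ⟨(c * (d : K)⁻¹) • v, ?_⟩
    rw [map_smul, hd, smul_eq_mul, mul_assoc, inv_mul_cancel₀ d.ne_zero, mul_one]
  rw [hs, finrank_top, Module.finrank_self, hn] at h
  omega

theorem sn_ker (B : LinearMap.BilinForm K V) (hB : SN B) (v : V) (d : Kˣ)
    (hd : B v v = (d : K)) :
    SN (LinearMap.BilinForm.restrict B (LinearMap.ker (B v))) := by
  constructor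
  · intro x y
    exact hB.1 _ _
  · intro x hx
    have hxv : B (x : V) v = 0 := by
      rw [hB.1]; exact x.2
    have : (x : V) = 0 := by
      apply hB.2
      intro y
      have hy : y - (B v y * (d : K)⁻¹) • v ∈ LinearMap.ker (B v) := by
        rw [LinearMap.mem_ker, map_sub, map_smul, hd, smul_eq_mul, mul_assoc,
          inv_mul_cancel₀ d.ne_zero, mul_one, sub_self]
      have h1 : B (x : V) (y - (B v y * (d : K)⁻¹) • v) = 0 := hx ⟨_, hy⟩
      rw [map_sub, map_smul, hxv, smul_zero, sub_zero] at h1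
      exact h1
    exact Subtype.ext this

end SP2_

open SP2_ in
theorem sp2_proof (hDIA : EWG.Stmt_DIA) (hOR1 : EWG.Stmt_OR1) (hCLQ : Stmt_CLQ) : Stmt_SP2 := by
  intro K _ hK n a v w d e hd he hvw
  have hSN : SN (ud a) := hDIA K _ a
  have hrk : Module.finrank K (Fin (n + 2) → K) = n + 2 := by simp
  have hw : w ∈ LinearMap.ker (ud a v) := hvw
  obtain ⟨b, a', hb, hb0, h0⟩ := hOR1 K (LinearMap.ker (ud a v))
    (LinearMap.BilinForm.restrict (ud a) (LinearMap.ker (ud a v))) n hK
    (sn_ker (ud a) hSN v d hd) (finrank_ker (ud a) n hrk v d hd) ⟨w, hw⟩ e he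
  have hbo : ∀ i j, i ≠ j → ud a (b i : Fin (n + 2) → K) (b j) = 0 := fun i j hij => hb.1 i j hij
  have hbv : ∀ i, ud a (b i : Fin (n + 2) → K) (b i) = (a' i : K) := fun i => hb.2 i
  have hvb : ∀ i, ud a v (b i : Fin (n + 2) → K) = 0 := fun i => (b i).2
  have hbv' : ∀ i, ud a (b i : Fin (n + 2) → K) v = 0 := fun i => by
    rw [hSN.1]; exact hvb i
  let f : Fin (n + 2) → (Fin (n + 2) → K) := Fin.cons v (fun i => (b i : Fin (n + 2) → K))
  let a2 : Fin (n + 2) → Kˣ := Fin.cons d a'
  have ho : ∀ i j, i ≠ j → ud a (f i) (f j) = 0 := by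
    intro i j hij
    refine Fin.cases ?_ (fun i => ?_) i hij <;> refine Fin.cases ?_ (fun j => ?_) j
    · intro h; exact absurd rfl h
    · intro _; exact hvb j
    · intro _; exact hbv' i
    · intro h; exact hbo i j (fun h' => h (by rw [h']))
  have hval : ∀ i, ud a (f i) (f i) = (a2 i : K) := by
    intro i
    refine Fin.cases ?_ (fun i => ?_) i
    · exact hd
    · exact hbv i
  have hli : LinearIndependent K f := by
    apply LinearMap.linearIndependent_of_isOrthoᵢ (B := ud a)
    · intro i j hij; exact ho i j hij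
    · intro i h
      have : ud a (f i) (f i) = 0 := h
      rw [hval] at this
      exact (a2 i).ne_zero this
  let bb : Module.Basis (Fin (n + 2)) K (Fin (n + 2) → K) :=
    basisOfLinearIndependentOfCardEqFinrank hli (by simp)
  have hbb : ∀ i, bb i = f i := fun i => by
    simp [bb]
  have hOB : OB (ud a) bb a2 := by
    constructor
    · intro i j hij; rw [hbb, hbb]; exact ho i j hij
    · intro i; rw [hbb]; exact hval i
  refine ⟨fun i => a' i.succ, ?_⟩
  rw [hCLQ K _ hK _ _ (ud a) (Pi.basisFun K (Fin (n + 2))) a bb a2 (ob_std a) hOB,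
    Fin.sum_univ_succ, Fin.sum_univ_succ]
  have e1 : a2 0 = d := rfl
  have e2 : ∀ i : Fin (n + 1), a2 i.succ = a' i := fun i => rfl
  rw [e1, e2 0, h0, add_assoc]
  rfl

end Pool.Agent.EWH
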