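import Pool.Agent.EWH.Stmts

/-! Every element of the Witt ring is the class of a diagonal form. -/

set_option autoImplicit false

namespace Pool.Agent.EWH

open scoped BigOperators

namespace SUR_

theorem nsm {K : Type} [Field K] (x : W K) (h : ∃ (n : ℕ) (a : Fin n → Kˣ), x = ∑ i, br (a i))
    (k : ℕ) : ∃ (n : ℕ) (a : Fin n → Kˣ), k • x = ∑ i, br (a i) := by
  obtain ⟨n, a, ha⟩ := h
  induction k with
  | zero => exact ⟨0, fun i => i.elim0, by simp⟩
  | succ k ih =>
    obtain ⟨m, b, hb⟩ := ih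
    refine ⟨m + n, Fin.append b a, ?_⟩
    rw [Fin.sum_univ_add]
    simp only [Fin.append_left, Fin.append_right]
    rw [← ha, ← hb, succ_nsmul]

theorem ng {K : Type} [Field K] (x : W K) (h : ∃ (n : ℕ) (a : Fin n → Kˣ), x = ∑ i, br (a i)) :
    ∃ (n : ℕ) (a : Fin n → Kˣ), -x = ∑ i, br (a i) := by
  obtain ⟨n, a, ha⟩ := h
  refine ⟨n, fun i => - a i, ?_⟩
  rw [ha, ← Finset.sum_neg_distrib]
  exact Finset.sum_congr rfl fun i _ => (br_neg _).symm

theorem key {K : Type} [Field K] (f : MonoidAlgebra ℤ Kˣ) : ∃ (n : ℕ) (a : Fin n → Kˣ),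
    (Ideal.Quotient.mk (rel K) f : W K) = ∑ i, br (a i) := by
  induction f using MonoidAlgebra.induction_on with
  | of g => exact ⟨1, fun _ => g, by rw [Fin.sum_univ_one]; rfl⟩
  | add f g hf hg =>
    obtain ⟨n, a, ha⟩ := hf
    obtain ⟨m, b, hb⟩ := hg
    refine ⟨n + m, Fin.append a b, ?_⟩
    rw [Fin.sum_univ_add]
    simp only [Fin.append_left, Fin.append_right]
    rw [← ha, ← hb, map_add]
    rfl
  | smul r f hf =>
    rw [map_zsmul]
    obtain ⟨k, rfl | rfl⟩ := Int.eq_nat_or_neg r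
    · rw [natCast_zsmul]
      exact nsm _ hf k
    · rw [neg_smul, natCast_zsmul]
      exact ng _ (nsm _ hf k)

end SUR_

theorem sur_proof : Stmt_SUR := by
  intro K _ c
  obtain ⟨f, hf⟩ := Ideal.Quotient.mk_surjective (I := rel K) c
  obtain ⟨n, a, ha⟩ := SUR_.key f
  exact ⟨n, a, by rw [← hf, ha]⟩

end Pool.Agent.EWH
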