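import Pool.Agent.EWH.Stmts

/-!
# Squad EWH: module T2C (pairs of slots of the threefold form)
-/

set_option autoImplicit false

namespace Pool.Agent.EWH

open scoped BigOperators
open Pool.Agent.EWG (Split SN osum ud OB VV vm iu QD sB iu_coe ud_apply)

namespace T2C_

variable {K : Type} [Field K]

theorem rc_neg (a : Kˣ) : rc (-a) = -rc a := by
  apply Units.ext
  unfold rc
  simp

theorem rc_mul (a b : Kˣ) : rc (a * b) = rc a * rc b := by
  unfold rc
  rw [map_mul]

theorem rc_coe (a : Kˣ) : ((rc a : (RatFunc K)ˣ) : RatFunc K) = RatFunc.C (a : K) := rfl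

/-- `⟨⟨x, y⟩⟩ = ⟨⟨x + y t², -xy⟩⟩` -/
theorem pf_sum {L : Type} [Field L] (hREL : Stmt_REL) (hL : Two L) (x y d T : Lˣ)
    (h : (d : L) = x + y * T ^ 2) : pf x y = pf d (-(x * y)) := by
  obtain ⟨-, h2, h3, -⟩ := hREL L hL
  have e1 : br x + br (y * T ^ 2) = br d + br (x * (y * T ^ 2) * d) :=
    h2 x (y * T ^ 2) d (by rw [h]; push_cast; ring)
  have e2 : br (x * (y * T ^ 2) * d) = br (x * y * d) := by
    have : x * (y * T ^ 2) * d = x * y * d * T ^ 2 := by
      rw [← mul_assoc, mul_right_comm]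
    rw [this, h3]
  rw [h3, e2] at e1
  have e3 : br (x * y * d) = br x * br y * br d := by rw [br_mul, br_mul]
  rw [e3] at e1
  unfold pf pf1
  rw [br_neg, br_mul]
  linear_combination -e1

/-- the sum `x + y t²` is not zero -/
theorem dne (hCA2 : Stmt_CA2) (hK : Two K) (x y : Kˣ) :
    RatFunc.C (x : K) + RatFunc.C (y : K) * RatFunc.X ^ 2 ≠ (0 : RatFunc K) := by
  intro h
  obtain ⟨α, -, hα, -, -⟩ := hCA2 K hK 0 (fun i => i.elim0) x y
    (fun v _ => Subsingleton.elim _ _) (fun i => i.elim0) (by rw [h, ud_apply]; simp)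
  rw [ud_apply] at hα
  simp at hα
  exact x.ne_zero hα.symm

end T2C_

theorem t2c_proof (hSDD : Stmt_SDD) (hWZ : Stmt_WZ) (hSP2 : Stmt_SP2) (hREL : Stmt_REL)
    (hPFI : Stmt_PFI) (hPUR : Stmt_PUR) (hCA2 : Stmt_CA2) (hT2T : Stmt_T2T) (hT2S : Stmt_T2S) :
    Stmt_T2C := by
  intro n hP K _ hK a b x y z hH
  have hL : Two (RatFunc K) := Two.map (RatFunc.C : K →+* RatFunc K) hK
  have hne := T2C_.dne hCA2 hK x y
  let d : (RatFunc K)ˣ := Units.mk0 _ hne
  let T : (RatFunc K)ˣ := Units.mk0 RatFunc.X RatFunc.X_ne_zero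
  have hd : (d : RatFunc K) = RatFunc.C (x : K) + RatFunc.C (y : K) * RatFunc.X ^ 2 := rfl
  have h1 : pf (rc x) (rc y) = pf d (-(rc x * rc y)) :=
    T2C_.pf_sum hREL hL (rc x) (rc y) d T (by rw [hd]; rfl)
  have hHL := hT2T n K hK a b x y z hH
  obtain ⟨v, hv⟩ := hT2S n hP (RatFunc K) hL (rc a) (rc b) (rc x) (rc y) (rc z) d
    (-(rc x * rc y)) (rc z) hHL (by
      have e1 : pf3 (rc x) (rc y) (rc z) = pf (rc x) (rc y) * pf1 (rc z) := rfl
      have e2 : pf3 d (-(rc x * rc y)) (rc z) = pf d (-(rc x * rc y)) * pf1 (rc z) := rfl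
      rw [e1, e2, h1])
  obtain ⟨s, t, u, hstu⟩ := (hPUR (RatFunc K) hL (rc a) (rc b) d).1 ⟨v, hv⟩
  have han : ∀ w, ud (![a, b, -(a * b)] : Fin 3 → Kˣ) w w = 0 → w = 0 := by
    intro w hw
    by_contra hne
    exact hH.1 (((hPFI K hK a b 1).2.1).2 ⟨w, hne, hw⟩)
  obtain ⟨α, β, hα, hβ, hαβ⟩ := hCA2 K hK 3 ![a, b, -(a * b)] x y han ![s, t, u] (by
    rw [← hd, hstu, ud_apply, Fin.sum_univ_three]
    simp only [Matrix.cons_val_zero, Matrix.cons_val_one, Matrix.cons_val_two,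
      Matrix.head_cons, Matrix.tail_cons, T2C_.rc_coe]
    push_cast
    simp
    ring)
  obtain ⟨a', ha'⟩ := hSP2 K hK 1 ![a, b, -(a * b)] α β x y hα hβ hαβ
  set e := a' 0 with he
  have hsum : br a + br b - br a * br b = br x + br y + br e := by
    have h2 := ha'
    rw [Fin.sum_univ_three, Fin.sum_univ_one] at h2
    simp only [Matrix.cons_val_zero, Matrix.cons_val_one, Matrix.cons_val_two,
      Matrix.head_cons, Matrix.tail_cons] at h2
    have h3 : br (-(a * b)) = -(br a * br b) := by rw [br_neg, br_mul]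
    have h4 : br a + br b + br (-(a * b)) = br x + br y + br e := h2
    rw [h3] at h4
    linear_combination h4
  have hsplit : ∑ i, br ((![x, y, e, -a, -b, a * b] : Fin 6 → Kˣ) i) = 0 := by
    rw [Fin.sum_univ_six]
    show br x + br y + br e + br (-a) + br (-b) + br (a * b) = 0
    rw [br_neg, br_neg, br_mul]
    linear_combination -hsum
  obtain ⟨m, hm, hsq⟩ := hSDD K hK 6 _ ((hWZ K hK (Fin 6) _).1 hsplit)
  obtain rfl : m = 3 := by omega
  have hsq2 : IsSquare (e * -(x * y)) := by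
    obtain ⟨c, hc⟩ := hsq
    rw [Fin.prod_univ_six] at hc
    have hc' : (-1 : Kˣ) ^ 3 * (x * y * e * (-a) * (-b) * (a * b)) = c * c := hc
    refine ⟨c * (a * b)⁻¹, ?_⟩
    apply Units.ext
    have hc2 := congrArg (Units.val) hc'
    push_cast at hc2 ⊢
    have ha := a.ne_zero
    have hb := b.ne_zero
    field_simp
    linear_combination hc2
  have hbe : br e = -(br x * br y) := by
    rw [((hREL K hK).1 e (-(x * y))).2 hsq2, br_neg, br_mul]
  unfold pf pf1
  rw [hbe] at hsum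
  linear_combination -hsum

end Pool.Agent.EWH
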