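import Pool.Agent.EWH.Stmts

/-!
# Squad EWH: module T2D (`-xyz` is a square)
-/

set_option autoImplicit false

namespace Pool.Agent.EWH

open scoped BigOperators
open Pool.Agent.EWG (Split SN osum ud OB VV vm iu QD sB iu_coe ud_apply)

namespace T2D_

variable {K : Type} [Field K]

theorem rc_neg (a : Kˣ) : rc (-a) = -rc a := by
  apply Units.ext
  unfold rc
  simp

theorem rc_mul (a b : Kˣ) : rc (a * b) = rc a * rc b := by
  unfold rc
  rw [map_mul]

theorem rc_one : rc (1 : Kˣ) = 1 := by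
  unfold rc
  rw [map_one]

theorem rc_coe (a : Kˣ) : ((rc a : (RatFunc K)ˣ) : RatFunc K) = RatFunc.C (a : K) := rfl

/-- `⟨⟨x, y⟩⟩ = ⟨⟨x + y t², -xy⟩⟩` -/
theorem pf_sum {L : Type} [Field L] (hREL : Stmt_REL) (hL : Two L) (x y d T : Lˣ)
    (h : (d : L) = x + y * T ^ 2) : pf x y = pf d (-(x * y)) := by
  obtain ⟨-, h2, h3, -⟩ := hREL L hL
  have e1 : br x + br (y * T ^ 2) = br d + br (x * (y * T ^ 2) * d) :=
    h2 x (y * T ^ 2) d (by rw [h]; push_cast; ring)
  have e2 : br (x * (y * T ^ 2) * d) = br (x * y * d) := by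
    have : x * (y * T ^ 2) * d = x * y * d * T ^ 2 := by
      rw [← mul_assoc, mul_right_comm]
    rw [this, h3]
  rw [h3, e2] at e1
  have e3 : br (x * y * d) = br x * br y * br d := by rw [br_mul, br_mul]
  rw [e3] at e1
  unfold pf pf1
  rw [br_neg, br_mul]
  linear_combination -e1

/-- the sum `x + y t²` is not zero -/
theorem dne (hCA2 : Stmt_CA2) (hK : Two K) (x y : Kˣ) :
    RatFunc.C (x : K) + RatFunc.C (y : K) * RatFunc.X ^ 2 ≠ (0 : RatFunc K) := by
  intro h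
  obtain ⟨α, -, hα, -, -⟩ := hCA2 K hK 0 (fun i => i.elim0) x y
    (fun v _ => Subsingleton.elim _ _) (fun i => i.elim0) (by rw [h, ud_apply]; simp)
  rw [ud_apply] at hα
  simp at hα
  exact x.ne_zero hα.symm

/-- changing the last two slots over `K(t)` -/
theorem change (hREL : Stmt_REL) (hCA2 : Stmt_CA2) (hT2T : Stmt_T2T) (n : ℕ) (hK : Two K)
    (a b x y z : Kˣ) (hH : HH n K a b x y z) : ∃ d : (RatFunc K)ˣ,
    (d : RatFunc K) = RatFunc.C (y : K) + RatFunc.C (z : K) * RatFunc.X ^ 2 ∧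
    HH n (RatFunc K) (rc a) (rc b) (rc x) d (-(rc y * rc z)) := by
  have hL : Two (RatFunc K) := Two.map (RatFunc.C : K →+* RatFunc K) hK
  have hne := dne hCA2 hK y z
  let d : (RatFunc K)ˣ := Units.mk0 _ hne
  let T : (RatFunc K)ˣ := Units.mk0 RatFunc.X RatFunc.X_ne_zero
  have hd : (d : RatFunc K) = RatFunc.C (y : K) + RatFunc.C (z : K) * RatFunc.X ^ 2 := rfl
  have h1 : pf (rc y) (rc z) = pf d (-(rc y * rc z)) :=
    pf_sum hREL hL (rc y) (rc z) d T (by rw [hd]; rfl)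
  have h2 : pf3 (rc x) d (-(rc y * rc z)) = pf3 (rc x) (rc y) (rc z) := by
    have e1 : pf3 (rc x) (rc y) (rc z) = pf1 (rc x) * pf (rc y) (rc z) := by
      unfold pf3 pf; ring
    have e2 : pf3 (rc x) d (-(rc y * rc z)) = pf1 (rc x) * pf d (-(rc y * rc z)) := by
      unfold pf3 pf; ring
    rw [e1, e2, h1]
  obtain ⟨g1, g2, u, g3⟩ := hT2T n K hK a b x y z hH
  exact ⟨d, hd, g1, by rw [h2]; exact g2, u, by rw [h2]; exact g3⟩

end T2D_

theorem t2d_proof (hREL : Stmt_REL) (hPFZ : Stmt_PFZ) (hBIL : Stmt_BIL) (hCA2 : Stmt_CA2)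
    (hT2T : Stmt_T2T) (hT2C : Stmt_T2C) : Stmt_T2D := by
  intro n hP K _ hK a b x y z hH
  have hL : Two (RatFunc K) := Two.map (RatFunc.C : K →+* RatFunc K) hK
  obtain ⟨d, hd, hHd⟩ := T2D_.change hREL hCA2 hT2T n hK a b x y z hH
  have h1 := hT2C n hP (RatFunc K) hL (rc a) (rc b) (rc x) (rc y) (rc z)
    (hT2T n K hK a b x y z hH)
  have h2 := hT2C n hP (RatFunc K) hL (rc a) (rc b) (rc x) d (-(rc y * rc z)) hHd
  have h3 : pf (rc x) (rc y * d) = 0 := by
    obtain ⟨-, -, -, -, -, hb⟩ := hBIL (RatFunc K)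
    exact (hb (rc x) (rc y) d).1 (by rw [← h1, h2])
  obtain ⟨s, t, hst⟩ := (hPFZ (RatFunc K) hL _ _).1 h3
  have hx : ¬ IsSquare x := by
    intro hs
    apply hH.2.1
    unfold pf3
    rw [((hREL K hK).2.2.2 x).2 hs, zero_mul, zero_mul]
  have han : ∀ w, ud (![1, -x] : Fin 2 → Kˣ) w w = 0 → w = 0 := by
    intro w hw
    rw [ud_apply, Fin.sum_univ_two] at hw
    have hw' : w 0 ^ 2 = (x : K) * w 1 ^ 2 := by
      have h5 : ((1 : Kˣ) : K) * w 0 * w 0 + ((-x : Kˣ) : K) * w 1 * w 1 = 0 := hw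
      push_cast at h5
      linear_combination h5
    have hw1 : w 1 = 0 := by
      by_contra hne
      apply hx
      refine ⟨Units.mk0 (w 0 / w 1) ?_, ?_⟩
      · intro h0
        have h6 : w 0 = 0 := by
          rcases div_eq_zero_iff.1 h0 with h7 | h7
          · exact h7
          · exact absurd h7 hne
        rw [h6] at hw'
        have h8 : (x : K) * w 1 ^ 2 ≠ 0 := mul_ne_zero x.ne_zero (pow_ne_zero 2 hne)
        apply h8
        rw [← hw']
        ring
      · apply Units.ext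
        rw [Units.val_mul, Units.val_mk0]
        field_simp
        linear_combination -hw'
    have hw0 : w 0 = 0 := by
      rw [hw1] at hw'
      have : w 0 ^ 2 = 0 := by rw [hw']; ring
      exact pow_eq_zero_iff (two_ne_zero) |>.1 this
    funext i
    fin_cases i
    · exact hw0
    · exact hw1
  obtain ⟨α, β, hα, hβ, hαβ⟩ := hCA2 K hK 2 ![1, -x] (y * y) (y * z) han ![s, t] (by
    have e1 : RatFunc.C ((y * y : Kˣ) : K) + RatFunc.C ((y * z : Kˣ) : K) * RatFunc.X ^ 2 =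
        ((rc y * d : (RatFunc K)ˣ) : RatFunc K) := by
      rw [Units.val_mul (rc y) d, hd, T2D_.rc_coe, Units.val_mul y y, Units.val_mul y z, map_mul,
        map_mul]
      ring
    rw [e1, hst, ud_apply, Fin.sum_univ_two]
    show ((rc (1 : Kˣ) : (RatFunc K)ˣ) : RatFunc K) * s * s +
      ((rc (-x) : (RatFunc K)ˣ) : RatFunc K) * t * t = _
    rw [T2D_.rc_one, T2D_.rc_neg]
    push_cast
    ring)
  rw [ud_apply, Fin.sum_univ_two] at hα hβ hαβ
  have hα' : α 0 ^ 2 - (x : K) * α 1 ^ 2 = (y : K) * y := by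
    have h5 : ((1 : Kˣ) : K) * α 0 * α 0 + ((-x : Kˣ) : K) * α 1 * α 1 = ((y * y : Kˣ) : K) := hα
    push_cast at h5
    linear_combination h5
  have hβ' : β 0 ^ 2 - (x : K) * β 1 ^ 2 = (y : K) * z := by
    have h5 : ((1 : Kˣ) : K) * β 0 * β 0 + ((-x : Kˣ) : K) * β 1 * β 1 = ((y * z : Kˣ) : K) := hβ
    push_cast at h5
    linear_combination h5
  have hαβ' : α 0 * β 0 - (x : K) * α 1 * β 1 = 0 := by
    have h5 : ((1 : Kˣ) : K) * α 0 * β 0 + ((-x : Kˣ) : K) * α 1 * β 1 = 0 := hαβ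
    push_cast at h5
    linear_combination h5
  have hkey : (y : K) * y * (y * z) = -(x : K) * (α 0 * β 1 - α 1 * β 0) ^ 2 := by
    rw [← hα', ← hβ']
    linear_combination (α 0 * β 0 - (x : K) * α 1 * β 1) * hαβ'
  have hD : α 0 * β 1 - α 1 * β 0 ≠ 0 := by
    intro h0
    rw [h0] at hkey
    have hy := y.ne_zero
    have hz := z.ne_zero
    have : (y : K) * y * (y * z) ≠ 0 := mul_ne_zero (mul_ne_zero hy hy) (mul_ne_zero hy hz)
    exact this (by rw [hkey]; ring)
  refine ⟨y ^ 2 * z * (Units.mk0 _ hD)⁻¹, ?_⟩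
  apply Units.ext
  push_cast
  rw [Units.val_mk0]
  field_simp
  linear_combination -hkey

end Pool.Agent.EWH
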