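import Pool.Agent.EWH.Stmts

/-!
# Squad EWH: module T2F (a twofold Pfister form in `I³` is zero)
-/

set_option autoImplicit false

namespace Pool.Agent.EWH

open scoped BigOperators

theorem t2f_proof (hIGN : Stmt_IGN) (hT2N : Stmt_T2N) : Stmt_T2F := by
  have key : ∀ n, P2 n := by
    intro n
    induction n with
    | zero =>
      intro K _ _ a b h
      obtain ⟨u, x, y, z, h⟩ := h
      rw [h]
      simp
    | succ n ih =>
      intro K _ hK a b h
      obtain ⟨u, x, y, z, h⟩ := h
      rw [Fin.sum_univ_castSucc] at h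
      by_contra hne
      by_cases h0 : pf3 (x (Fin.last n)) (y (Fin.last n)) (z (Fin.last n)) = 0
      · rw [h0, mul_zero, add_zero] at h
        exact hne (ih K hK a b ⟨_, _, _, _, h⟩)
      · refine hT2N n ih K hK a b _ _ _ ⟨hne, h0, -u (Fin.last n), ?_⟩
        refine ⟨fun i => u i.castSucc, fun i => x i.castSucc, fun i => y i.castSucc,
          fun i => z i.castSucc, ?_⟩
        rw [h, br_neg]
        ring
  intro K _ hK a b h
  obtain ⟨n, hn⟩ := (hIGN K).2 _ h
  exact key n K hK a b hn

end Pool.Agent.EWH
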