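import Pool.Agent.EWH.Stmts

/-!
# Squad EWH: module T2N (contradiction)
-/

set_option autoImplicit false

namespace Pool.Agent.EWH

open scoped BigOperators
open Pool.Agent.EWG (Split SN osum ud OB VV vm iu QD sB iu_coe ud_apply)

namespace T2N_

variable {K : Type} [Field K]

theorem rc_neg (a : Kˣ) : rc (-a) = -rc a := by
  apply Units.ext
  unfold rc
  simp

theorem rc_mul (a b : Kˣ) : rc (a * b) = rc a * rc b := by
  unfold rc
  rw [map_mul]

theorem rc_one : rc (1 : Kˣ) = 1 := by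
  unfold rc
  rw [map_one]

theorem rc_coe (a : Kˣ) : ((rc a : (RatFunc K)ˣ) : RatFunc K) = RatFunc.C (a : K) := rfl

/-- `⟨⟨x, y⟩⟩ = ⟨⟨x + y t², -xy⟩⟩` -/
theorem pf_sum {L : Type} [Field L] (hREL : Stmt_REL) (hL : Two L) (x y d T : Lˣ)
    (h : (d : L) = x + y * T ^ 2) : pf x y = pf d (-(x * y)) := by
  obtain ⟨-, h2, h3, -⟩ := hREL L hL
  have e1 : br x + br (y * T ^ 2) = br d + br (x * (y * T ^ 2) * d) :=
    h2 x (y * T ^ 2) d (by rw [h]; push_cast; ring)
  have e2 : br (x * (y * T ^ 2) * d) = br (x * y * d) := by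
    have : x * (y * T ^ 2) * d = x * y * d * T ^ 2 := by
      rw [← mul_assoc, mul_right_comm]
    rw [this, h3]
  rw [h3, e2] at e1
  have e3 : br (x * y * d) = br x * br y * br d := by rw [br_mul, br_mul]
  rw [e3] at e1
  unfold pf pf1
  rw [br_neg, br_mul]
  linear_combination -e1

/-- the sum `x + y t²` is not zero -/
theorem dne (hCA2 : Stmt_CA2) (hK : Two K) (x y : Kˣ) :
    RatFunc.C (x : K) + RatFunc.C (y : K) * RatFunc.X ^ 2 ≠ (0 : RatFunc K) := by
  intro h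
  obtain ⟨α, -, hα, -, -⟩ := hCA2 K hK 0 (fun i => i.elim0) x y
    (fun v _ => Subsingleton.elim _ _) (fun i => i.elim0) (by rw [h, ud_apply]; simp)
  rw [ud_apply] at hα
  simp at hα
  exact x.ne_zero hα.symm

/-- changing the last two slots over `K(t)` -/
theorem change (hREL : Stmt_REL) (hCA2 : Stmt_CA2) (hT2T : Stmt_T2T) (n : ℕ) (hK : Two K)
    (a b x y z : Kˣ) (hH : HH n K a b x y z) : ∃ d : (RatFunc K)ˣ,
    (d : RatFunc K) = RatFunc.C (y : K) + RatFunc.C (z : K) * RatFunc.X ^ 2 ∧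
    HH n (RatFunc K) (rc a) (rc b) (rc x) d (-(rc y * rc z)) := by
  have hL : Two (RatFunc K) := Two.map (RatFunc.C : K →+* RatFunc K) hK
  have hne := dne hCA2 hK y z
  let d : (RatFunc K)ˣ := Units.mk0 _ hne
  let T : (RatFunc K)ˣ := Units.mk0 RatFunc.X RatFunc.X_ne_zero
  have hd : (d : RatFunc K) = RatFunc.C (y : K) + RatFunc.C (z : K) * RatFunc.X ^ 2 := rfl
  have h1 : pf (rc y) (rc z) = pf d (-(rc y * rc z)) :=
    pf_sum hREL hL (rc y) (rc z) d T (by rw [hd]; rfl)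
  have h2 : pf3 (rc x) d (-(rc y * rc z)) = pf3 (rc x) (rc y) (rc z) := by
    have e1 : pf3 (rc x) (rc y) (rc z) = pf1 (rc x) * pf (rc y) (rc z) := by
      unfold pf3 pf; ring
    have e2 : pf3 (rc x) d (-(rc y * rc z)) = pf1 (rc x) * pf d (-(rc y * rc z)) := by
      unfold pf3 pf; ring
    rw [e1, e2, h1]
  obtain ⟨g1, g2, u, g3⟩ := hT2T n K hK a b x y z hH
  exact ⟨d, hd, g1, by rw [h2]; exact g2, u, by rw [h2]; exact g3⟩

end T2N_

theorem t2n_proof (hREL : Stmt_REL) (hCA2 : Stmt_CA2) (hT2T : Stmt_T2T) (hT2D : Stmt_T2D) :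
    Stmt_T2N := by
  intro n hP K _ hK a b x y z hH
  have hL : Two (RatFunc K) := Two.map (RatFunc.C : K →+* RatFunc K) hK
  obtain ⟨d, hd, hHd⟩ := T2N_.change hREL hCA2 hT2T n hK a b x y z hH
  obtain ⟨r, hr⟩ := hT2D n hP (RatFunc K) hL (rc a) (rc b) (rc x) d (-(rc y * rc z)) hHd
  have hr' : (r : RatFunc K) * (r : RatFunc K) = RatFunc.C (x : K) * RatFunc.C (y : K) * RatFunc.C (z : K) *
      (RatFunc.C (y : K) + RatFunc.C (z : K) * RatFunc.X ^ 2) := by
    have h1 := congrArg Units.val hr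
    push_cast at h1
    rw [hd, T2N_.rc_coe, T2N_.rc_coe, T2N_.rc_coe] at h1
    linear_combination -h1
  obtain ⟨α, β, hα, hβ, hαβ⟩ := hCA2 K hK 1 ![1] (x * y * z * y) (x * y * z * z) (by
    intro w hw
    rw [ud_apply, Fin.sum_univ_one] at hw
    have h5 : ((1 : Kˣ) : K) * w 0 * w 0 = 0 := hw
    rw [Units.val_one, one_mul] at h5
    funext i
    fin_cases i
    exact mul_self_eq_zero.1 h5) ![(r : RatFunc K)] (by
    rw [ud_apply, Fin.sum_univ_one]
    show ((rc (1 : Kˣ) : (RatFunc K)ˣ) : RatFunc K) * (r : RatFunc K) * (r : RatFunc K) = _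
    rw [T2N_.rc_one, Units.val_one, one_mul, hr']
    simp only [Units.val_mul, map_mul]
    ring)
  rw [ud_apply, Fin.sum_univ_one] at hα hβ hαβ
  have hα' : α 0 * α 0 = ((x * y * z * y : Kˣ) : K) := by
    have h5 : ((1 : Kˣ) : K) * α 0 * α 0 = ((x * y * z * y : Kˣ) : K) := hα
    rw [Units.val_one, one_mul] at h5
    exact h5
  have hβ' : β 0 * β 0 = ((x * y * z * z : Kˣ) : K) := by
    have h5 : ((1 : Kˣ) : K) * β 0 * β 0 = ((x * y * z * z : Kˣ) : K) := hβ
    rw [Units.val_one, one_mul] at h5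
    exact h5
  have hαβ' : α 0 * β 0 = 0 := by
    have h5 : ((1 : Kˣ) : K) * α 0 * β 0 = 0 := hαβ
    rw [Units.val_one, one_mul] at h5
    exact h5
  rcases mul_eq_zero.1 hαβ' with h | h
  · rw [h, zero_mul] at hα'
    exact (Units.ne_zero _) hα'.symm
  · rw [h, zero_mul] at hβ'
    exact (Units.ne_zero _) hβ'.symm

end Pool.Agent.EWH
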