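import Pool.Agent.EWH.Stmts

/-!
# Squad EWH: module T2S (slots of the threefold form are slots of the twofold form)
-/

set_option autoImplicit false

namespace Pool.Agent.EWH

open scoped BigOperators
open Pool.Agent.EWG (Split SN osum ud OB VV vm iu QD sB iu_coe)

namespace T2S_

variable {K L : Type} [Field K] [Field L]

theorem map_pf1 {f : K →+* L} {g : W K →+* W L} (hg : IsMap f g) (a : Kˣ) :
    g (pf1 a) = pf1 (Units.map f.toMonoidHom a) := by
  unfold pf1
  rw [map_sub, map_one, hg]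

theorem map_pf {f : K →+* L} {g : W K →+* W L} (hg : IsMap f g) (a b : Kˣ) :
    g (pf a b) = pf (Units.map f.toMonoidHom a) (Units.map f.toMonoidHom b) := by
  unfold pf
  rw [map_mul, map_pf1 hg, map_pf1 hg]

theorem map_pf3 {f : K →+* L} {g : W K →+* W L} (hg : IsMap f g) (a b c : Kˣ) :
    g (pf3 a b c) = pf3 (Units.map f.toMonoidHom a) (Units.map f.toMonoidHom b)
      (Units.map f.toMonoidHom c) := by
  unfold pf3
  rw [map_mul, map_mul, map_pf1 hg, map_pf1 hg, map_pf1 hg]

theorem map_S3 {f : K →+* L} {g : W K →+* W L} (hg : IsMap f g) {n : ℕ} {c : W K}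
    (h : S3 K n c) : S3 L n (g c) := by
  obtain ⟨u, x, y, z, rfl⟩ := h
  refine ⟨fun i => Units.map f.toMonoidHom (u i), fun i => Units.map f.toMonoidHom (x i),
    fun i => Units.map f.toMonoidHom (y i), fun i => Units.map f.toMonoidHom (z i), ?_⟩
  rw [map_sum]
  refine Finset.sum_congr rfl fun i _ => ?_
  rw [map_mul, hg, map_pf3 hg]

end T2S_

theorem t2s_proof (hREL : Stmt_REL) (hMAP : Stmt_MAP) (hQXE : Stmt_QXE) (hKRS : Stmt_KRS) :
    Stmt_T2S := by
  intro n hP K _ hK a b x y z d y' z' hH he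
  obtain ⟨h1, h2, u, hu⟩ := hH
  by_cases hd : IsSquare d
  · exfalso
    apply h2
    rw [he]
    unfold pf3
    rw [((hREL K hK).2.2.2 d).2 hd, zero_mul, zero_mul]
  · obtain ⟨K', i1, i2, E, hE⟩ := hQXE K hK d hd
    obtain ⟨g, hg, -⟩ := hMAP K K' (algebraMap K K')
    have hK' : Two K' := Two.map (algebraMap K K') hK
    have hsq : IsSquare (Units.map (algebraMap K K').toMonoidHom d) := by
      refine ⟨E.θ, Units.ext ?_⟩
      rw [← hE]
      show algebraMap K K' (E.x : K) = _
      rw [← E.sq, Units.val_mul, pow_two]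
    have h3 : g (pf3 x y z) = 0 := by
      rw [he, T2S_.map_pf3 hg]
      unfold pf3
      rw [((hREL K' hK').2.2.2 _).2 hsq, zero_mul, zero_mul]
    have h4 := T2S_.map_S3 hg hu
    rw [map_add, map_mul, h3, mul_zero, add_zero, T2S_.map_pf hg] at h4
    have h5 := hP K' hK' _ _ h4
    obtain ⟨v, hv⟩ := (hKRS K K' hK E a b).1 h5
    exact ⟨v, by rw [hv, hE]⟩

end Pool.Agent.EWH
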