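import Pool.Agent.EWH.Stmts

/-!
# Squad EWH: module T2T (transition to `K(t)`)
-/

set_option autoImplicit false

namespace Pool.Agent.EWH

open scoped BigOperators
open Pool.Agent.EWG (Split SN osum ud OB VV vm iu QD sB iu_coe)

namespace T2T_

variable {K L : Type} [Field K] [Field L]

theorem map_pf1 {f : K →+* L} {g : W K →+* W L} (hg : IsMap f g) (a : Kˣ) :
    g (pf1 a) = pf1 (Units.map f.toMonoidHom a) := by
  unfold pf1
  rw [map_sub, map_one, hg]

theorem map_pf {f : K →+* L} {g : W K →+* W L} (hg : IsMap f g) (a b : Kˣ) :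
    g (pf a b) = pf (Units.map f.toMonoidHom a) (Units.map f.toMonoidHom b) := by
  unfold pf
  rw [map_mul, map_pf1 hg, map_pf1 hg]

theorem map_pf3 {f : K →+* L} {g : W K →+* W L} (hg : IsMap f g) (a b c : Kˣ) :
    g (pf3 a b c) = pf3 (Units.map f.toMonoidHom a) (Units.map f.toMonoidHom b)
      (Units.map f.toMonoidHom c) := by
  unfold pf3
  rw [map_mul, map_mul, map_pf1 hg, map_pf1 hg, map_pf1 hg]

theorem map_S3 {f : K →+* L} {g : W K →+* W L} (hg : IsMap f g) {n : ℕ} {c : W K}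
    (h : S3 K n c) : S3 L n (g c) := by
  obtain ⟨u, x, y, z, rfl⟩ := h
  refine ⟨fun i => Units.map f.toMonoidHom (u i), fun i => Units.map f.toMonoidHom (x i),
    fun i => Units.map f.toMonoidHom (y i), fun i => Units.map f.toMonoidHom (z i), ?_⟩
  rw [map_sum]
  refine Finset.sum_congr rfl fun i _ => ?_
  rw [map_mul, hg, map_pf3 hg]

theorem rc_neg (a : Kˣ) : rc (-a) = -rc a := by
  apply Units.ext
  unfold rc
  simp

theorem rc_mul (a b : Kˣ) : rc (a * b) = rc a * rc b := by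
  unfold rc
  rw [map_mul]

theorem rc_one : rc (1 : Kˣ) = 1 := by
  unfold rc
  rw [map_one]

theorem fam3 (a b : Kˣ) : (fun i => rc ((![1, -a, -b] : Fin 3 → Kˣ) i)) = ![1, -rc a, -rc b] := by
  funext i
  fin_cases i
  · exact rc_one
  · exact rc_neg a
  · exact rc_neg b

theorem fam5 (a b c : Kˣ) : (fun i => rc ((![1, -a, -b, a * b, -c] : Fin 5 → Kˣ) i)) =
    ![1, -rc a, -rc b, rc a * rc b, -rc c] := by
  funext i
  fin_cases i
  · exact rc_one
  · exact rc_neg a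
  · exact rc_neg b
  · exact rc_mul a b
  · exact rc_neg c

end T2T_

theorem t2t_proof (hMAP : Stmt_MAP) (hPFI : Stmt_PFI) (hANL : Stmt_ANL) : Stmt_T2T := by
  intro n K _ hK a b x y z hH
  obtain ⟨h1, h2, u, hu⟩ := hH
  have hL : Two (RatFunc K) := Two.map (RatFunc.C : K →+* RatFunc K) hK
  obtain ⟨g, hg, -⟩ := hMAP K (RatFunc K) (RatFunc.C : K →+* RatFunc K)
  refine ⟨?_, ?_, rc u, ?_⟩
  · intro h0
    obtain ⟨v, hv, hv0⟩ := ((hPFI (RatFunc K) hL (rc a) (rc b) 1).1).1 h0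
    rw [← T2T_.fam3] at hv0
    refine hv (hANL K 3 ![1, -a, -b] ?_ v hv0)
    intro w hw
    by_contra hne
    exact h1 (((hPFI K hK a b 1).1).2 ⟨w, hne, hw⟩)
  · intro h0
    obtain ⟨v, hv, hv0⟩ := ((hPFI (RatFunc K) hL (rc x) (rc y) (rc z)).2.2).1 h0
    rw [← T2T_.fam5] at hv0
    refine hv (hANL K 5 ![1, -x, -y, x * y, -z] ?_ v hv0)
    intro w hw
    by_contra hne
    exact h2 (((hPFI K hK x y z).2.2).2 ⟨w, hne, hw⟩)
  · have h3 := T2T_.map_S3 hg hu
    rw [map_add, map_mul, T2T_.map_pf hg, T2T_.map_pf3 hg, hg] at h3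
    exact h3

end Pool.Agent.EWH
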