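import Pool.Agent.EWH.Stmts

/-!
# Squad EWH: module TPF (`tr ⟨⟨a, w⟩⟩ ≡ ⟨⟨a, N w⟩⟩` modulo `I³`)
-/

set_option autoImplicit false

namespace Pool.Agent.EWH

open scoped BigOperators
open Pool.Agent.EWG (Split SN osum ud OB VV vm iu QD sB iu_coe ud_apply)

theorem tpf_proof (hREL : Stmt_REL) (hMAP : Stmt_MAP) (hSTR : Stmt_STR) (hPRJ : Stmt_PRJ)
    (hRTQ : Stmt_RTQ) : Stmt_TPF := by
  intro F K _ _ _ hF E a w
  obtain ⟨g, hg, hgr⟩ := hMAP F K (algebraMap F K)
  have hrs : ∀ c, rs F K c = g c := fun c => hgr c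
  have htr1 : tr E (1 : W K) = 0 := by
    have h1 := (hRTQ F K hF E).2.1 1
    rwa [hrs, map_one] at h1
  have h1 : rs F K (pf1 a) * pf1 w = pf (iu F a) w := by
    rw [hrs]
    unfold pf pf1
    rw [map_sub, map_one, hg]
    rfl
  rw [← h1, hPRJ F K hF E]
  have h4 : tr E (pf1 w) = -tr E (br w) := by
    unfold pf1
    rw [map_sub, htr1, zero_sub]
  by_cases hs : E.s w = 0
  · have h2 : IsSquare (E.nm w) := by
      have ht : E.t w ≠ 0 := by
        intro h0
        have := E.nmt w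
        rw [h0, hs] at this
        apply (E.nm w).ne_zero
        rw [this]
        ring
      refine ⟨Units.mk0 _ ht, Units.ext ?_⟩
      rw [E.nmt, hs, Units.val_mul, Units.val_mk0]
      ring
    have h3 : pf a (E.nm w) = 0 := by
      unfold pf
      rw [((hREL F hF).2.2.2 _).2 h2, mul_zero]
    rw [h4, (hSTR F K hF E w).2 hs, h3, neg_zero, mul_zero, sub_zero]
    exact Ideal.zero_mem _
  · rw [h4, (hSTR F K hF E w).1 (Units.mk0 _ hs) rfl]
    have e : pf1 a * -(br (Units.mk0 _ hs) * pf1 (E.nm w)) - pf a (E.nm w) =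
        pf a (E.nm w) * pf1 (Units.mk0 _ hs) - (pf a (E.nm w) + pf a (E.nm w)) := by
      unfold pf
      have : br (Units.mk0 _ hs) = 1 - pf1 (Units.mk0 (E.s w) hs) := by
        unfold pf1; ring
      rw [this]
      ring
    rw [e]
    refine Ideal.sub_mem _ ?_ (two_mul_mem 2 _ (pf_mem _ _))
    rw [pow_succ]
    exact Ideal.mul_mem_mul (pf_mem _ _) (pf1_mem _)

end Pool.Agent.EWH
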