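import Pool.Agent.EWH.Stmts

/-!
Squad EWH, module VKR: square classes in a quadratic extension (Hilbert 90), kernel of the
restriction, norms.
-/

set_option autoImplicit false

namespace Pool.Agent.EWH

open Pool.Agent.EWG (Split SN osum ud OB VV vm iu QD sB iu_coe)

namespace VKR_

variable {F K : Type} [Field F] [Field K] [Algebra F K]

lemma sig (E : QD F K) (w : K) :
    E.σ w = algebraMap F K (E.t w) - algebraMap F K (E.s w) * E.θ := by
  conv_lhs => rw [E.dec w]
  rw [map_add, map_mul, AlgEquiv.commutes, AlgEquiv.commutes, E.σθ]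
  ring

lemma t_add (E : QD F K) (a b : F) : E.t (algebraMap F K a + algebraMap F K b * E.θ) = a := by
  rw [map_add, E.t1, E.tθ, add_zero]

lemma s_add (E : QD F K) (a b : F) : E.s (algebraMap F K a + algebraMap F K b * E.θ) = b := by
  rw [map_add, E.s1, E.sθ, zero_add]

lemma nm_iu (E : QD F K) (f : Fˣ) : E.nm (iu F f) = f * f := by
  ext
  rw [E.nmt, iu_coe, E.t1, E.s1, Units.val_mul]
  ring

end VKR_

open VKR_

theorem vkr_proof (hPFZ : Stmt_PFZ) : Stmt_VKR := by
  intro F K _ _ _ hF E
  have h2 : (2 : F) ≠ 0 := hF
  have hxθ : (iu F E.x : Kˣ) = E.θ * E.θ := by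
    ext
    rw [iu_coe, ← E.sq, Units.val_mul, sq]
  refine ⟨?_, ?_, ?_⟩
  · intro w
    constructor
    · rintro ⟨c, hc⟩
      have hK : (w : K) * E.σ w = algebraMap F K c * algebraMap F K c := by
        rw [← E.nmσ, hc, Units.val_mul, map_mul]
      by_cases hw : (w : K) + algebraMap F K c = 0
      · refine ⟨-c, ⟨w, ?_⟩⟩
        ext
        have h3 : (w : K) = -algebraMap F K c := by linear_combination hw
        rw [Units.val_mul, Units.val_mul, iu_coe, Units.val_neg, map_neg, ← h3]
      · have h3 : ((w : K) + algebraMap F K c) ^ 2 =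
            w * algebraMap F K (2 * E.t w + 2 * c) := by
          have h4 : (w : K) + E.σ w = 2 * algebraMap F K (E.t w) := by
            have h5 := E.dec (w : K)
            have h6 := sig E (w : K)
            linear_combination h5 + h6
          rw [map_add, map_mul, map_mul, map_ofNat]
          linear_combination -hK + (w : K) * h4
        have hf : 2 * E.t w + 2 * (c : F) ≠ 0 := by
          intro h0
          rw [h0, map_zero, mul_zero] at h3
          exact hw (pow_eq_zero_iff (two_ne_zero) |>.1 h3)
        refine ⟨Units.mk0 _ hf, ⟨Units.mk0 _ hw, ?_⟩⟩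
        ext
        rw [Units.val_mul, Units.val_mul, iu_coe, Units.val_mk0, Units.val_mk0, ← h3, sq]
    · rintro ⟨f, g, hg⟩
      have h3 : E.nm w * (f * f) = E.nm g * E.nm g := by
        rw [← nm_iu E f, ← map_mul, hg, map_mul]
      refine ⟨E.nm g * f⁻¹, ?_⟩
      have h4 : E.nm w = E.nm g * E.nm g * (f * f)⁻¹ := by
        rw [← h3, mul_assoc, mul_inv_cancel, mul_one]
      rw [h4, mul_inv]
      exact mul_mul_mul_comm _ _ _ _
  · intro f
    constructor
    · rintro ⟨g, hg⟩
      have h3 : algebraMap F K f = (g : K) * g := by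
        rw [← iu_coe, hg, Units.val_mul]
      have h4 : (g : K) * g = algebraMap F K (E.t g ^ 2 + E.s g ^ 2 * E.x) +
          algebraMap F K (2 * (E.t g * E.s g)) * E.θ := by
        have h5 := E.dec (g : K)
        have h6 := E.sq
        simp only [map_add, map_mul, map_pow, map_ofNat]
        rw [← h6]
        have h7 : (g : K) * g = (algebraMap F K (E.t g) + algebraMap F K (E.s g) * E.θ) *
            (algebraMap F K (E.t g) + algebraMap F K (E.s g) * E.θ) := by
          rw [← h5]
        rw [h7]
        ring
      rw [h4] at h3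
      have h8 : (f : F) = E.t g ^ 2 + E.s g ^ 2 * E.x := by
        have := congrArg E.t h3
        rwa [E.t1, t_add] at this
      have h9 : 2 * (E.t g * E.s g) = 0 := by
        have := congrArg E.s h3
        rw [E.s1, s_add] at this
        exact this.symm
      have h10 : E.t (g : K) * E.s (g : K) = 0 := by
        rcases mul_eq_zero.1 h9 with h | h
        · exact absurd h h2
        · exact h
      rcases mul_eq_zero.1 h10 with h | h
      · right
        rw [h] at h8
        have hs : E.s (g : K) ≠ 0 := by
          intro h0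
          rw [h0] at h8
          exact f.ne_zero (by rw [h8]; ring)
        refine ⟨Units.mk0 _ hs * E.x, ?_⟩
        ext
        simp only [Units.val_mul, Units.val_mk0]
        rw [h8]
        ring
      · left
        rw [h] at h8
        have ht : E.t (g : K) ≠ 0 := by
          intro h0
          rw [h0] at h8
          exact f.ne_zero (by rw [h8]; ring)
        refine ⟨Units.mk0 _ ht, ?_⟩
        ext
        simp only [Units.val_mul, Units.val_mk0]
        rw [h8]
        ring
    · rintro (⟨a, ha⟩ | ⟨a, ha⟩)
      · refine ⟨iu F a, ?_⟩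
        rw [ha]
        unfold iu
        rw [map_mul]
      · refine ⟨iu F a * E.θ⁻¹, ?_⟩
        have h3 : (iu F f : Kˣ) * (E.θ * E.θ) = iu F a * iu F a := by
          rw [← hxθ]
          unfold iu
          rw [← map_mul, ha, map_mul]
        have h4 : (iu F f : Kˣ) = iu F a * iu F a * (E.θ * E.θ)⁻¹ := by
          rw [← h3, mul_assoc, mul_inv_cancel, mul_one]
        rw [h4, mul_inv]
        exact mul_mul_mul_comm _ _ _ _
  · intro v
    rw [hPFZ F hF E.x v]
    constructor
    · rintro ⟨s, t, hst⟩
      have hw : algebraMap F K s + algebraMap F K t * E.θ ≠ 0 := by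
        intro h0
        have a1 : s = 0 := by
          have := congrArg E.t h0
          rwa [t_add, map_zero] at this
        have a3 : t = 0 := by
          have := congrArg E.s h0
          rwa [s_add, map_zero] at this
        exact v.ne_zero (by rw [hst, a1, a3]; ring)
      refine ⟨Units.mk0 _ hw, ?_⟩
      ext
      rw [E.nmt, Units.val_mk0, t_add, s_add, hst]
    · rintro ⟨w, rfl⟩
      exact ⟨E.t w, E.s w, E.nmt w⟩

end Pool.Agent.EWH
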