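import Pool.Agent.EWH.Stmts

/-!
Squad EWH, module WZ: a diagonal form is zero in the Witt ring iff it is split.
-/

set_option autoImplicit false

namespace Pool.Agent.EWH

open scoped BigOperators
open Pool.Agent.EWG (Split SN osum ud OB ud_apply osum_apply)

namespace WZ_

variable {K : Type} [Field K]

/-- isometric diagonal forms: reindexing -/
theorem split_reindex (hSPI : EWG.Stmt_SPI) {ι κ : Type} [Fintype ι] [Fintype κ] (e : ι ≃ κ)
    (a : κ → Kˣ) (h : Split K (ud a)) : Split K (ud (a ∘ e)) := by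
  refine hSPI K (κ → K) (ι → K) (LinearEquiv.funCongrLeft K K e) (ud a) (ud (a ∘ e)) ?_ h
  intro x y
  simp only [ud_apply, LinearEquiv.funCongrLeft_apply, LinearMap.funLeft_apply, Function.comp]
  exact Equiv.sum_comp e (fun j => (a j : K) * x j * y j)

theorem sum_split (hSPI : EWG.Stmt_SPI) {ι κ : Type} [Fintype ι] [Fintype κ] (a : ι → Kˣ)
    (b : κ → Kˣ) (h : Split K (ud (Sum.elim a b))) : Split K (osum (ud a) (ud b)) := by
  refine hSPI K (ι ⊕ κ → K) ((ι → K) × (κ → K)) (LinearEquiv.sumArrowLequivProdArrow ι κ K K)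
    _ _ ?_ h
  intro x y
  simp [Fintype.sum_sum_type]

theorem sum_br {ι : Type} [Fintype ι] (a : ι → Kˣ) :
    ∑ i, br (a i) = 0 ↔ ∑ i, MonoidAlgebra.of ℤ Kˣ (a i) ∈ rel K := by
  rw [← Ideal.Quotient.eq_zero_iff_mem, map_sum]
  rfl

open Classical in
theorem card_eq {G ι : Type} [Group G] [Fintype ι] (a : ι → G) (u : G) :
    (∑ i, MonoidAlgebra.of ℤ G (a i)).coeff u = (Fintype.card {i // a i = u} : ℤ) := by
  have h : (∑ i, MonoidAlgebra.of ℤ G (a i)).coeff u =
      ∑ i, (MonoidAlgebra.of ℤ G (a i)).coeff u := by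
    have := map_sum ((Finsupp.applyAddHom u).comp
      (MonoidAlgebra.coeffAddEquiv (R := ℤ) (M := G)).toAddMonoidHom)
      (fun i => MonoidAlgebra.of ℤ G (a i)) Finset.univ
    exact this
  rw [h]
  have h2 : ∀ i, (MonoidAlgebra.of ℤ G (a i)).coeff u = if a i = u then 1 else 0 := by
    intro i
    rw [MonoidAlgebra.of_apply, MonoidAlgebra.coeff_single_apply]
  simp only [h2]
  rw [Finset.sum_boole, Fintype.card_subtype]

theorem perm {G ι κ : Type} [Group G] [Fintype ι] [Fintype κ] (a : ι → G) (c : κ → G)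
    (h : ∑ i, MonoidAlgebra.of ℤ G (a i) = ∑ k, MonoidAlgebra.of ℤ G (c k)) :
    ∃ e : ι ≃ κ, c ∘ e = a := by
  classical
  have hc : ∀ u : G, Fintype.card {i // a i = u} = Fintype.card {k // c k = u} := by
    intro u
    have h1 := card_eq a u
    rw [h, card_eq c u] at h1
    exact_mod_cast h1.symm
  refine ⟨(Equiv.sigmaFiberEquiv a).symm.trans ((Equiv.sigmaCongrRight fun u =>
    Fintype.equivOfCardEq (hc u)).trans (Equiv.sigmaFiberEquiv c)), ?_⟩
  funext i
  exact (Fintype.equivOfCardEq (hc (a i)) ⟨i, rfl⟩).2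

end WZ_

open WZ_

theorem wz_proof (hSPI : EWG.Stmt_SPI) (hCAN : EWG.Stmt_CAN) (hDIA : EWG.Stmt_DIA)
    (hPRL : Stmt_PRL) : Stmt_WZ := by
  intro K _ _ ι _ a
  rw [sum_br]
  constructor
  · intro h
    obtain ⟨n, m, c, b, hc, hb, hab⟩ := hPRL K _ h
    have h2 : ∑ i, MonoidAlgebra.of ℤ Kˣ (Sum.elim a b i) = ∑ k, MonoidAlgebra.of ℤ Kˣ (c k) := by
      rw [Fintype.sum_sum_type]
      exact hab
    obtain ⟨e, he⟩ := perm _ _ h2
    have h3 : Split K (ud (Sum.elim a b)) := by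
      have := split_reindex hSPI e c hc
      rwa [he] at this
    exact hCAN K _ _ _ _ (hDIA K ι a) (hDIA K (Fin m) b) (sum_split hSPI a b h3) hb
  · intro h
    let e := Fintype.equivFin ι
    have h1 : Split K (ud (a ∘ e.symm)) := split_reindex hSPI e.symm a h
    refine Ideal.subset_span ⟨_, a ∘ e.symm, h1, ?_⟩
    exact (Equiv.sum_comp e.symm (fun j => MonoidAlgebra.of ℤ Kˣ (a j))).symm

end Pool.Agent.EWH
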