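import Pool.Agent.EWG.All
import Pool.Agent.EWH.FX
import Pool.Agent.EWH.NEG
import Pool.Agent.EWH.SDD
import Pool.Agent.EWH.PRL
import Pool.Agent.EWH.WZ
import Pool.Agent.EWH.SUR
import Pool.Agent.EWH.CLQ
import Pool.Agent.EWH.SP1
import Pool.Agent.EWH.SP2
import Pool.Agent.EWH.SP0
import Pool.Agent.EWH.MIN
import Pool.Agent.EWH.REL
import Pool.Agent.EWH.AUG
import Pool.Agent.EWH.EVI
import Pool.Agent.EWH.IM2
import Pool.Agent.EWH.DI2
import Pool.Agent.EWH.IGN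
import Pool.Agent.EWH.PFZ
import Pool.Agent.EWH.PF3
import Pool.Agent.EWH.PFI
import Pool.Agent.EWH.PUR
import Pool.Agent.EWH.LNK
import Pool.Agent.EWH.SLK
import Pool.Agent.EWH.BIL
import Pool.Agent.EWH.MAP
import Pool.Agent.EWH.QXE
import Pool.Agent.EWH.SCL
import Pool.Agent.EWH.STR
import Pool.Agent.EWH.SIS
import Pool.Agent.EWH.PRJ
import Pool.Agent.EWH.RTQ
import Pool.Agent.EWH.TPF
import Pool.Agent.EWH.RTD
import Pool.Agent.EWH.NPR
import Pool.Agent.EWH.NP3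
import Pool.Agent.EWH.RKR
import Pool.Agent.EWH.KRS
import Pool.Agent.EWH.KTR
import Pool.Agent.EWH.VKR
import Pool.Agent.EWH.FIN
import Pool.Agent.EWH.CAS
import Pool.Agent.EWH.ANL
import Pool.Agent.EWH.CA2
import Pool.Agent.EWH.T2T
import Pool.Agent.EWH.T2S
import Pool.Agent.EWH.T2C
import Pool.Agent.EWH.T2D
import Pool.Agent.EWH.T2N
import Pool.Agent.EWH.T2F
import Pool.Agent.EWH.QSF
import Pool.Agent.EWH.ISO
import Pool.Agent.EWH.CMP
import Pool.Agent.EWH.TRN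
import Pool.Agent.EWH.EQB
import Pool.Agent.EWH.D6F
import Pool.Agent.EWH.QBL
import Pool.Agent.EWH.ALB

/-!
Assembly of the squad EWH.
-/

namespace Pool.Agent.EWH

theorem q_neg : Stmt_NEG := neg_proof

theorem q_sdd : Stmt_SDD := sdd_proof

theorem q_prl : Stmt_PRL := prl_proof EWG.q_spi EWG.q_osu

theorem q_wz : Stmt_WZ := wz_proof EWG.q_spi EWG.q_can EWG.q_dia q_prl

theorem q_sur : Stmt_SUR := sur_proof

theorem q_clq : Stmt_CLQ := clq_proof EWG.q_spi q_neg EWG.q_obi q_wz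

theorem q_sp1 : Stmt_SP1 := sp1_proof EWG.q_dia EWG.q_or1 q_clq

theorem q_sp2 : Stmt_SP2 := sp2_proof EWG.q_dia EWG.q_or1 q_clq

theorem q_sp0 : Stmt_SP0 := sp0_proof EWG.q_dia q_sp2

theorem q_min : Stmt_MIN := min_proof q_sur q_sp0

theorem q_rel : Stmt_REL := rel_proof q_sdd q_wz q_clq

theorem q_aug : Stmt_AUG := aug_proof q_sdd q_sur

theorem q_evi : Stmt_EVI := evi_proof

theorem q_im2 : Stmt_IM2 := im2_proof q_sur q_aug q_evi

theorem q_di2 : Stmt_DI2 := di2_proof q_sdd q_wz q_sur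

theorem q_ign : Stmt_IGN := ign_proof q_sur

theorem q_pfz : Stmt_PFZ := pfz_proof EWG.q_smp q_wz q_rel

theorem q_pf3 : Stmt_PF3 := pf3_proof EWG.q_smp EWG.q_dia q_wz q_rel q_pfz

theorem q_pfi : Stmt_PFI := pfi_proof EWG.q_smp q_wz q_rel q_pfz q_pf3

theorem q_pur : Stmt_PUR := pur_proof EWG.q_smp q_wz q_rel q_pfz

theorem q_lnk : Stmt_LNK := lnk_proof q_rel q_pfz q_pur

theorem q_slk : Stmt_SLK := slk_proof q_rel q_pfz q_pf3 q_pur

theorem q_bil : Stmt_BIL := bil_proof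

theorem q_map : Stmt_MAP := map_proof q_sur

theorem q_qxe : Stmt_QXE := qxe_proof

theorem q_scl : Stmt_SCL := scl_proof q_rel

theorem q_str : Stmt_STR := str_proof EWG.q_spi EWG.q_obi q_prl q_wz q_scl

theorem q_sis : Stmt_SIS := sis_proof EWG.q_spi EWG.q_smp EWG.q_obi q_wz q_scl q_str

theorem q_prj : Stmt_PRJ := prj_proof q_sur q_rel q_map q_str

theorem q_rtq : Stmt_RTQ := rtq_proof q_sur q_rel q_map q_str

theorem q_tpf : Stmt_TPF := tpf_proof q_rel q_map q_str q_prj q_rtq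

theorem q_rtd : Stmt_RTD := rtd_proof q_rel q_pfz q_bil

theorem q_npr : Stmt_NPR := npr_proof q_rel q_pfz q_map q_str q_sis q_prj

theorem q_np3 : Stmt_NP3 := np3_proof q_rel q_map q_str q_prj q_rtq

theorem q_rkr : Stmt_RKR := rkr_proof EWG.q_smp q_wz q_sur q_sp2 q_sp0 q_rel q_map

theorem q_krs : Stmt_KRS := krs_proof q_sdd q_wz q_sp2 q_rel q_map q_pfi

theorem q_ktr : Stmt_KTR := ktr_proof q_sur q_sp1 q_sp0 q_map q_str q_sis

theorem q_vkr : Stmt_VKR := vkr_proof q_pfz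

theorem q_fin : Stmt_FIN := fin_proof q_vkr

theorem q_cas : Stmt_CAS := cas_proof

theorem q_anl : Stmt_ANL := anl_proof

theorem q_ca2 : Stmt_CA2 := ca2_proof q_cas

theorem q_t2t : Stmt_T2T := t2t_proof q_map q_pfi q_anl

theorem q_t2s : Stmt_T2S := t2s_proof q_rel q_map q_qxe q_krs

theorem q_t2c : Stmt_T2C := t2c_proof q_sdd q_wz q_sp2 q_rel q_pfi q_pur q_ca2 q_t2t q_t2s

theorem q_t2d : Stmt_T2D := t2d_proof q_rel q_pfz q_bil q_ca2 q_t2t q_t2c

theorem q_t2n : Stmt_T2N := t2n_proof q_rel q_ca2 q_t2t q_t2d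

theorem q_t2f : Stmt_T2F := t2f_proof q_ign q_t2n

theorem q_qsf : Stmt_QSF := qsf_proof q_rel q_lnk q_bil

theorem q_iso : Stmt_ISO := iso_proof q_rel q_clq q_pfz q_lnk

theorem q_cmp : Stmt_CMP := cmp_proof EWG.q_pfz EWG.q_iso q_pfz q_iso

theorem q_trn : Stmt_TRN := trn_proof q_sur q_rel q_map q_str q_prj q_rtd

theorem q_eqb : Stmt_EQB := eqb_proof q_rel q_bil q_map q_qxe q_trn q_krs q_t2f

theorem q_d6f : Stmt_D6F := d6f_proof q_rel q_evi q_di2 q_eqb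

theorem q_qbl : Stmt_QBL := qbl_proof q_rel q_lnk q_bil q_ign q_t2f q_eqb

theorem q_alb : Stmt_ALB := alb_proof q_rel q_pur q_pfi q_map q_str q_sis q_prj q_rtq q_npr q_d6f

/-- the linear data of every quadratic extension -/
theorem q_fx (F K : Type) [Field F] [Field K] [Algebra F K] (gF : Two F) (E : EWG.QD F K) :
    Nonempty (FX E) :=
  fx_proof q_rel q_slk q_bil q_map q_rtq q_trn q_tpf q_rtd q_npr q_np3 q_krs q_vkr q_alb q_qbl
    F K gF E

end Pool.Agent.EWH
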