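import Pool.Agent.EWH.Defs
import Pool.Agent.EWG.Stmts

/-!
Statements of the modules of the squad EWH (Witt rings with arbitrary `-1`, quadratic extensions,
general `Iⁿ`).  The statements `EWG.Stmt_SPI`, `EWG.Stmt_OSU`, `EWG.Stmt_CAN`, `EWG.Stmt_SMP`,
`EWG.Stmt_DIA`, `EWG.Stmt_OBI`, `EWG.Stmt_ORB`, `EWG.Stmt_OR1`, `EWG.Stmt_QDE` (all proved,
no hypothesis on `-1`) are used as they are.
-/

set_option autoImplicit false

namespace Pool.Agent.EWH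

open scoped BigOperators
open Pool.Agent.EWG (Split SN osum ud OB VV vm iu QD sB)

/-! ### A. Linear algebra of split forms -/

/-- `B ⊥ (-B)` is split -/
def Stmt_NEG : Prop := ∀ (K V : Type) [Field K] [AddCommGroup V] [Module K V]
  [FiniteDimensional K V] (B : LinearMap.BilinForm K V), Split K (osum B (-B))

/-- the discriminant of a split form -/
def Stmt_SDD : Prop := ∀ (K : Type) [Field K], Two K → ∀ (n : ℕ) (a : Fin n → Kˣ),
  Split K (ud a) → ∃ m, n = 2 * m ∧ IsSquare ((-1) ^ m * ∏ i, a i)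

/-! ### B. The Witt ring -/

/-- the elements of the ideal of relations -/
def Stmt_PRL : Prop := ∀ (K : Type) [Field K], ∀ f ∈ rel K, ∃ (n m : ℕ) (a : Fin n → Kˣ)
  (b : Fin m → Kˣ), Split K (ud a) ∧ Split K (ud b) ∧
  f + ∑ j, MonoidAlgebra.of ℤ Kˣ (b j) = ∑ i, MonoidAlgebra.of ℤ Kˣ (a i)

/-- THE KEY FACT: a diagonal form is zero in `W(K)` iff it is split -/
def Stmt_WZ : Prop := ∀ (K : Type) [Field K], Two K → ∀ (ι : Type) [Fintype ι] (a : ι → Kˣ),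
  ∑ i, br (a i) = 0 ↔ Split K (ud a)

/-- every element of `W(K)` is the class of a diagonal form -/
def Stmt_SUR : Prop := ∀ (K : Type) [Field K] (c : W K), ∃ (n : ℕ) (a : Fin n → Kˣ),
  c = ∑ i, br (a i)

/-- the class of a form does not depend on the orthogonal basis -/
def Stmt_CLQ : Prop := ∀ (K V : Type) [Field K] [AddCommGroup V] [Module K V], Two K →
  ∀ (ι ι' : Type) [Fintype ι] [Fintype ι'] (B : LinearMap.BilinForm K V) (v : Module.Basis ι K V)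
  (a : ι → Kˣ) (v' : Module.Basis ι' K V) (a' : ι' → Kˣ), OB B v a → OB B v' a' →
  ∑ i, br (a i) = ∑ i, br (a' i)

/-- splitting off one vector -/
def Stmt_SP1 : Prop := ∀ (K : Type) [Field K], Two K → ∀ (n : ℕ) (a : Fin (n + 1) → Kˣ)
  (v : Fin (n + 1) → K) (d : Kˣ), ud a v v = (d : K) →
  ∃ a' : Fin n → Kˣ, ∑ i, br (a i) = br d + ∑ i, br (a' i)

/-- splitting off two orthogonal vectors -/
def Stmt_SP2 : Prop := ∀ (K : Type) [Field K], Two K → ∀ (n : ℕ) (a : Fin (n + 2) → Kˣ)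
  (v w : Fin (n + 2) → K) (d e : Kˣ), ud a v v = (d : K) → ud a w w = (e : K) → ud a v w = 0 →
  ∃ a' : Fin n → Kˣ, ∑ i, br (a i) = br d + br e + ∑ i, br (a' i)

/-- splitting off a hyperbolic plane -/
def Stmt_SP0 : Prop := ∀ (K : Type) [Field K], Two K → ∀ (n : ℕ) (a : Fin (n + 2) → Kˣ)
  (v : Fin (n + 2) → K), v ≠ 0 → ud a v v = 0 →
  ∃ a' : Fin n → Kˣ, ∑ i, br (a i) = ∑ i, br (a' i)

/-- every element of `W(K)` is the class of an anisotropic diagonal form -/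
def Stmt_MIN : Prop := ∀ (K : Type) [Field K], Two K → ∀ c : W K, ∃ (n : ℕ) (a : Fin n → Kˣ),
  c = ∑ i, br (a i) ∧ ∀ v, ud a v v = 0 → v = 0

/-- basic relations -/
def Stmt_REL : Prop := ∀ (K : Type) [Field K], Two K →
  (∀ a b : Kˣ, br a = br b ↔ IsSquare (a * b)) ∧
  (∀ a b c : Kˣ, (c : K) = a + b → br a + br b = br c + br (a * b * c)) ∧
  (∀ a b : Kˣ, br (a * b ^ 2) = br a) ∧ (∀ a : Kˣ, pf1 a = 0 ↔ IsSquare a)

/-- dimension mod 2 -/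
def Stmt_AUG : Prop := ∀ (K : Type) [Field K], Two K → ∃ ε : W K →+* ZMod 2,
  (∀ a, ε (br a) = 1) ∧ ∀ c, ε c = 0 ↔ c ∈ I K

/-- even forms modulo `I²` -/
def Stmt_EVI : Prop := ∀ (K : Type) [Field K], ∀ (m : ℕ) (a : Fin (2 * m) → Kˣ),
  ∑ i, br (a i) - pf1 ((-1) ^ m * ∏ i, a i) ∈ (I K) ^ 2

/-- elements of `I` modulo `I²` -/
def Stmt_IM2 : Prop := ∀ (K : Type) [Field K], Two K → ∀ c ∈ I K, ∃ a : Kˣ, c - pf1 a ∈ (I K) ^ 2

/-- `⟨⟨a⟩⟩ ∈ I²` only if `a` is a square -/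
def Stmt_DI2 : Prop := ∀ (K : Type) [Field K], Two K → ∀ a : Kˣ, pf1 a ∈ (I K) ^ 2 → IsSquare a

/-- elements of `I²` and of `I³` -/
def Stmt_IGN : Prop := ∀ (K : Type) [Field K],
  (∀ c ∈ (I K) ^ 2, ∃ (n : ℕ) (u a b : Fin n → Kˣ), c = ∑ i, br (u i) * pf (a i) (b i)) ∧
  ∀ c ∈ (I K) ^ 3, ∃ n, S3 K n c

/-! ### C. Pfister forms -/

def Stmt_PFZ : Prop := ∀ (K : Type) [Field K], Two K → ∀ a b : Kˣ,
  pf a b = 0 ↔ ∃ s t : K, (b : K) = s ^ 2 - a * t ^ 2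

def Stmt_PF3 : Prop := ∀ (K : Type) [Field K], Two K → ∀ a b c : Kˣ,
  pf3 a b c = 0 ↔ ∃ s t u v : K, (c : K) = s ^ 2 - a * t ^ 2 - b * u ^ 2 + a * b * v ^ 2

/-- isotropic neighbours -/
def Stmt_PFI : Prop := ∀ (K : Type) [Field K], Two K → ∀ a b c : Kˣ,
  (pf a b = 0 ↔ ∃ v : Fin 3 → K, v ≠ 0 ∧ ud ![1, -a, -b] v v = 0) ∧
  (pf a b = 0 ↔ ∃ v : Fin 3 → K, v ≠ 0 ∧ ud ![a, b, -(a * b)] v v = 0) ∧
  (pf3 a b c = 0 ↔ ∃ v : Fin 5 → K, v ≠ 0 ∧ ud ![1, -a, -b, a * b, -c] v v = 0)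

/-- the slots of `⟨⟨a, b⟩⟩` (pure subform theorem) -/
def Stmt_PUR : Prop := ∀ (K : Type) [Field K], Two K → ∀ a b d : Kˣ,
  (∃ v, pf a b = pf d v) ↔ ∃ s t u : K, (d : K) = a * s ^ 2 + b * t ^ 2 - a * b * u ^ 2

/-- linkage -/
def Stmt_LNK : Prop := ∀ (K : Type) [Field K], Two K → ∀ a b c d : Kˣ, pf a b = pf c d →
  ∃ x, pf a x = pf a b ∧ pf c x = pf a b

/-- slot orthogonal to `c` -/
def Stmt_SLK : Prop := ∀ (K : Type) [Field K], Two K → ∀ a b c : Kˣ, pf3 a b c = 0 →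
  ∃ a' b', pf a b = pf a' b' ∧ pf c a' = 0

/-- symbols modulo `I³` -/
def Stmt_BIL : Prop := ∀ (K : Type) [Field K],
  (∀ a b c : Kˣ, pf a (b * c) - (pf a b + pf a c) ∈ (I K) ^ 3) ∧
  (∀ a b c : Kˣ, pf (a * b) c - (pf a c + pf b c) ∈ (I K) ^ 3) ∧
  (∀ a : Kˣ, ∀ (n : ℕ), ∀ c ∈ (I K) ^ n, br a * c - c ∈ (I K) ^ (n + 1)) ∧
  (∀ a : Kˣ, pf a (-a) = 0) ∧ (∀ a : Kˣ, pf a a = pf a (-1)) ∧
  (∀ a b c : Kˣ, pf a b = pf a c ↔ pf a (b * c) = 0)

/-! ### D. Restriction and transfer -/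

def Stmt_MAP : Prop := ∀ (K L : Type) [Field K] [Field L] (f : K →+* L),
  ∃ g : W K →+* W L, IsMap f g ∧ ∀ c, wmap f c = g c

/-- existence of quadratic extensions -/
def Stmt_QXE : Prop := ∀ (F : Type) [Field F], Two F → ∀ x : Fˣ, ¬ IsSquare x →
  ∃ (K : Type) (_ : Field K) (_ : Algebra F K) (E : QD F K), E.x = x

/-- class and vanishing of the transferred form -/
def Stmt_SCL : Prop := ∀ (F K : Type) [Field F] [Field K] [Algebra F K], Two F →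
  ∀ (E : QD F K) (n : ℕ) (w : Fin n → Kˣ), ∃ (v : Module.Basis (Fin n × Fin 2) F (Fin n → K))
  (a : Fin n → Fin 2 → Fˣ), OB (sB E (ud w)) v (fun i => a i.1 i.2) ∧
  ∀ i, (∀ β : Fˣ, (β : F) = E.s (w i) → br (a i 0) + br (a i 1) = br β * pf1 (E.nm (w i))) ∧
    (E.s (w i) = 0 → br (a i 0) + br (a i 1) = 0)

/-- the transfer exists -/
def Stmt_STR : Prop := ∀ (F K : Type) [Field F] [Field K] [Algebra F K], Two F →
  ∀ E : QD F K, IsTr E (tr E)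

/-- a form with transfer zero represents an element of `F` -/
def Stmt_SIS : Prop := ∀ (F K : Type) [Field F] [Field K] [Algebra F K], Two F →
  ∀ (E : QD F K) (n : ℕ) (w : Fin (n + 1) → Kˣ), tr E (∑ i, br (w i)) = 0 →
  ∃ (z : Fin (n + 1) → K) (e : F), z ≠ 0 ∧ ∑ i, (w i : K) * z i * z i = algebraMap F K e

/-- projection formula -/
def Stmt_PRJ : Prop := ∀ (F K : Type) [Field F] [Field K] [Algebra F K], Two F →
  ∀ (E : QD F K) (a : W F) (c : W K), tr E (rs F K a * c) = a * tr E c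

/-- `res ∘ tr = ⟨2θ⟩ (1 - σ)`, `tr ∘ res = 0`, `σ` on `W(K)` -/
def Stmt_RTQ : Prop := ∀ (F K : Type) [Field F] [Field K] [Algebra F K], Two F →
  ∀ E : QD F K, (∀ (u : Kˣ) (c : W K), (u : K) = 2 * E.θ → rs F K (tr E c) = br u * (c - cj E c)) ∧
  (∀ a : W F, tr E (rs F K a) = 0) ∧ (∀ a : W F, cj E (rs F K a) = rs F K a) ∧
  ∀ c : W K, cj E (cj E c) = c

/-! ### E. Quadratic extensions -/

/-- restriction, transfer and conjugation preserve the powers of `I` -/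
def Stmt_TRN : Prop := ∀ (F K : Type) [Field F] [Field K] [Algebra F K], Two F →
  ∀ (E : QD F K) (n : ℕ), (∀ c ∈ (I K) ^ n, tr E c ∈ (I F) ^ n) ∧
  (∀ a ∈ (I F) ^ n, rs F K a ∈ (I K) ^ n) ∧ ∀ c ∈ (I K) ^ n, cj E c ∈ (I K) ^ n

/-- `tr ⟨⟨a, w⟩⟩ ≡ ⟨⟨a, N w⟩⟩` -/
def Stmt_TPF : Prop := ∀ (F K : Type) [Field F] [Field K] [Algebra F K], Two F →
  ∀ (E : QD F K) (a : Fˣ) (w : Kˣ), tr E (pf (iu F a) w) - pf a (E.nm w) ∈ (I F) ^ 3

/-- the dependency of Rosset and Tate -/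
def Stmt_RTD : Prop := ∀ (F K : Type) [Field F] [Field K] [Algebra F K], Two F →
  ∀ (_ : QD F K) (w y : Kˣ), ∃ b c : Fˣ, pf (iu F b * w) (iu F c * y) = 0

/-- norm principle -/
def Stmt_NPR : Prop := ∀ (F K : Type) [Field F] [Field K] [Algebra F K], Two F →
  ∀ (E : QD F K) (y : Fˣ) (w : Kˣ), pf y (E.nm w) = 0 →
  ∃ f : Fˣ, pf (iu F y) w = pf (iu F y) (iu F f)

/-- norm principle for twofold Pfister forms -/
def Stmt_NP3 : Prop := ∀ (F K : Type) [Field F] [Field K] [Algebra F K], Two F →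
  ∀ (E : QD F K) (a b : Fˣ) (w : Kˣ), pf3 (iu F a) (iu F b) w = 0 → pf3 a b (E.nm w) = 0

/-- kernel of the restriction -/
def Stmt_RKR : Prop := ∀ (F K : Type) [Field F] [Field K] [Algebra F K], Two F →
  ∀ (E : QD F K) (c : W F), rs F K c = 0 ↔ ∃ d, c = pf1 E.x * d

/-- kernel of the restriction on symbols -/
def Stmt_KRS : Prop := ∀ (F K : Type) [Field F] [Field K] [Algebra F K], Two F →
  ∀ (E : QD F K) (a b : Fˣ), pf (iu F a : Kˣ) (iu F b) = 0 ↔ ∃ v, pf a b = pf E.x v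

/-- kernel of the transfer -/
def Stmt_KTR : Prop := ∀ (F K : Type) [Field F] [Field K] [Algebra F K], Two F →
  ∀ (E : QD F K) (c : W K), tr E c = 0 → ∃ d : W F, c = rs F K d

/-- square classes: Hilbert 90, kernel of the restriction, norms -/
def Stmt_VKR : Prop := ∀ (F K : Type) [Field F] [Field K] [Algebra F K], Two F →
  ∀ E : QD F K, (∀ w : Kˣ, IsSquare (E.nm w) ↔ ∃ f : Fˣ, IsSquare (w * iu F f)) ∧
  (∀ f : Fˣ, IsSquare (iu F f : Kˣ) ↔ IsSquare f ∨ IsSquare (f * E.x)) ∧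
  (∀ v : Fˣ, pf E.x v = 0 ↔ ∃ w : Kˣ, E.nm w = v)

/-- finiteness -/
def Stmt_FIN : Prop := ∀ (F : Type) [Field F], Two F → Finite (VV F) →
  ∀ (K : Type) [Field K] [Algebra F K], QD F K → Finite (VV K)

/-- Albert: a symbol with trivial corestriction is defined over `F` -/
def Stmt_ALB : Prop := ∀ (F K : Type) [Field F] [Field K] [Algebra F K], Two F →
  ∀ (E : QD F K) (w y : Kˣ), tr E (pf w y) ∈ (I F) ^ 3 →
  ∃ f g : Fˣ, pf w y = pf (iu F f) (iu F g)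

/-! ### T. Symbols are determined by their classes in `I²/I³` -/

section T
open Polynomial

/-- Cassels: a polynomial represented by an anisotropic form over `k(t)` is represented over
`k[t]` -/
def Stmt_CAS : Prop := ∀ (k : Type) [Field k], Two k → ∀ (n : ℕ) (a : Fin n → kˣ),
  (∀ v, ud a v v = 0 → v = 0) → ∀ (f p0 : k[X]) (p : Fin n → k[X]), p0 ≠ 0 →
  f * p0 ^ 2 = ∑ i, C (a i : k) * p i ^ 2 → ∃ g : Fin n → k[X], f = ∑ i, C (a i : k) * g i ^ 2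

/-- the polynomial `x + y t²` -/
def Stmt_CA2 : Prop := ∀ (k : Type) [Field k], Two k → ∀ (n : ℕ) (a : Fin n → kˣ) (x y : kˣ),
  (∀ v, ud a v v = 0 → v = 0) → ∀ r : Fin n → RatFunc k,
  ud (fun i => rc (a i)) r r = RatFunc.C (x : k) + RatFunc.C (y : k) * RatFunc.X ^ 2 →
  ∃ α β : Fin n → k, ud a α α = (x : k) ∧ ud a β β = (y : k) ∧ ud a α β = 0

/-- anisotropic forms stay anisotropic over `k(t)` -/
def Stmt_ANL : Prop := ∀ (k : Type) [Field k] (n : ℕ) (a : Fin n → kˣ),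
  (∀ v, ud a v v = 0 → v = 0) → ∀ r : Fin n → RatFunc k, ud (fun i => rc (a i)) r r = 0 → r = 0

/-- transition to `K(t)` -/
def Stmt_T2T : Prop := ∀ (n : ℕ) (K : Type) [Field K], Two K → ∀ a b x y z : Kˣ,
  HH n K a b x y z → HH n (RatFunc K) (rc a) (rc b) (rc x) (rc y) (rc z)

/-- every slot of `⟨⟨x, y, z⟩⟩` is a slot of `⟨⟨a, b⟩⟩` -/
def Stmt_T2S : Prop := ∀ n, P2 n → ∀ (K : Type) [Field K], Two K → ∀ a b x y z d y' z' : Kˣ,
  HH n K a b x y z → pf3 x y z = pf3 d y' z' → ∃ v, pf a b = pf d v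

/-- `⟨⟨a, b⟩⟩ = ⟨⟨x, y⟩⟩` -/
def Stmt_T2C : Prop := ∀ n, P2 n → ∀ (K : Type) [Field K], Two K → ∀ a b x y z : Kˣ,
  HH n K a b x y z → pf a b = pf x y

/-- `-xyz` is a square -/
def Stmt_T2D : Prop := ∀ n, P2 n → ∀ (K : Type) [Field K], Two K → ∀ a b x y z : Kˣ,
  HH n K a b x y z → IsSquare (-(x * y * z))

/-- contradiction -/
def Stmt_T2N : Prop := ∀ n, P2 n → ∀ (K : Type) [Field K], Two K → ∀ a b x y z : Kˣ,
  ¬ HH n K a b x y z

/-- THE MAIN POINT: a twofold Pfister form in `I³` is zero -/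
def Stmt_T2F : Prop := ∀ (K : Type) [Field K], Two K → ∀ a b : Kˣ, pf a b ∈ (I K) ^ 3 → pf a b = 0

end T

/-- equality of symbols in `I²/I³` -/
def Stmt_EQB : Prop := ∀ (K : Type) [Field K], Two K → ∀ a b c d : Kˣ,
  pf a b - pf c d ∈ (I K) ^ 3 → pf a b = pf c d

/-- six-dimensional forms in `I³` -/
def Stmt_D6F : Prop := ∀ (K : Type) [Field K], Two K → ∀ a : Fin 6 → Kˣ,
  ∑ i, br (a i) ∈ (I K) ^ 3 → ∑ i, br (a i) = 0

/-! ### F. Interface -/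

/-- the symbol as a bilinear map `V × V → I²/I³` -/
def Stmt_QBL : Prop := ∀ (K : Type) [Field K], Two K →
  ∃ q : VV K →ₗ[ZMod 2] VV K →ₗ[ZMod 2] BQ K, (∀ a b : Kˣ, q (vm a) (vm b) = sy a b) ∧
    (∀ v w, q v w = q w v) ∧ (∀ v, q v v = q v (vm (-1))) ∧
    (∀ a b c d : Kˣ, q (vm a) (vm b) = q (vm c) (vm d) ↔ pf a b = pf c d) ∧
    (∀ a b : Kˣ, q (vm a) (vm b) = 0 ↔ pf a b = 0) ∧
    (∀ a b c d, q a b = q c d → ∃ x, q a x = q a b ∧ q c x = q a b) ∧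
    ∀ b : BQ K, ∃ (n : ℕ) (v w : Fin n → VV K), b = ∑ i, q (v i) (w i)

/-- the quaternionic structure of a field -/
def Stmt_QSF : Prop := ∀ (K : Type) [Field K], Two K → ∃ (S : QS.QStruct) (φ : Kˣ →* S.G),
  Function.Surjective φ ∧ (∀ a, φ a = 1 ↔ IsSquare a) ∧ S.neg = φ (-1) ∧
  ∀ a b c d, S.q (φ a) (φ b) = S.q (φ c) (φ d) ↔ pf a b = pf c d

/-- isometry of the norm forms `x² - a y² - b z² + a b w²` and `x² - c y² - d z² + c d w²` is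
equality in `W(K)` -/
def Stmt_ISO : Prop := ∀ (K : Type) [Field K], Two K → ∀ a b c d : Kˣ,
  pf a b = pf c d ↔ ∃ e : (Fin 4 → K) ≃ₗ[K] (Fin 4 → K), ∀ x y,
    ud ![1, -c, -d, c * d] (e x) (e y) = ud ![1, -a, -b, a * b] x y

/-- comparison with EWG if `-1` is a square -/
def Stmt_CMP : Prop := ∀ (K : Type) [Field K], EWG.Good K → ∀ a b c d : Kˣ,
  (EWG.pf a b = EWG.pf c d ↔ pf a b = pf c d) ∧ (EWG.pf a b = 0 ↔ pf a b = 0)

end Pool.Agent.EWH
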