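import Pool.Agent.EWH.All

/-!
# EX2: elements of `I²(F)` which vanish over `K = F(√x)`, and the exchange of equal symbols
-/

set_option autoImplicit false

namespace Pool.Agent.EWH

open scoped BigOperators
open Pool.Agent.EWG (VV vm iu QD vm_surj vm_mul vm_eq_iff vm_eq_zero vm_one vm_add_self iu_coe)

/-- `b ∈ I²(F)` vanishing in `W(F(√x))` is congruent to a symbol `⟨⟨x, z⟩⟩` modulo `I³` -/
theorem kb2 {F K : Type} [Field F] [Field K] [Algebra F K] (hF : Two F) (E : QD F K) (b : W F)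
    (hb : b ∈ (I F) ^ 2) (h : rs F K b = 0) : ∃ z : Fˣ, b - pf E.x z ∈ (I F) ^ 3 := by
  obtain ⟨d, rfl⟩ := (q_rkr F K hF E b).1 h
  obtain ⟨ε, h1, h2⟩ := q_aug F hF
  have hd : d ∈ I F := by
    rw [← h2]
    by_contra hne
    have h3 : ε (d - 1) = 0 := by
      rw [map_sub, map_one]
      have : ∀ c : ZMod 2, c ≠ 0 → c - 1 = 0 := by decide
      exact this _ hne
    have h4 := (h2 _).1 h3
    apply E.ns
    apply q_di2 F hF
    have e : pf1 E.x = pf1 E.x * d - pf1 E.x * (d - 1) := by ring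
    rw [e]
    refine Ideal.sub_mem _ hb ?_
    rw [pow_two]
    exact Ideal.mul_mem_mul (pf1_mem _) h4
  obtain ⟨z, hz⟩ := q_im2 F hF d hd
  refine ⟨z, ?_⟩
  have e : pf1 E.x * d - pf E.x z = (d - pf1 z) * pf1 E.x := by unfold pf; ring
  rw [e, pow_succ]
  exact Ideal.mul_mem_mul hz (pf1_mem _)

/-- if `q_K(a, b) = q_K(c, d)` with `a, b, c, d` in `F` then `q(a, b) + q(c, d) = q(x, z)` -/
theorem FX.ex2 {F K : Type} [Field F] [Field K] [Algebra F K] {E : QD F K} (hF : Two F)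
    (X : FX E) (a b c d : VV F) (h : X.Q (X.res a) (X.res b) = X.Q (X.res c) (X.res d)) :
    ∃ z, X.q a b + X.q c d = X.q (vm E.x) z := by
  have hK : Two K := Two.map (algebraMap F K) hF
  obtain ⟨a, rfl⟩ := vm_surj a
  obtain ⟨b, rfl⟩ := vm_surj b
  obtain ⟨c, rfl⟩ := vm_surj c
  obtain ⟨d, rfl⟩ := vm_surj d
  rw [X.res_vm, X.res_vm, X.res_vm, X.res_vm, X.Q_vm, X.Q_vm] at h
  have h1 : pf (iu F a : Kˣ) (iu F b) = pf (iu F c) (iu F d) := by
    apply q_eqb K hK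
    exact (cl_eq_iff _ _).1 h
  obtain ⟨g, hg, hgr⟩ := q_map F K (algebraMap F K)
  have hpf : ∀ u v : Fˣ, rs F K (pf u v) = pf (iu F u : Kˣ) (iu F v) := by
    intro u v
    have : rs F K (pf u v) = g (pf u v) := hgr _
    rw [this]
    unfold pf pf1
    rw [map_mul, map_sub, map_sub, map_one, hg, hg]
    rfl
  have h2 : rs F K (pf a b - pf c d) = 0 := by
    have : rs F K (pf a b - pf c d) = g (pf a b - pf c d) := hgr _
    rw [this, map_sub]
    have e1 : g (pf a b) = rs F K (pf a b) := (hgr _).symm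
    have e2 : g (pf c d) = rs F K (pf c d) := (hgr _).symm
    rw [e1, e2, hpf, hpf, h1, sub_self]
  obtain ⟨z, hz⟩ := kb2 hF E _ (Ideal.sub_mem _ (pf_mem a b) (pf_mem c d)) h2
  refine ⟨vm z, ?_⟩
  rw [X.q_vm, X.q_vm, X.q_vm]
  unfold sy
  rw [← cl_add, cl_eq_iff]
  show pf a b + pf c d - pf E.x z ∈ (I F) ^ 3
  have e : pf a b + pf c d - pf E.x z = (pf a b - pf c d - pf E.x z) + (pf c d + pf c d) := by
    ring
  rw [e]
  exact Ideal.add_mem _ hz (two_mul_mem 2 _ (pf_mem _ _))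

end Pool.Agent.EWH
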