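import Pool.Agent.EWG.Defs

/-!
Witt rings of symmetric bilinear forms over an arbitrary field `K` with `2 ≠ 0` (no hypothesis on
`-1`, no hypothesis on `Iⁿ`) and one quadratic extension: field part of the general field theorem
for the elementary type conjecture, problem MP_d26ff6_al.

`W K` is the quotient of the integral group ring `ℤ[Kˣ]` by the split diagonal forms,
`pf1 a = ⟨1, -a⟩`, `pf a b = ⟨1, -a, -b, ab⟩`, target of the symbols: `I²/I³`.
-/

set_option autoImplicit false

namespace Pool.Agent.EWH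

open scoped BigOperators
open Pool.Agent.EWG (Split SN osum ud OB VV vm iu QD sB)

/-- the standing hypothesis -/
abbrev Two (K : Type) [Field K] : Prop := (2 : K) ≠ 0

/-! ### The Witt ring -/

section Witt

variable (K : Type) [Field K]

/-- the relations: split diagonal forms -/
noncomputable def rel : Ideal (MonoidAlgebra ℤ Kˣ) :=
  Ideal.span {f | ∃ (n : ℕ) (a : Fin n → Kˣ),
    Split K (ud a) ∧ f = ∑ i, MonoidAlgebra.of ℤ Kˣ (a i)}

/-- The Witt ring `W(K)`. -/
def W : Type := MonoidAlgebra ℤ Kˣ ⧸ rel K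

noncomputable instance : CommRing (W K) :=
  inferInstanceAs (CommRing (MonoidAlgebra ℤ Kˣ ⧸ rel K))

variable {K}

/-- the class `⟨a⟩` of the one-dimensional form `a x y` -/
noncomputable def br (a : Kˣ) : W K := Ideal.Quotient.mk (rel K) (MonoidAlgebra.of ℤ Kˣ a)

theorem br_mul (a b : Kˣ) : br (a * b) = br a * br b := by
  unfold br; rw [map_mul, map_mul]; rfl

@[simp] theorem br_one : br (1 : Kˣ) = 1 := by
  unfold br; rw [map_one, map_one]; rfl

/-- `⟨-a⟩ = -⟨a⟩` -/
theorem br_neg (a : Kˣ) : br (-a) = -br a := by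
  have h : br a + br (-a) = 0 := by
    have : MonoidAlgebra.of ℤ Kˣ a + MonoidAlgebra.of ℤ Kˣ (-a) ∈ rel K := by
      apply Ideal.subset_span
      refine ⟨2, ![a, -a], ⟨Submodule.span K {![1, 1]}, ?_, ?_⟩, by simp [Fin.sum_univ_two]⟩
      · intro x hx y hy
        rw [Submodule.mem_span_singleton] at hx hy
        obtain ⟨c, rfl⟩ := hx
        obtain ⟨d, rfl⟩ := hy
        simp [Fin.sum_univ_two]
      · rw [finrank_span_singleton (by intro h; simpa using congrFun h 0)]
        simp
    have h2 := (Ideal.Quotient.eq_zero_iff_mem (I := rel K)).2 this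
    rw [map_add] at h2
    exact h2
  exact (neg_eq_of_add_eq_zero_right h).symm

/-- `⟨⟨a⟩⟩ = ⟨1, -a⟩` -/
noncomputable def pf1 (a : Kˣ) : W K := 1 - br a

/-- `⟨⟨a, b⟩⟩ = ⟨1, -a, -b, ab⟩` -/
noncomputable def pf (a b : Kˣ) : W K := pf1 a * pf1 b

/-- `⟨⟨a, b, c⟩⟩` -/
noncomputable def pf3 (a b c : Kˣ) : W K := pf1 a * pf1 b * pf1 c

theorem pf_comm (a b : Kˣ) : pf a b = pf b a := by unfold pf; ring

variable (K)

/-- the fundamental ideal -/
noncomputable def I : Ideal (W K) := Ideal.span (Set.range (pf1 (K := K)))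

variable {K}

theorem pf1_mem (a : Kˣ) : pf1 a ∈ I K := Ideal.subset_span ⟨a, rfl⟩

theorem pf_mem (a b : Kˣ) : pf a b ∈ (I K) ^ 2 := by
  rw [pow_two]; exact Ideal.mul_mem_mul (pf1_mem a) (pf1_mem b)

theorem pf3_mem (a b c : Kˣ) : pf3 a b c ∈ (I K) ^ 3 := by
  rw [pow_succ]; exact Ideal.mul_mem_mul (pf_mem a b) (pf1_mem c)

theorem two_eq : (2 : W K) = pf1 (-1) := by
  unfold pf1; rw [br_neg, br_one]; ring

theorem two_mul_mem (n : ℕ) (c : W K) (h : c ∈ (I K) ^ n) : c + c ∈ (I K) ^ (n + 1) := by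
  have : c + c = c * pf1 (-1) := by rw [← two_eq]; ring
  rw [this, pow_succ]
  exact Ideal.mul_mem_mul h (pf1_mem _)

variable (K)

/-- the target of the symbols: `I²/I³` -/
def BQ : Type := ↥((I K) ^ 2) ⧸ (Submodule.comap ((I K) ^ 2).subtype ((I K) ^ 3))

noncomputable instance : AddCommGroup (BQ K) :=
  inferInstanceAs (AddCommGroup
    (↥((I K) ^ 2) ⧸ (Submodule.comap ((I K) ^ 2).subtype ((I K) ^ 3))))

variable {K}

/-- the class in `I²/I³` of an element of `I²` -/
noncomputable def cl (c : ↥((I K) ^ 2)) : BQ K :=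
  Submodule.Quotient.mk (p := Submodule.comap ((I K) ^ 2).subtype ((I K) ^ 3)) c

theorem cl_surj (b : BQ K) : ∃ c : ↥((I K) ^ 2), cl c = b :=
  Submodule.Quotient.mk_surjective _ b

theorem cl_add (c d : ↥((I K) ^ 2)) : cl (c + d) = cl c + cl d := rfl

theorem cl_zero : cl (0 : ↥((I K) ^ 2)) = 0 := rfl

theorem cl_eq_zero (c : ↥((I K) ^ 2)) : cl c = 0 ↔ (c : W K) ∈ (I K) ^ 3 :=
  Submodule.Quotient.mk_eq_zero _

theorem cl_eq_iff (c d : ↥((I K) ^ 2)) : cl c = cl d ↔ (c : W K) - d ∈ (I K) ^ 3 :=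
  Submodule.Quotient.eq _

theorem bq_add_self (b : BQ K) : b + b = 0 := by
  obtain ⟨c, rfl⟩ := cl_surj b
  rw [← cl_add, cl_eq_zero]
  exact two_mul_mem 2 _ c.2

noncomputable instance instBQ : Module (ZMod 2) (BQ K) :=
  AddCommGroup.zmodModule (n := 2) fun v => by rw [two_nsmul, bq_add_self]

/-- the symbol `q(a, b)`: the class of `⟨⟨a, b⟩⟩` in `I²/I³` -/
noncomputable def sy (a b : Kˣ) : BQ K := cl ⟨pf a b, pf_mem a b⟩

/-- sums of `n` scaled threefold Pfister forms -/
def S3 (K : Type) [Field K] (n : ℕ) (c : W K) : Prop :=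
  ∃ u x y z : Fin n → Kˣ, c = ∑ i, br (u i) * pf3 (x i) (y i) (z i)

end Witt

/-! ### Restriction -/

/-- the map `W(K) → W(L)` of a homomorphism of fields -/
def IsMap {K L : Type} [Field K] [Field L] (f : K →+* L) (g : W K →+* W L) : Prop :=
  ∀ a : Kˣ, g (br a) = br (Units.map f.toMonoidHom a)

open Classical in
/-- the map `W(K) → W(L)` of a homomorphism of fields -/
noncomputable def wmap {K L : Type} [Field K] [Field L] (f : K →+* L) : W K → W L :=
  if h : ∃ g : W K →+* W L, IsMap f g then h.choose else fun _ => 0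

theorem Two.map {F K : Type} [Field F] [Field K] (f : F →+* K) (h : Two F) : Two K := by
  have := (map_ne_zero f).2 h
  rwa [map_ofNat] at this

/-! ### Quadratic extensions -/

section Quad

variable (F K : Type) [Field F] [Field K] [Algebra F K]

/-- scalar extension `W(F) → W(K)` -/
noncomputable def rs : W F → W K := wmap (algebraMap F K)

variable {F K}

/-- `T` is the transfer `W(K) → W(F)` with respect to `s` -/
def IsTr (E : QD F K) (T : W K →+ W F) : Prop :=
  ∀ w : Kˣ, (∀ β : Fˣ, (β : F) = E.s w → T (br w) = br β * pf1 (E.nm w)) ∧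
    (E.s w = 0 → T (br w) = 0)

open Classical in
/-- the transfer `W(K) → W(F)` with respect to `s` -/
noncomputable def tr (E : QD F K) : W K →+ W F :=
  if h : ∃ T : W K →+ W F, IsTr E T then h.choose else 0

/-- conjugation on `W(K)` -/
noncomputable def cj (E : QD F K) : W K → W K := wmap (E.σ : K →+* K)

end Quad

/-! ### Injectivity of symbols in `I²/I³` -/

/-- a twofold Pfister form which is a sum of `n` scaled threefold Pfister forms is zero (over
all fields) -/
def P2 (n : ℕ) : Prop := ∀ (K : Type) [Field K], Two K → ∀ a b : Kˣ, S3 K n (pf a b) → pf a b = 0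

/-- the situation of a counterexample with `n + 1` summands -/
def HH (n : ℕ) (K : Type) [Field K] (a b x y z : Kˣ) : Prop :=
  pf a b ≠ 0 ∧ pf3 x y z ≠ 0 ∧ ∃ u : Kˣ, S3 K n (pf a b + br u * pf3 x y z)

/-- constants of the rational function field -/
noncomputable def rc {K : Type} [Field K] (a : Kˣ) : (RatFunc K)ˣ :=
  Units.map (RatFunc.C : K →+* RatFunc K).toMonoidHom a

end Pool.Agent.EWH
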