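import Pool.Agent.EWH.Stmts

/-!
Module IGN: elements of `I²` and of `I³`.
-/

set_option autoImplicit false

namespace Pool.Agent.EWH

open scoped BigOperators
open Pool.Agent.EWG (Split SN osum ud OB VV vm iu QD sB ud_apply iu_coe)

namespace IGN_

theorem gen (hSUR : Stmt_SUR) {K : Type} [Field K] {ι : Type} (f : ι → W K) (c : W K)
    (hc : c ∈ Ideal.span (Set.range f)) :
    ∃ (n : ℕ) (u : Fin n → Kˣ) (t : Fin n → ι), c = ∑ i, br (u i) * f (t i) := by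
  induction hc using Submodule.span_induction with
  | mem x hx =>
    obtain ⟨t, rfl⟩ := hx
    exact ⟨1, fun _ => 1, fun _ => t, by simp⟩
  | zero => exact ⟨0, Fin.elim0, Fin.elim0, by simp⟩
  | add x y _ _ hx hy =>
    obtain ⟨n, u, t, rfl⟩ := hx
    obtain ⟨m, v, s, rfl⟩ := hy
    refine ⟨n + m, Fin.append u v, Fin.append t s, ?_⟩
    rw [Fin.sum_univ_add]
    simp only [Fin.append_left, Fin.append_right]
  | smul r x _ hx =>
    obtain ⟨n, u, t, rfl⟩ := hx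
    obtain ⟨m, v, rfl⟩ := hSUR K r
    refine ⟨m * n, fun k => v (finProdFinEquiv.symm k).1 * u (finProdFinEquiv.symm k).2,
      fun k => t (finProdFinEquiv.symm k).2, ?_⟩
    rw [smul_eq_mul, Finset.sum_mul_sum, ← Fintype.sum_prod_type']
    refine Fintype.sum_equiv finProdFinEquiv _ _ fun p => ?_
    simp only [Equiv.symm_apply_apply, br_mul, mul_assoc]

end IGN_

open IGN_

theorem ign_proof (hSUR : Stmt_SUR) : Stmt_IGN := by
  intro K _
  have h2 : (I K) ^ 2 = Ideal.span (Set.range fun p : Kˣ × Kˣ => pf p.1 p.2) := by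
    unfold I
    rw [pow_two, Ideal.span_mul_span']
    congr 1
    ext x
    rw [Set.mem_mul]
    constructor
    · rintro ⟨_, ⟨a, rfl⟩, _, ⟨b, rfl⟩, rfl⟩
      exact ⟨(a, b), rfl⟩
    · rintro ⟨⟨a, b⟩, rfl⟩
      exact ⟨_, ⟨a, rfl⟩, _, ⟨b, rfl⟩, rfl⟩
  have h3 : (I K) ^ 3 = Ideal.span (Set.range fun p : Kˣ × Kˣ × Kˣ => pf3 p.1 p.2.1 p.2.2) := by
    rw [pow_succ, h2]
    unfold I
    rw [Ideal.span_mul_span']
    congr 1
    ext x
    rw [Set.mem_mul]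
    constructor
    · rintro ⟨_, ⟨⟨a, b⟩, rfl⟩, _, ⟨c, rfl⟩, rfl⟩
      exact ⟨(a, b, c), rfl⟩
    · rintro ⟨⟨a, b, c⟩, rfl⟩
      exact ⟨_, ⟨(a, b), rfl⟩, _, ⟨c, rfl⟩, rfl⟩
  constructor
  · intro c hc
    rw [h2] at hc
    obtain ⟨n, u, t, h⟩ := gen hSUR _ c hc
    exact ⟨n, u, fun i => (t i).1, fun i => (t i).2, h⟩
  · intro c hc
    rw [h3] at hc
    obtain ⟨n, u, t, h⟩ := gen hSUR _ c hc
    exact ⟨n, u, fun i => (t i).1, fun i => (t i).2.1, fun i => (t i).2.2, h⟩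

end Pool.Agent.EWH
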