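import Pool.Agent.EWH.Stmts

/-!
# Squad EWH: module NP3 (norm principle for twofold Pfister forms)
-/

set_option autoImplicit false

namespace Pool.Agent.EWH

open scoped BigOperators
open Pool.Agent.EWG (Split SN osum ud OB VV vm iu QD sB iu_coe ud_apply)

theorem np3_proof (hREL : Stmt_REL) (hMAP : Stmt_MAP) (hSTR : Stmt_STR) (hPRJ : Stmt_PRJ)
    (hRTQ : Stmt_RTQ) : Stmt_NP3 := by
  intro F K _ _ _ hF E a b w h
  obtain ⟨g, hg, hgr⟩ := hMAP F K (algebraMap F K)
  have hrs : ∀ c, rs F K c = g c := fun c => hgr c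
  have htr1 : tr E (1 : W K) = 0 := by
    have h1 := (hRTQ F K hF E).2.1 1
    rwa [hrs, map_one] at h1
  have sq : ∀ b : Fˣ, br b * br b = 1 := by
    intro b
    have h1 := (hREL F hF).2.2.1 1 b
    rw [one_mul, pow_two, br_mul, br_one] at h1
    exact h1
  by_cases hs : E.s w = 0
  · have h1 : IsSquare (E.nm w) := by
      have ht : E.t w ≠ 0 := by
        intro h0
        have := E.nmt w
        rw [h0, hs] at this
        apply (E.nm w).ne_zero
        rw [this]
        ring
      refine ⟨Units.mk0 _ ht, Units.ext ?_⟩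
      rw [E.nmt, hs, Units.val_mul, Units.val_mk0]
      ring
    unfold pf3
    rw [((hREL F hF).2.2.2 _).2 h1, mul_zero]
  · have h1 : rs F K (pf a b) * pf1 w = pf3 (iu F a) (iu F b) w := by
      rw [hrs]
      unfold pf3 pf pf1
      rw [map_mul, map_sub, map_sub, map_one, hg, hg]
      rfl
    have h2 : tr E (rs F K (pf a b) * pf1 w) = 0 := by rw [h1, h, map_zero]
    rw [hPRJ F K hF E] at h2
    have h3 : tr E (pf1 w) = -(br (Units.mk0 _ hs) * pf1 (E.nm w)) := by
      unfold pf1
      rw [map_sub, htr1, (hSTR F K hF E w).1 (Units.mk0 _ hs) rfl]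
      unfold pf1
      ring
    rw [h3] at h2
    have e : pf3 a b (E.nm w) = pf a b * pf1 (E.nm w) := rfl
    rw [e]
    linear_combination (-br (Units.mk0 _ hs)) * h2 - (pf a b * pf1 (E.nm w)) *
      sq (Units.mk0 _ hs)

end Pool.Agent.EWH
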