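import Pool.Agent.EWH.Stmts

/-!
Squad EWH, module TRN: restriction, transfer and conjugation preserve the powers of `I`.
-/

set_option autoImplicit false

namespace Pool.Agent.EWH

open scoped BigOperators
open Pool.Agent.EWG (Split SN osum ud OB VV vm iu QD sB)

namespace TRN_

/-- a map of Witt rings induced by a homomorphism of fields preserves the fundamental ideal -/
theorem map_I {K L : Type} [Field K] [Field L] (f : K →+* L) (g : W K →+* W L) (hg : IsMap f g) :
    Ideal.map g (I K) ≤ I L := by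
  unfold I
  rw [Ideal.map_span, Ideal.span_le]
  rintro _ ⟨_, ⟨a, rfl⟩, rfl⟩
  have h : g (pf1 a) = pf1 (Units.map f.toMonoidHom a) := by
    unfold pf1
    rw [map_sub, map_one, hg]
  rw [h]
  exact pf1_mem _

theorem map_pow_I {K L : Type} [Field K] [Field L] (f : K →+* L) (g : W K →+* W L)
    (hg : IsMap f g) (n : ℕ) (c : W K) (hc : c ∈ (I K) ^ n) : g c ∈ (I L) ^ n := by
  have h1 : g c ∈ Ideal.map g ((I K) ^ n) := Ideal.mem_map_of_mem g hc
  rw [Ideal.map_pow] at h1
  exact Ideal.pow_right_mono (map_I f g hg) n h1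

theorem wmap_mem (hMAP : Stmt_MAP) {K L : Type} [Field K] [Field L] (f : K →+* L) (n : ℕ)
    (c : W K) (hc : c ∈ (I K) ^ n) : wmap f c ∈ (I L) ^ n := by
  obtain ⟨g, hg, hfg⟩ := hMAP K L f
  rw [hfg]
  exact map_pow_I f g hg n c hc

theorem br_self (hREL : Stmt_REL) {K : Type} [Field K] (hK : Two K) (a : Kˣ) :
    br a * br a = 1 := by
  have h := (hREL K hK).2.2.1 1 a
  rw [one_mul, br_one, pow_two, br_mul] at h
  exact h

section

variable {F K : Type} [Field F] [Field K] [Algebra F K]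

theorem pf1_eq (hREL : Stmt_REL) (hK : Two K) (b w : Kˣ) :
    pf1 w = pf1 b + br b * pf1 (b * w) := by
  have h := br_self hREL hK b
  unfold pf1
  rw [br_mul]
  linear_combination br w * h

open scoped Pointwise in
/-- products of two elements of `I K` -/
theorem sq_le (hREL : Stmt_REL) (hRTD : Stmt_RTD) (hF : Two F) (hK : Two K) (E : QD F K)
    (g : W F →+* W K) (hg : IsMap (algebraMap F K) g) :
    I K * I K ≤ Ideal.map g (I F) * I K := by
  have hJ : ∀ b : Fˣ, pf1 (iu F b : Kˣ) ∈ Ideal.map g (I F) := by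
    intro b
    have h : pf1 (iu F b : Kˣ) = g (pf1 b) := by
      unfold pf1
      rw [map_sub, map_one, hg]
      rfl
    rw [h]
    exact Ideal.mem_map_of_mem g (pf1_mem b)
  have h1 : I K * I K = Ideal.span (Set.range (pf1 (K := K)) * Set.range (pf1 (K := K))) := by
    unfold I
    rw [Ideal.span_mul_span']
  rw [h1, Ideal.span_le]
  rintro _ ⟨_, ⟨w, rfl⟩, _, ⟨y, rfl⟩, rfl⟩
  obtain ⟨b, c, hbc⟩ := hRTD F K hF E w y
  have h2 : pf1 w * pf1 y = pf1 (iu F b : Kˣ) * pf1 y +
      pf1 (iu F c : Kˣ) * (br (iu F b) * pf1 (iu F b * w)) := by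
    have e1 := pf1_eq hREL hK (iu F b) w
    have e2 := pf1_eq hREL hK (iu F c) y
    unfold pf at hbc
    rw [e1]
    linear_combination (br (iu F b : Kˣ) * pf1 (iu F b * w)) * e2 +
      br (iu F b : Kˣ) * br (iu F c : Kˣ) * hbc
  show pf1 w * pf1 y ∈ Ideal.map g (I F) * I K
  rw [h2]
  exact Ideal.add_mem _ (Ideal.mul_mem_mul (hJ b) (pf1_mem _))
    (Ideal.mul_mem_mul (hJ c) (Ideal.mul_mem_left _ _ (pf1_mem _)))

theorem pow_le (J : Ideal (W K)) (h : I K * I K ≤ J * I K) (n : ℕ) :
    (I K) ^ (n + 1) ≤ J ^ n * I K := by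
  induction n with
  | zero => simp
  | succ n ih =>
    calc (I K) ^ (n + 1 + 1) = (I K) ^ (n + 1) * I K := pow_succ _ _
      _ ≤ J ^ n * I K * I K := Ideal.mul_mono_left ih
      _ = J ^ n * (I K * I K) := mul_assoc _ _ _
      _ ≤ J ^ n * (J * I K) := Ideal.mul_mono_right h
      _ = J ^ (n + 1) * I K := by rw [← mul_assoc, ← pow_succ]

theorem tr_mem (hSUR : Stmt_SUR) (hSTR : Stmt_STR) (hF : Two F) (E : QD F K) (c : W K) :
    tr E c ∈ I F := by
  have hT := hSTR F K hF E
  obtain ⟨n, w, rfl⟩ := hSUR K c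
  rw [map_sum]
  refine Ideal.sum_mem _ fun i _ => ?_
  by_cases hs : E.s (w i) = 0
  · rw [(hT (w i)).2 hs]
    exact zero_mem _
  · rw [(hT (w i)).1 (Units.mk0 _ hs) rfl]
    exact Ideal.mul_mem_left _ _ (pf1_mem _)

end

end TRN_

open TRN_

theorem trn_proof (hSUR : Stmt_SUR) (hREL : Stmt_REL) (hMAP : Stmt_MAP) (hSTR : Stmt_STR)
    (hPRJ : Stmt_PRJ) (hRTD : Stmt_RTD) : Stmt_TRN := by
  intro F K _ _ _ hF E n
  have hK : Two K := Two.map (algebraMap F K) hF
  refine ⟨?_, fun a ha => wmap_mem hMAP _ n a ha, fun c hc => wmap_mem hMAP _ n c hc⟩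
  rcases n with _ | n
  · intro c _
    simp
  intro c hc
  obtain ⟨g, hg, hfg⟩ := hMAP F K (algebraMap F K)
  have h1 := pow_le _ (sq_le hREL hRTD hF hK E g hg) n hc
  rw [← Ideal.map_pow] at h1
  have h2 : ∀ m ∈ Ideal.map g ((I F) ^ n), ∀ d : W K, tr E (m * d) ∈ (I F) ^ (n + 1) := by
    intro m hm
    unfold Ideal.map at hm
    induction hm using Submodule.span_induction with
    | mem x hx =>
      obtain ⟨a, ha, rfl⟩ := hx
      intro d
      have h3 := hPRJ F K hF E a d
      unfold rs at h3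
      rw [hfg] at h3
      rw [h3, pow_succ]
      exact Ideal.mul_mem_mul ha (tr_mem hSUR hSTR hF E d)
    | zero =>
      intro d
      rw [zero_mul, map_zero]
      exact zero_mem _
    | add x y _ _ hx hy =>
      intro d
      rw [add_mul, map_add]
      exact add_mem (hx d) (hy d)
    | smul r x _ hx =>
      intro d
      have h3 : r • x * d = x * (r * d) := by rw [smul_eq_mul]; ring
      rw [h3]
      exact hx _
  clear hc
  induction h1 using Submodule.mul_induction_on' with
  | mem_mul_mem m hm d hd => exact h2 m hm d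
  | add x hx y hy hx' hy' =>
    rw [map_add]
    exact add_mem hx' hy'

end Pool.Agent.EWH
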